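import Pool.Agent.Y223.INV.Tw

/-!
# Regular models of twisted forms over quadratic extensions
-/

set_option autoImplicit false
set_option linter.unusedVariables false
set_option linter.unusedSectionVars false

open scoped Pointwise

open AlgebraicGeometry CategoryTheory CategoryTheory.Limits MvPolynomial NumberField

namespace Pool.Agent.Y223.INV

open Pool.Agent.TH214.RM Pool.Agent.H918R2.Quad Pool.Agent.W418

/-- The evaluation of the homogeneous coordinate ring. -/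
theorem exists_eps2 {E F A : Type} [Field E] [Field F] [Algebra E F] [CommRing A] [Algebra E A]
    {n : ℕ} (x : Fin (n + 1) → F) (π : MvPolynomial (Fin (n + 1)) E →ₐ[E] A)
    (hπ : Function.Surjective π) (𝒜 : ℕ → Submodule E A) [GradedAlgebra 𝒜]
    (h𝒜 : ∀ d, 𝒜 d = (homogeneousSubmodule (Fin (n + 1)) E d).map π.toLinearMap)
    (hx : ∀ d, ∀ P ∈ homogeneousSubmodule (Fin (n + 1)) E d, π P = 0 ↔ aeval x P = 0) :
    ∃ ε : A →ₐ[E] F, (∀ d, ∀ a ∈ 𝒜 d, ε a = 0 → a = 0) ∧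
      (∀ d, (𝒜 d).map ε.toLinearMap = ((𝒜 1).map ε.toLinearMap) ^ d) ∧
      (𝒜 1).map ε.toLinearMap = Submodule.span E (Set.range x) := by
  classical
  have hker : ∀ P, π P = 0 → aeval x P = 0 := by
    intro P hP
    have hmem : ∀ i, π (homogeneousComponent i P) ∈ 𝒜 i := by
      intro i
      rw [h𝒜]
      exact ⟨_, homogeneousComponent_mem i P, rfl⟩
    have hsum : ∑ i ∈ Finset.range (P.totalDegree + 1), π (homogeneousComponent i P) = 0 := by
      rw [← map_sum, sum_homogeneousComponent, hP]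
    have hcomp : ∀ i ∈ Finset.range (P.totalDegree + 1), π (homogeneousComponent i P) = 0 := by
      intro i hi
      have h1 : GradedRing.proj 𝒜 i (∑ j ∈ Finset.range (P.totalDegree + 1),
          π (homogeneousComponent j P)) = 0 := by rw [hsum, map_zero]
      rw [map_sum, Finset.sum_eq_single_of_mem i hi] at h1
      · rw [GradedRing.proj_apply] at h1
        rwa [DirectSum.decompose_of_mem_same 𝒜 (hmem i)] at h1
      · intro j _ hji
        rw [GradedRing.proj_apply]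
        exact DirectSum.decompose_of_mem_ne 𝒜 (hmem j) hji
    rw [← sum_homogeneousComponent P, map_sum]
    refine Finset.sum_eq_zero fun i hi => ?_
    exact (hx i _ (homogeneousComponent_mem i P)).1 (hcomp i hi)
  let eq1 : (MvPolynomial (Fin (n + 1)) E ⧸ RingHom.ker π) ≃ₐ[E] A :=
    Ideal.quotientKerAlgEquivOfSurjective hπ
  let ψ : (MvPolynomial (Fin (n + 1)) E ⧸ RingHom.ker π) →ₐ[E] F :=
    Ideal.Quotient.liftₐ (RingHom.ker π) (aeval x) (fun a ha => hker a ha)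
  let ε : A →ₐ[E] F := ψ.comp (eq1.symm : A →ₐ[E] _)
  have hε : ∀ P, ε (π P) = aeval x P := by
    intro P
    have h1 : eq1.symm (π P) = Ideal.Quotient.mk _ P := by
      rw [AlgEquiv.symm_apply_eq]
      rfl
    change ψ (eq1.symm (π P)) = _
    rw [h1]
    rfl
  have hcomp : ε.comp π = aeval x := AlgHom.ext hε
  have hmap : ∀ d, (𝒜 d).map ε.toLinearMap =
      (homogeneousSubmodule (Fin (n + 1)) E d).map (aeval x).toLinearMap := by
    intro d
    rw [h𝒜, ← Submodule.map_comp, ← hcomp]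
    rfl
  refine ⟨ε, ?_, ?_, ?_⟩
  · intro d a ha hεa
    rw [h𝒜] at ha
    obtain ⟨P, hP, rfl⟩ := ha
    have h1 : aeval x P = 0 := by rw [← hε]; exact hεa
    exact (hx d P hP).2 h1
  · intro d
    rw [hmap, hmap, ← homogeneousSubmodule_one_pow, Submodule.map_pow]
  · rw [hmap, homogeneousSubmodule_one_eq_span_X, Submodule.map_span, ← Set.range_comp]
    congr 2
    funext j
    simp

section

variable {E F K A : Type} [Field E] [NumberField E] [Field F] [Algebra E F] [Field K] [Algebra F K]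
  [Algebra E K] [IsScalarTower E F K] [Algebra (𝓞 E) K] [IsScalarTower (𝓞 E) E K] [CommRing A]
  [Algebra E A]

theorem tw_goodModule {n : ℕ} (x : Fin (n + 1) → F)
    {δ : K} {d : E} (hd : δ ^ 2 = algebraMap F K (algebraMap E F d))
    (hδ : ∀ f : F, algebraMap F K f ≠ δ)
    (hK : ∀ y : K, ∃ a b : F, y = algebraMap F K a + δ * algebraMap F K b)
    {N m : ℕ} (hm : 1 ≤ m) (H : Fin (N + 1) → K) (hH : ∀ j, H j ≠ 0)
    (hreg : ∀ j, IsRegularRing (CR (𝓞 E) H j))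
    (hHm : ∀ y : K, y ∈ Submodule.span E (Set.range H) ↔
      ∃ P ∈ homogeneousSubmodule (Fin (n + 1)) E m, ∃ Q ∈ homogeneousSubmodule (Fin (n + 1)) E m,
        y = algebraMap F K (aeval x P) + δ * algebraMap F K (aeval x Q))
    (σ : K ≃ₐ[𝓞 E] K) (hσF : ∀ f : F, σ (algebraMap F K f) = algebraMap F K f) (hσδ : σ δ = - δ)
    (hσH : ∀ j, σ (H j) ∈ Submodule.span (𝓞 E) (Set.range H))
    (I : Submodule (𝓞 E) K) (hI : I ≤ Submodule.span (𝓞 E) (Set.range H)) {s₀ : 𝓞 E} (hs₀ : s₀ ≠ 0)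
    (hs₀I : ∀ y ∈ Submodule.span (𝓞 E) (Set.range H), s₀ • y ∈ I) (hσI : ∀ x ∈ I, σ x ∈ I)
    (hpt : ∀ j (𝔮 : Ideal (CR (𝓞 E) H j)) [𝔮.IsPrime],
      PC σ (LocalSubring.ofPrime (CR (𝓞 E) H j) 𝔮).toSubring
        (IA I (H j) (LocalSubring.ofPrime (CR (𝓞 E) H j) 𝔮).toSubring))
    [Algebra (𝓞 E) F] [IsScalarTower (𝓞 E) E F] : GoodModule (𝓞 E) x := by
  classical
  have h3 : IsScalarTower (𝓞 E) F K := IsScalarTower.of_algebraMap_eq fun a => by
    rw [IsScalarTower.algebraMap_apply (𝓞 E) E K, IsScalarTower.algebraMap_apply E F K,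
      IsScalarTower.algebraMap_apply (𝓞 E) E F]
  have hpow : ∀ k, (homogeneousSubmodule (Fin (n + 1)) E k).map (aeval x).toLinearMap =
      Submodule.span E (Set.range x ^ k) := by
    intro k
    rw [← homogeneousSubmodule_one_pow, Submodule.map_pow, homogeneousSubmodule_one_eq_span_X,
      Submodule.map_span, ← Set.range_comp, Submodule.span_pow]
    congr 3
    funext j
    simp
  have hmem : ∀ P ∈ homogeneousSubmodule (Fin (n + 1)) E m,
      aeval x P ∈ Submodule.span E (Set.range x ^ m) := by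
    intro P hP
    rw [← hpow]
    exact ⟨P, hP, rfl⟩
  refine tw_good (E := E) x hm hd hδ hK ?_ σ hσF hσδ H hH hreg ?_ ?_ hσH I hI hs₀ hs₀I hσI hpt
  · exact two_ne_zero
  · intro j
    have h4 : H j ∈ Submodule.span E (Set.range H) := Submodule.subset_span ⟨j, rfl⟩
    rw [hHm] at h4
    obtain ⟨P, hP, Q, hQ, h5⟩ := h4
    exact ⟨_, hmem P hP, _, hmem Q hQ, h5⟩
  · intro y hy
    have h4 : y ∈ Submodule.span E (Set.range x ^ m) := Submodule.subset_span hy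
    rw [← hpow] at h4
    obtain ⟨P, hP, rfl⟩ := h4
    rw [hHm, hHm]
    refine ⟨⟨P, hP, 0, Submodule.zero_mem _, ?_⟩, ⟨0, Submodule.zero_mem _, P, hP, ?_⟩⟩
    · rw [map_zero, map_zero, mul_zero, add_zero]
      rfl
    · rw [map_zero, map_zero, zero_add]
      rfl

theorem tw_model_O {n : ℕ} (x : Fin (n + 1) → F)
    (π : MvPolynomial (Fin (n + 1)) E →ₐ[E] A)
    (hπ : Function.Surjective π) (𝒜 : ℕ → Submodule E A) [GradedAlgebra 𝒜]
    (h𝒜 : ∀ d, 𝒜 d = (homogeneousSubmodule (Fin (n + 1)) E d).map π.toLinearMap)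
    (hx : ∀ d, ∀ P ∈ homogeneousSubmodule (Fin (n + 1)) E d, π P = 0 ↔ aeval x P = 0)
    {δ : K} {d : E} (hd : δ ^ 2 = algebraMap F K (algebraMap E F d))
    (hδ : ∀ f : F, algebraMap F K f ≠ δ)
    (hK : ∀ y : K, ∃ a b : F, y = algebraMap F K a + δ * algebraMap F K b)
    {N m : ℕ} (hm : 1 ≤ m) (H : Fin (N + 1) → K) (hH : ∀ j, H j ≠ 0)
    (hreg : ∀ j, IsRegularRing (CR (𝓞 E) H j))
    (hHm : ∀ y : K, y ∈ Submodule.span E (Set.range H) ↔
      ∃ P ∈ homogeneousSubmodule (Fin (n + 1)) E m, ∃ Q ∈ homogeneousSubmodule (Fin (n + 1)) E m,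
        y = algebraMap F K (aeval x P) + δ * algebraMap F K (aeval x Q))
    (σ : K ≃ₐ[𝓞 E] K) (hσF : ∀ f : F, σ (algebraMap F K f) = algebraMap F K f) (hσδ : σ δ = - δ)
    (hσH : ∀ j, σ (H j) ∈ Submodule.span (𝓞 E) (Set.range H))
    (I : Submodule (𝓞 E) K) (hI : I ≤ Submodule.span (𝓞 E) (Set.range H)) {s₀ : 𝓞 E} (hs₀ : s₀ ≠ 0)
    (hs₀I : ∀ y ∈ Submodule.span (𝓞 E) (Set.range H), s₀ • y ∈ I) (hσI : ∀ x ∈ I, σ x ∈ I)
    (hpt : ∀ j (𝔮 : Ideal (CR (𝓞 E) H j)) [𝔮.IsPrime],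
      PC σ (LocalSubring.ofPrime (CR (𝓞 E) H j) 𝔮).toSubring
        (IA I (H j) (LocalSubring.ofPrime (CR (𝓞 E) H j) 𝔮).toSubring))
    {Y : Scheme.{0}} (f : Y ⟶ Spec (CommRingCat.of E)) (i : Y ≅ Proj 𝒜)
    (hi : i.hom ≫ GO.projStr 𝒜 = f) : GO.HasModel (𝓞 E) E f := by
  let _ : Algebra (𝓞 E) F := ((algebraMap E F).comp (algebraMap (𝓞 E) E)).toAlgebra
  have hst : IsScalarTower (𝓞 E) E F := IsScalarTower.of_algebraMap_eq fun _ => rfl
  have hM := tw_goodModule x hd hδ hK hm H hH hreg hHm σ hσF hσδ hσH I hI hs₀ hs₀I hσI hpt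
  obtain ⟨ε, hε, hεgen, hε1⟩ := exists_eps2 x π hπ 𝒜 h𝒜 hx
  exact hasModel_of_goodModule (O := 𝓞 E) 𝒜 ε hε hεgen x hε1 hM f i hi

theorem tw_model_Z {n : ℕ} (x : Fin (n + 1) → F)
    (π : MvPolynomial (Fin (n + 1)) E →ₐ[E] A)
    (hπ : Function.Surjective π) (𝒜 : ℕ → Submodule E A) [GradedAlgebra 𝒜]
    (h𝒜 : ∀ d, 𝒜 d = (homogeneousSubmodule (Fin (n + 1)) E d).map π.toLinearMap)
    (hx : ∀ d, ∀ P ∈ homogeneousSubmodule (Fin (n + 1)) E d, π P = 0 ↔ aeval x P = 0)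
    {δ : K} {d : E} (hd : δ ^ 2 = algebraMap F K (algebraMap E F d))
    (hδ : ∀ f : F, algebraMap F K f ≠ δ)
    (hK : ∀ y : K, ∃ a b : F, y = algebraMap F K a + δ * algebraMap F K b)
    {N m : ℕ} (hm : 1 ≤ m) (H : Fin (N + 1) → K) (hH : ∀ j, H j ≠ 0)
    (hreg : ∀ j, IsRegularRing (CR (𝓞 E) H j))
    (hHm : ∀ y : K, y ∈ Submodule.span E (Set.range H) ↔
      ∃ P ∈ homogeneousSubmodule (Fin (n + 1)) E m, ∃ Q ∈ homogeneousSubmodule (Fin (n + 1)) E m,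
        y = algebraMap F K (aeval x P) + δ * algebraMap F K (aeval x Q))
    (σ : K ≃ₐ[𝓞 E] K) (hσF : ∀ f : F, σ (algebraMap F K f) = algebraMap F K f) (hσδ : σ δ = - δ)
    (hσH : ∀ j, σ (H j) ∈ Submodule.span (𝓞 E) (Set.range H))
    (I : Submodule (𝓞 E) K) (hI : I ≤ Submodule.span (𝓞 E) (Set.range H)) {s₀ : 𝓞 E} (hs₀ : s₀ ≠ 0)
    (hs₀I : ∀ y ∈ Submodule.span (𝓞 E) (Set.range H), s₀ • y ∈ I) (hσI : ∀ x ∈ I, σ x ∈ I)
    (hpt : ∀ j (𝔮 : Ideal (CR (𝓞 E) H j)) [𝔮.IsPrime],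
      PC σ (LocalSubring.ofPrime (CR (𝓞 E) H j) 𝔮).toSubring
        (IA I (H j) (LocalSubring.ofPrime (CR (𝓞 E) H j) 𝔮).toSubring))
    (Y : Scheme.{0}) (hY : Nonempty (Y ≅ Proj 𝒜)) : HasRegularModel Y := by
  let _ : Algebra (𝓞 E) F := ((algebraMap E F).comp (algebraMap (𝓞 E) E)).toAlgebra
  have hst : IsScalarTower (𝓞 E) E F := IsScalarTower.of_algebraMap_eq fun _ => rfl
  have hM := tw_goodModule x hd hδ hK hm H hH hreg hHm σ hσF hσδ hσH I hI hs₀ hs₀I hσI hpt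
  obtain ⟨ε, hε, hεgen, hε1⟩ := exists_eps2 x π hπ 𝒜 h𝒜 hx
  exact hasRegularModel_of_goodModule (O := 𝓞 E) 𝒜 ε hε hεgen x hε1 hM Y hY

end

end Pool.Agent.Y223.INV
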