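import Pool.Agent.Y223.INV.Wild

/-!
# Blowing up the isolated wild fixed points
-/

set_option autoImplicit false
set_option linter.unusedVariables false
set_option linter.unusedSectionVars false

namespace Pool.Agent.Y223.INV

open IsLocalRing Pool.Agent.TH188.QS Pool.Agent.TH188.ARC Pool.Agent.W418.LU2
  Pool.Agent.H918R2.Quad Polynomial

section equiv

variable {K : Type} [Field K] (s : K ≃+* K)

lemma lo_comap (A S : Subring K) :
    lo (A.comap (s : K →+* K)) (S.comap (s : K →+* K)) = (lo A S).comap (s : K →+* K) := by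
  ext x
  rw [Subring.mem_comap]
  constructor
  · rintro ⟨a, ha, b, hb, hb0, hbA, rfl⟩
    refine ⟨s a, ha, s b, hb, fun h => hb0 ((map_eq_zero s).1 h), ?_, ?_⟩
    · rw [← map_inv₀]; exact hbA
    · change s (a * b⁻¹) = _
      rw [map_mul, map_inv₀]
  · rintro ⟨a, ha, b, hb, hb0, hbA, hx⟩
    refine ⟨s.symm a, ?_, s.symm b, ?_, fun h => hb0 ((map_eq_zero s.symm).1 h), ?_, ?_⟩
    · change s (s.symm a) ∈ S
      rwa [s.apply_symm_apply]
    · change s (s.symm b) ∈ S
      rwa [s.apply_symm_apply]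
    · change s ((s.symm b)⁻¹) ∈ A
      rw [map_inv₀, s.apply_symm_apply]
      exact hbA
    · apply s.injective
      have hx' : s x = a * b⁻¹ := hx
      rw [hx', map_mul, map_inv₀, s.apply_symm_apply, s.apply_symm_apply]

lemma closure_comap (T : Set K) : Subring.closure (s ⁻¹' T) =
    (Subring.closure T).comap (s : K →+* K) := by
  apply le_antisymm
  · rw [Subring.closure_le]
    intro x hx
    exact Subring.subset_closure (s := T) hx
  · intro x hx
    have key : ∀ y ∈ Subring.closure T, s.symm y ∈ Subring.closure (s ⁻¹' T) := by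
      intro y hy
      induction hy using Subring.closure_induction with
      | mem y hy =>
        refine Subring.subset_closure ?_
        change s (s.symm y) ∈ T
        rwa [s.apply_symm_apply]
      | zero => rw [map_zero]; exact Subring.zero_mem _
      | one => rw [map_one]; exact Subring.one_mem _
      | add a b _ _ ha hb => rw [map_add]; exact Subring.add_mem _ ha hb
      | neg a _ ha => rw [map_neg]; exact Subring.neg_mem _ ha
      | mul a b _ _ ha hb => rw [map_mul]; exact Subring.mul_mem _ ha hb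
    have := key (s x) hx
    rwa [s.symm_apply_apply] at this

lemma nu_comap (A : Subring K) (y : K) : NU (A.comap (s : K →+* K)) y ↔ NU A (s y) := by
  rw [NU, NU, not_iff_not]
  refine and_congr ?_ ?_
  · rw [Ne, Ne, map_eq_zero]
  · rw [Subring.mem_comap]
    change s (y⁻¹) ∈ A ↔ _
    rw [map_inv₀]

lemma mi_comap (A B : Subring K) (z : K) :
    Mi (A.comap (s : K →+* K)) (B.comap (s : K →+* K)) z ↔ Mi A B (s z) := by
  constructor
  · intro h
    refine ⟨h.mem, fun h0 => h.ne ((map_eq_zero s).1 h0), ?_, ?_⟩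
    · intro h1
      apply h.nu
      change s (z⁻¹) ∈ A
      rwa [map_inv₀]
    · intro y hy hyN
      have h1 := h.min (s.symm y) (by
        change s (s.symm y) ∈ B
        rwa [s.apply_symm_apply]) (by
        rw [nu_comap, s.apply_symm_apply]
        exact hyN)
      have h2 : s (s.symm y * z⁻¹) ∈ A := h1
      rwa [map_mul, map_inv₀, s.apply_symm_apply] at h2
  · intro h
    refine ⟨h.mem, fun h0 => h.ne (by rw [h0, map_zero]), ?_, ?_⟩
    · intro h1
      apply h.nu
      have h2 : s (z⁻¹) ∈ A := h1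
      rwa [map_inv₀] at h2
    · intro y hy hyN
      have h1 := h.min (s y) hy ((nu_comap s A y).1 hyN)
      change s (y * z⁻¹) ∈ A
      rwa [map_mul, map_inv₀]

lemma qt_comap (A B : Subring K) :
    qt (A.comap (s : K →+* K)) (B.comap (s : K →+* K)) = (qt A B).comap (s : K →+* K) := by
  rw [qt, qt, ← lo_comap, ← closure_comap]
  congr 2
  ext x
  constructor
  · rintro (hx | ⟨y, hy, z, hyN, hz, rfl⟩)
    · exact Or.inl hx
    · refine Or.inr ⟨s y, hy, s z, (nu_comap s A y).1 hyN, (mi_comap s A B z).1 hz, ?_⟩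
      rw [map_mul, map_inv₀]
  · rintro (hx | ⟨y, hy, z, hyN, hz, hx⟩)
    · exact Or.inl hx
    · refine Or.inr ⟨s.symm y, ?_, s.symm z, ?_, ?_, ?_⟩
      · change s (s.symm y) ∈ B
        rwa [s.apply_symm_apply]
      · rw [nu_comap, s.apply_symm_apply]
        exact hyN
      · rw [mi_comap, s.apply_symm_apply]
        exact hz
      · apply s.injective
        have hx' : s x = y * z⁻¹ := hx
        rw [hx', map_mul, map_inv₀, s.apply_symm_apply, s.apply_symm_apply]

end equiv

section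

variable {O K : Type} [CommRing O] [Field K] [Algebra O K]

/-- Transport of the local rings. -/
theorem LR_SM (σ : K ≃ₐ[O] K) {M : Submodule O K} {W : ValuationSubring K} {Q : Subring K}
    (h : LR (W.comap (σ : K →+* K)) M (Q.comap (σ : K →+* K))) : LR W (SM σ M) Q := by
  obtain ⟨g, hg, hg0, hgW, hQ⟩ := h
  refine ⟨σ g, s_mem_SM hg, fun h => hg0 ((map_eq_zero σ).1 h), ?_, ?_⟩
  · rintro _ ⟨x, hx, rfl⟩
    have h1 := hgW x hx
    rw [ValuationSubring.mem_comap] at h1
    change σ (x / g) ∈ W at h1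
    rwa [map_div₀] at h1
  · have h1 : ((chart O (SM σ M) (σ g)).toSubring).comap (σ : K →+* K) =
        (chart O M g).toSubring := by
      ext x
      rw [Subring.mem_comap]
      change σ x ∈ chart O (SM σ M) (σ g) ↔ x ∈ chart O M g
      constructor
      · intro hx
        have key : ∀ y ∈ chart O (SM σ M) (σ g), σ.symm y ∈ chart O M g := by
          intro y hy
          induction hy using Algebra.adjoin_induction with
          | mem y hy =>
            obtain ⟨_, ⟨a, ha, rfl⟩, rfl⟩ := hy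
            refine Algebra.subset_adjoin ⟨a, ha, ?_⟩
            change σ.symm (σ a / σ g) = a / g
            rw [map_div₀, σ.symm_apply_apply, σ.symm_apply_apply]
          | algebraMap r => rw [σ.symm.commutes]; exact Subalgebra.algebraMap_mem _ r
          | add a b _ _ ha hb => rw [map_add]; exact Subalgebra.add_mem _ ha hb
          | mul a b _ _ ha hb => rw [map_mul]; exact Subalgebra.mul_mem _ ha hb
        have := key _ hx
        rwa [σ.symm_apply_apply] at this
      · intro hx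
        induction hx using Algebra.adjoin_induction with
        | mem y hy =>
          obtain ⟨a, ha, rfl⟩ := hy
          rw [map_div₀]
          exact Algebra.subset_adjoin ⟨σ a, s_mem_SM ha, rfl⟩
        | algebraMap r => rw [σ.commutes]; exact Subalgebra.algebraMap_mem _ r
        | add a b _ _ ha hb => rw [map_add]; exact Subalgebra.add_mem _ ha hb
        | mul a b _ _ ha hb => rw [map_mul]; exact Subalgebra.mul_mem _ ha hb
    have h2 := lo_comap σ.toRingEquiv W.toSubring (chart O (SM σ M) (σ g)).toSubring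
    have h3 : ((chart O (SM σ M) (σ g)).toSubring).comap (σ.toRingEquiv : K →+* K) =
        (chart O M g).toSubring := h1
    rw [h3] at h2
    have h4 : (lo W.toSubring (chart O (SM σ M) (σ g)).toSubring).comap
        (σ.toRingEquiv : K →+* K) = Q.comap (σ.toRingEquiv : K →+* K) := by
      rw [← h2]
      exact hQ
    ext x
    have h5 := SetLike.ext_iff.1 h4 (σ.symm x)
    rw [Subring.mem_comap, Subring.mem_comap] at h5
    change σ (σ.symm x) ∈ _ ↔ σ (σ.symm x) ∈ _ at h5
    rwa [σ.apply_symm_apply] at h5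

theorem LR_of_SM (σ : K ≃ₐ[O] K) (hσ : ∀ x, σ (σ x) = x) {M : Submodule O K}
    {W : ValuationSubring K} {Q : Subring K} (h : LR W (SM σ M) Q) :
    LR (W.comap (σ : K →+* K)) M (Q.comap (σ : K →+* K)) := by
  have h1 : SM σ (SM σ M) = M := by
    apply le_antisymm
    · rintro _ ⟨_, ⟨x, hx, rfl⟩, rfl⟩
      change σ (σ x) ∈ M
      rw [hσ]
      exact hx
    · intro x hx
      exact ⟨σ x, ⟨x, hx, rfl⟩, hσ x⟩
  have h2 : ∀ (A : Subring K), (A.comap (σ : K →+* K)).comap (σ : K →+* K) = A := by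
    intro A
    ext x
    rw [Subring.mem_comap, Subring.mem_comap]
    change σ (σ x) ∈ A ↔ x ∈ A
    rw [hσ]
  have h3 : (W.comap (σ : K →+* K)).comap (σ : K →+* K) = W := by
    ext x
    rw [ValuationSubring.mem_comap, ValuationSubring.mem_comap]
    change σ (σ x) ∈ W ↔ x ∈ W
    rw [hσ]
  have h4 := LR_SM σ (M := SM σ M) (W := W.comap (σ : K →+* K)) (Q := Q.comap (σ : K →+* K))
    (by rw [h2, h3]; exact h)
  rwa [h1] at h4

/-- Local rings of a model dominated by the same ring. -/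
lemma LR_eq {M : Submodule O K} {W V : ValuationSubring K} (hOW : ∀ o, algebraMap O K o ∈ W)
    (hOV : ∀ o, algebraMap O K o ∈ V) {Q Q₁ : Subring K} (h : LR W M Q) (h₁ : LR V M Q₁)
    (hQW : Q₁ ≤ W.toSubring) (hIC : IC W.toSubring Q₁) : Q = Q₁ := by
  obtain ⟨g, hg, hg0, hgV, rfl⟩ := h₁
  have hcV := chart_le_V hOV hgV
  have hcW : (chart O M g).toSubring ≤ W.toSubring := (le_lo V.toSubring _).trans hQW
  have hgW : ∀ m ∈ M, m / g ∈ W := fun m hm => hcW (Algebra.subset_adjoin ⟨m, hm, rfl⟩)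
  rw [h.unique hOW ⟨g, hg, hg0, hgW, rfl⟩]
  apply le_antisymm
  · rintro _ ⟨a, ha, b, hb, hb0, hbW, rfl⟩
    have h1 := hIC b (le_lo _ _ hb) hb0 hbW
    exact ⟨a, ha, b, hb, hb0, lo_le hcV h1, rfl⟩
  · rintro _ ⟨a, ha, b, hb, hb0, hbV, rfl⟩
    have h1 := inv_mem_lo hcV (le_lo _ _ hb) hb0 hbV
    exact ⟨a, ha, b, hb, hb0, hQW h1, rfl⟩

/-- Blowing up finitely many points. -/
theorem blow_pts [IsNoetherianRing O] [IsDomain O] {M : Submodule O K} (hM : M.FG)
    (hne : ∃ g ∈ M, g ≠ 0) (B : Finset (Subring K))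
    (hB : ∀ Q ∈ B, ∀ W : ValuationSubring K, (∀ o, algebraMap O K o ∈ W) → LR W M Q →
      (∃ ϖ : O, algebraMap O K ϖ ≠ 0 ∧ W.valuation (algebraMap O K ϖ) < 1) ∧
      ∀ b ∈ Q, ¬ W.valuation b < 1 → ∃ k : ℕ, W.valuation (b ^ (k + 1) - 1) < 1) :
    ∃ (D : ℕ) (M' : Submodule O K), 1 ≤ D ∧ M'.FG ∧
      (∀ y ∈ M ^ D, ∃ s : O, s ≠ 0 ∧ s • y ∈ M') ∧ (∃ g ∈ M', g ≠ 0) ∧
      ∀ W : ValuationSubring K, (∀ o, algebraMap O K o ∈ W) → ∀ Q, LR W M Q →
        (Q ∈ B → (∃ e, Mi W.toSubring Q e) ∧ LR W M' (qt W.toSubring Q)) ∧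
        (Q ∉ B → LR W M' Q) := by
  classical
  induction B using Finset.induction_on with
  | empty =>
    refine ⟨1, M, le_rfl, hM, fun y hy => ⟨1, one_ne_zero, by
      rw [one_smul]; rwa [pow_one] at hy⟩, hne, fun W hOW Q hQ => ⟨fun h => ?_, fun _ => hQ⟩⟩
    exact absurd h (Finset.notMem_empty _)
  | insert Q₁ B hQB ih =>
    obtain ⟨D, M₁, hD, hM₁, hsm, hne₁, h₁⟩ := ih fun Q hQ => hB Q (Finset.mem_insert_of_mem hQ)
    by_cases hV : ∃ V : ValuationSubring K, (∀ o, algebraMap O K o ∈ V) ∧ LR V M Q₁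
    swap
    · refine ⟨D, M₁, hD, hM₁, hsm, hne₁, fun W hOW Q hQ => ⟨fun h => ?_, fun h => ?_⟩⟩
      · rcases Finset.mem_insert.1 h with rfl | h
        · exact absurd ⟨W, hOW, hQ⟩ hV
        · exact (h₁ W hOW Q hQ).1 h
      · exact (h₁ W hOW Q hQ).2 fun h' => h (Finset.mem_insert_of_mem h')
    obtain ⟨V, hOV, hVQ⟩ := hV
    obtain ⟨⟨ϖ, hϖ0, hϖ⟩, htor⟩ := hB Q₁ (Finset.mem_insert_self _ _) V hOV hVQ
    have hV₁ : LR V M₁ Q₁ := (h₁ V hOV Q₁ hVQ).2 hQB
    obtain ⟨D', M', hD', hM', hle', hsm', hne', hstep⟩ := step_all_LR hOV hϖ0 hϖ hM₁ hV₁ (by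
      intro j hj hj0 hMj b hbj hbV
      have hQ : LR V M₁ (lo V.toSubring (chart O M₁ j).toSubring) := ⟨j, hj, hj0, hMj, rfl⟩
      have hQ1 := hQ.unique hOV hV₁
      have hbQ : b ∈ Q₁ := by
        rw [← hQ1]
        exact le_lo _ _ hbj
      obtain ⟨k, hk⟩ := htor b hbQ hbV
      refine ⟨b ^ k, Subalgebra.pow_mem _ hbj _, ?_⟩
      rw [← pow_succ']
      exact hk)
    have hϖO : ϖ ≠ 0 := fun h => hϖ0 (by rw [h, map_zero])
    refine ⟨D * D', M', Nat.mul_pos hD hD', hM', ?_, hne', ?_⟩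
    · intro y hy
      rw [pow_mul] at hy
      obtain ⟨s, hs, hsy⟩ := exists_smul_mem_pow' hsm D' y hy
      refine ⟨ϖ * s, mul_ne_zero hϖO hs, ?_⟩
      rw [mul_smul]
      exact hsm' _ hsy
    · intro W hOW Q hQ
      constructor
      · intro h
        rcases Finset.mem_insert.1 h with rfl | h
        · obtain ⟨h2, h3, h4, h5⟩ := (hstep W hOW _ ((h₁ W hOW _ hQ).2 hQB)).1 rfl
          exact ⟨h2, h5⟩
        · obtain ⟨he, h2⟩ := (h₁ W hOW Q hQ).1 h
          refine ⟨he, (hstep W hOW _ h2).2 ?_⟩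
          intro h3
          have hQW : Q ≤ W.toSubring := by
            obtain ⟨g, hg, hg0, hgW, rfl⟩ := hQ
            exact lo_le (chart_le_V hOW hgW)
          have h4 := LR_eq hOW hOV hQ hVQ (by rw [← h3]; exact qt_le hQW)
            (by rw [← h3]; exact ic_qt hQW)
          exact hQB (h4 ▸ h)
      · intro h
        rw [Finset.mem_insert, not_or] at h
        exact (hstep W hOW Q ((h₁ W hOW Q hQ).2 h.2)).2 h.1

end

end Pool.Agent.Y223.INV
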