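import Pool.Agent.Y223.INV.Cent

/-!
# The blowing up of the centre, globally
-/

set_option autoImplicit false
set_option linter.unusedVariables false
set_option linter.unusedSectionVars false

namespace Pool.Agent.Y223.INV

open IsLocalRing Pool.Agent.TH188.QS Pool.Agent.TH188.ARC Pool.Agent.W418.LU2
  Pool.Agent.H918R2.Quad Polynomial

section

variable {O K : Type} [CommRing O] [Field K] [Algebra O K] {σ : K ≃ₐ[O] K}
  {M I : Submodule O K} {W : ValuationSubring K} {Q : Subring K} {m : K}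

/-- The conditions at a point of the model. -/
structure Cond (σ : K ≃ₐ[O] K) (I : Submodule O K) (W : ValuationSubring K) (Q : Subring K)
    (m : K) : Prop where
  reg : IsRegularLocalRing Q
  off : (∃ n ∈ I, ¬ NU W.toSubring (n / m)) → NU W.toSubring (2 : K) → Fx σ W Q →
    ∃ (t : K) (c : ℕ) (z : Fin c → K), Gd σ W Q t z
  on : (∀ n ∈ I, NU W.toSubring (n / m)) → ∃ (c : ℕ) (z : Fin c → K) (𝔞 : Ideal Q)
    (hr : RegP W.toSubring Q z), (∀ i, NU W.toSubring (z i)) ∧
    𝔞 = Ideal.span (Set.range fun i => (⟨z i, hr.mem i⟩ : Q)) ∧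
    𝔞 = Ideal.span {y : Q | ∃ n ∈ I, (y : K) = n / m} ∧
    (NU W.toSubring (2 : K) → Fx σ W Q → ∃ t, Ce σ W Q t 𝔞 z)

/-- The fixed points of the blowing up are over fixed points. -/
theorem fx_of_le (hσ : ∀ x, σ (σ x) = x) (hOW : ∀ o, algebraMap O K o ∈ W)
    (hsM : ∀ x ∈ M, σ x ∈ M) (hm : m ∈ M)
    (hm0 : m ≠ 0) (hMW : ∀ x ∈ M, x / m ∈ W)
    (hQ : Q = lo W.toSubring (chart O M m).toSubring) {Q' : Subring K} (hQQ' : Q ≤ Q')
    (hQ'W : Q' ≤ W.toSubring) (h : Fx σ W Q') : Fx σ W Q := by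
  have hsm0 : σ m ≠ 0 := fun h => hm0 ((map_eq_zero σ).1 h)
  have hcQ : ∀ x ∈ chart O M m, x ∈ Q := fun x hx => by
    rw [hQ]
    exact le_lo _ _ hx
  have hMQ : ∀ x ∈ M, x / m ∈ Q := fun x hx => hcQ _ (Algebra.subset_adjoin ⟨x, hx, rfl⟩)
  have hQW : Q ≤ W.toSubring := hQQ'.trans hQ'W
  have hQIC : IC W.toSubring Q := by
    rw [hQ]
    exact ic_lo (chart_le_V hOW hMW)
  -- `σ m / m` is a unit
  have h1 : σ m / m ∈ Q := hMQ _ (hsM m hm)
  have h2 : (σ m / m)⁻¹ ∈ W := by
    have h3 := (h _ (hQQ' h1)).1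
    rw [map_div₀, hσ] at h3
    rw [inv_div]
    exact hQ'W h3
  have h3 : (σ m / m)⁻¹ ∈ Q := hQIC _ h1 (div_ne_zero hsm0 hm0) h2
  have h4 : ∀ x ∈ chart O M m, σ x ∈ Q := by
    intro x hx
    induction hx using Algebra.adjoin_induction with
    | mem x hx =>
      obtain ⟨a, ha, rfl⟩ := hx
      have h5 : σ (a / m) = (σ a / m) * (σ m / m)⁻¹ := by
        rw [map_div₀]
        field_simp
      rw [h5]
      exact Q.mul_mem (hMQ _ (hsM a ha)) h3
    | algebraMap r =>
      rw [σ.commutes]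
      exact hcQ _ (Subalgebra.algebraMap_mem _ r)
    | add x y _ _ hx hy => rw [map_add]; exact Q.add_mem hx hy
    | mul x y _ _ hx hy => rw [map_mul]; exact Q.mul_mem hx hy
  intro x hx
  refine ⟨?_, (h x (hQQ' hx)).2⟩
  rw [hQ] at hx
  obtain ⟨c, hc, d, hd, hd0, hdW, rfl⟩ := hx
  have h5 := (h d (hQQ' (hcQ d hd))).2
  obtain ⟨hsd0, hsdW⟩ := unit_of_sub (hQW (hcQ d hd)) hd0 hdW (hQW (h4 d hd)) h5
  rw [map_mul, map_inv₀]
  exact Q.mul_mem (h4 c hc) (hQIC _ (h4 d hd) hsd0 hsdW)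

/-- The local rings of the blowing up. -/
theorem lo_mul (hOW : ∀ o, algebraMap O K o ∈ W) (hm : m ∈ M)
    (hm0 : m ≠ 0) (hMW : ∀ x ∈ M, x / m ∈ W)
    (hQ : Q = lo W.toSubring (chart O M m).toSubring) {a : K} (ha : a ∈ I) (ha0 : a ≠ 0)
    (hIW : ∀ x ∈ I, x / a ∈ W) :
    lo W.toSubring (chart O (M * I) (m * a)).toSubring =
      lo W.toSubring (Subring.closure ((Q : Set K) ∪ {y | ∃ x ∈ I, y = x / a})) := by
  have hMI : ∀ x ∈ M * I, x / (m * a) ∈ W := by
    intro x hx
    refine Submodule.mul_induction_on hx ?_ ?_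
    · intro x hx y hy
      rw [mul_div_mul_comm]
      exact W.mul_mem _ _ (hMW x hx) (hIW y hy)
    · intro x y hx hy
      rw [add_div]
      exact W.add_mem _ _ hx hy
  have hc1 := chart_le_V hOW hMI
  have hQW : Q ≤ W.toSubring := by
    rw [hQ]
    exact lo_le (chart_le_V hOW hMW)
  have hc2 : Subring.closure ((Q : Set K) ∪ {y | ∃ x ∈ I, y = x / a}) ≤ W.toSubring := by
    rw [Subring.closure_le]
    rintro y (hy | ⟨x, hx, rfl⟩)
    · exact hQW hy
    · exact hIW x hx
  apply le_antisymm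
  · refine lo_le_lo hc2 ?_
    have h1 : ∀ x ∈ chart O (M * I) (m * a), x ∈ lo W.toSubring
        (Subring.closure ((Q : Set K) ∪ {y | ∃ x ∈ I, y = x / a})) := by
      intro x hx
      refine le_lo _ _ ?_
      induction hx using Algebra.adjoin_induction with
      | mem y hy =>
        obtain ⟨x, hx, rfl⟩ := hy
        refine Submodule.mul_induction_on hx ?_ ?_
        · intro x hx y hy
          rw [mul_div_mul_comm]
          refine Subring.mul_mem _ (Subring.subset_closure (Or.inl ?_))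
            (Subring.subset_closure (Or.inr ⟨y, hy, rfl⟩))
          rw [hQ]
          exact le_lo _ _ (Algebra.subset_adjoin ⟨x, hx, rfl⟩)
        · intro x y hx hy
          rw [add_div]
          exact Subring.add_mem _ hx hy
      | algebraMap r =>
        refine Subring.subset_closure (Or.inl ?_)
        rw [hQ]
        exact le_lo _ _ (Subalgebra.algebraMap_mem (chart O M m) r)
      | add x y _ _ hx hy => exact Subring.add_mem _ hx hy
      | mul x y _ _ hx hy => exact Subring.mul_mem _ hx hy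
    exact h1
  · refine lo_le_lo hc1 ?_
    rw [Subring.closure_le]
    rintro y (hy | ⟨x, hx, rfl⟩)
    · rw [hQ] at hy
      refine lo_le_lo hc1 ?_ hy
      have h1 : chart O M m ≤ chart O (M * I) (m * a) := by
        refine Algebra.adjoin_le ?_
        rintro _ ⟨x, hx, rfl⟩
        have h2 : x / m = (x * a) / (m * a) := by field_simp
        rw [h2]
        exact Algebra.subset_adjoin ⟨_, Submodule.mul_mem_mul hx ha, rfl⟩
      exact fun x hx => le_lo _ _ (h1 hx)
    · refine le_lo _ _ ?_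
      have h2 : x / a = (m * x) / (m * a) := by field_simp
      rw [h2]
      exact Algebra.subset_adjoin ⟨_, Submodule.mul_mem_mul hm hx, rfl⟩

/-- The local rings of the blowing up are good. -/
theorem blow_good (hσ : ∀ x, σ (σ x) = x) (hOW : ∀ o, algebraMap O K o ∈ W)
    (hsM : ∀ x ∈ M, σ x ∈ M) (hIM : I ≤ M) (hm : m ∈ M)
    (hm0 : m ≠ 0) (hMW : ∀ x ∈ M, x / m ∈ W)
    (hQ : Q = lo W.toSubring (chart O M m).toSubring) {a : K} (ha : a ∈ I) (ha0 : a ≠ 0)
    (hIW : ∀ x ∈ I, x / a ∈ W)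
    (hC : Cond σ I W Q m) {Q' : Subring K}
    (hQ' : Q' = lo W.toSubring (Subring.closure ((Q : Set K) ∪ {y | ∃ x ∈ I, y = x / a}))) :
    IsRegularLocalRing Q' ∧
      (Fx σ W Q' → ∃ (t : K) (c : ℕ) (z : Fin c → K), Gd σ W Q' t z) := by
  classical
  have hMQ : ∀ x ∈ M, x / m ∈ Q := fun x hx => by
    rw [hQ]
    exact le_lo _ _ (Algebra.subset_adjoin ⟨x, hx, rfl⟩)
  have hQW : Q ≤ W.toSubring := by
    rw [hQ]
    exact lo_le (chart_le_V hOW hMW)
  have hQIC : IC W.toSubring Q := by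
    rw [hQ]
    exact ic_lo (chart_le_V hOW hMW)
  have hcl : Subring.closure ((Q : Set K) ∪ {y | ∃ x ∈ I, y = x / a}) ≤ W.toSubring := by
    rw [Subring.closure_le]
    rintro y (hy | ⟨x, hx, rfl⟩)
    · exact hQW hy
    · exact hIW x hx
  have hQ'W : Q' ≤ W.toSubring := by
    rw [hQ']
    exact lo_le hcl
  have hQ'IC : IC W.toSubring Q' := by
    rw [hQ']
    exact ic_lo hcl
  have hclQ' : Subring.closure ((Q : Set K) ∪ {y | ∃ x ∈ I, y = x / a}) ≤ Q' := by
    rw [hQ']
    exact le_lo _ _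
  have hQQ' : Q ≤ Q' := fun y hy => hclQ' (Subring.subset_closure (Or.inl hy))
  have hIQ' : ∀ x ∈ I, x / a ∈ Q' := fun x hx =>
    hclQ' (Subring.subset_closure (Or.inr ⟨x, hx, rfl⟩))
  have ham0 : a / m ≠ 0 := div_ne_zero ha0 hm0
  have two : ¬ NU W.toSubring (2 : K) → (2 : K) ≠ 0 ∧ (2 : K)⁻¹ ∈ W := fun h => not_not.1 h
  by_cases hon : ∀ n ∈ I, NU W.toSubring (n / m)
  swap
  · push Not at hon
    obtain ⟨n, hn, hnu⟩ := hon
    have hnu' := not_not.1 hnu
    have h1 : (a / m)⁻¹ ∈ W := by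
      have hn0 : n ≠ 0 := by
        rintro rfl
        exact hnu'.1 (zero_div _)
      have h2 : (a / m)⁻¹ = (n / a) * (n / m)⁻¹ := by field_simp
      rw [h2]
      exact W.mul_mem _ _ (hIW n hn) hnu'.2
    have h2 : (a / m)⁻¹ ∈ Q := hQIC _ (hMQ a (hIM ha)) ham0 h1
    have h3 : Q' = Q := by
      rw [hQ']
      have h4 : Subring.closure ((Q : Set K) ∪ {y | ∃ x ∈ I, y = x / a}) = Q := by
        apply le_antisymm
        · rw [Subring.closure_le]
          rintro y (hy | ⟨x, hx, rfl⟩)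
          · exact hy
          · have h5 : x / a = (x / m) * (a / m)⁻¹ := by field_simp
            rw [h5]
            exact Q.mul_mem (hMQ x (hIM hx)) h2
        · exact fun y hy => Subring.subset_closure (Or.inl hy)
      rw [h4, hQIC.lo_eq]
    rw [h3]
    refine ⟨hC.reg, fun hFx => ?_⟩
    by_cases h2N : NU W.toSubring (2 : K)
    · exact hC.off ⟨n, hn, hnu⟩ h2N hFx
    · exact gd_of_two hσ hQW hQIC hC.reg hFx (two h2N).1 (two h2N).2
  · obtain ⟨c, z, 𝔞, hr, hzN, hgz, hgI, hCe⟩ := hC.on hon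
    have haA : (⟨a / m, hMQ a (hIM ha)⟩ : Q) ∈ 𝔞 := hgI.ge (Ideal.subset_span ⟨a, ha, rfl⟩)
    have hne : Nonempty (Fin c) := by
      by_contra hcon
      rw [not_nonempty_iff] at hcon
      rw [hgz, Set.range_eq_empty, Ideal.span_empty, Ideal.mem_bot] at haA
      exact ham0 (congrArg Subtype.val haA)
    obtain ⟨j, hj⟩ := Finite.exists_max (fun i => W.valuation (z i))
    have hzj0 : z j ≠ 0 := hr.ne j
    have hzW : ∀ i, z i * (z j)⁻¹ ∈ W := by
      intro i
      rw [← W.valuation_le_one_iff, map_mul, map_inv₀, ← div_eq_mul_inv]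
      exact div_le_one_of_le₀ (hj i) zero_le
    set E := lo W.toSubring (Subring.closure ((Q : Set K) ∪
      {s | ∃ i ∈ Finset.univ.erase j, s = z i * (z j)⁻¹})) with hE
    have hEcl : Subring.closure ((Q : Set K) ∪
        {t | ∃ i ∈ Finset.univ.erase j, t = z i * (z j)⁻¹}) ≤ W.toSubring := by
      rw [Subring.closure_le]
      rintro t (ht | ⟨i, hi, rfl⟩)
      · exact hQW ht
      · exact hzW i
    have hEW : E ≤ W.toSubring := lo_le hEcl
    have hEIC : IC W.toSubring E := ic_lo hEcl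
    have hQE : Q ≤ E := fun x hx => le_lo _ _ (Subring.subset_closure (Or.inl hx))
    have hzE : ∀ i, z i * (z j)⁻¹ ∈ E := by
      intro i
      by_cases hij : i = j
      · rw [hij, mul_inv_cancel₀ hzj0]
        exact E.one_mem
      · exact le_lo _ _ (Subring.subset_closure (Or.inr ⟨i, Finset.mem_erase.2
          ⟨hij, Finset.mem_univ _⟩, rfl⟩))
    have hAE : ∀ y ∈ 𝔞, (y : K) / z j ∈ E := by
      intro y hy
      rw [hgz] at hy
      induction hy using Submodule.span_induction with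
      | mem y hy =>
        obtain ⟨i, rfl⟩ := hy
        rw [div_eq_mul_inv]
        exact hzE i
      | zero =>
        rw [ZeroMemClass.coe_zero, zero_div]
        exact E.zero_mem
      | add a b _ _ ha hb =>
        rw [Subring.coe_add, add_div]
        exact E.add_mem ha hb
      | smul r a _ ha =>
        rw [smul_eq_mul, Subring.coe_mul, mul_div_assoc]
        exact E.mul_mem (hQE r.2) ha
    have hAQ' : ∀ y ∈ 𝔞, (y : K) / (a / m) ∈ Q' := by
      intro y hy
      rw [hgI] at hy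
      induction hy using Submodule.span_induction with
      | mem y hy =>
        obtain ⟨n, hn, hyn⟩ := hy
        have h1 : (y : K) / (a / m) = n / a := by rw [hyn]; field_simp
        rw [h1]
        exact hIQ' n hn
      | zero =>
        rw [ZeroMemClass.coe_zero, zero_div]
        exact Q'.zero_mem
      | add a b _ _ ha hb =>
        rw [Subring.coe_add, add_div]
        exact Q'.add_mem ha hb
      | smul r a _ ha =>
        rw [smul_eq_mul, Subring.coe_mul, mul_div_assoc]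
        exact Q'.mul_mem (hQQ' r.2) ha
    have hzA : ∀ i, (⟨z i, hr.mem i⟩ : Q) ∈ 𝔞 := fun i => hgz.ge (Ideal.subset_span ⟨i, rfl⟩)
    have h1 : (a / m) / z j ∈ E := hAE _ haA
    have h2 : z j / (a / m) ∈ Q' := hAQ' _ (hzA j)
    have h3 : z j / (a / m) ∈ E := by
      have h4 := hEIC _ h1 (div_ne_zero ham0 hzj0) (by rw [inv_div]; exact hQ'W h2)
      rwa [inv_div] at h4
    have h4 : (a / m) / z j ∈ Q' := by
      have h5 := hQ'IC _ h2 (div_ne_zero hzj0 ham0) (by rw [inv_div]; exact hEW h1)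
      rwa [inv_div] at h5
    have hEQ' : Q' = E := by
      apply le_antisymm
      · rw [hQ']
        refine lo_le_lo hEcl ?_
        rw [Subring.closure_le]
        rintro y (hy | ⟨x, hx, rfl⟩)
        · exact hQE hy
        · have h5 : x / a = ((x / m) / z j) * (z j / (a / m)) := by field_simp
          change x / a ∈ E
          rw [h5]
          exact E.mul_mem (hAE ⟨x / m, hMQ x (hIM hx)⟩
            (hgI.ge (Ideal.subset_span ⟨x, hx, rfl⟩))) h3
      · have h6 : E ≤ lo W.toSubring (Subring.closure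
            ((Q : Set K) ∪ {y | ∃ x ∈ I, y = x / a})) := by
          refine lo_le_lo hcl ?_
          rw [← hQ', Subring.closure_le]
          rintro y (hy | ⟨i, hi, rfl⟩)
          · exact hQQ' hy
          · have h5 : z i * (z j)⁻¹ = (z i / (a / m)) * ((a / m) / z j) := by field_simp
            change z i * (z j)⁻¹ ∈ Q'
            rw [h5]
            exact Q'.mul_mem (hAQ' _ (hzA i)) h4
        rw [hQ']
        exact h6
    have hzu : ∀ i, (z i)⁻¹ ∉ W.toSubring := fun i h => hzN i ⟨hr.ne i, h⟩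
    have hreg' : IsRegularLocalRing Q' := by
      have h1 := (regP_qt (loc_V W) hr j (hzu j) (Finset.univ.erase j) (fun i hi =>
        ⟨(Finset.mem_erase.1 hi).1, hzu i, hzW i⟩)).reg
      rw [hEQ']
      exact h1
    refine ⟨hreg', fun hFx => ?_⟩
    by_cases h2N : NU W.toSubring (2 : K)
    swap
    · exact gd_of_two hσ hQ'W hQ'IC hreg' hFx (two h2N).1 (two h2N).2
    have hFQ : Fx σ W Q := fx_of_le hσ hOW hsM hm hm0 hMW hQ hQQ' hQ'W hFx
    obtain ⟨t, hCe⟩ := hCe h2N hFQ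
    obtain ⟨c', z', hG⟩ := hCe.good hσ j hzW (Q' := Q') (by rw [hEQ'])
    exact ⟨_, c', z', hG⟩

end

/-- The quotient of a regular model by an involution. -/
theorem inv_hasModule {O F K : Type} [CommRing O] [IsDomain O] [IsNoetherianRing O] [Field F]
    [Field K] [Algebra O F] [Algebra O K] [Algebra F K] [IsScalarTower O F K] (σ : K ≃ₐ[O] K)
    (hσ : ∀ x, σ (σ x) = x) (hF : ∀ x, σ x = x ↔ ∃ f : F, algebraMap F K f = x)
    {M I : Submodule O K} (hM : M.FG) (hI : I.FG) (hsM : ∀ x ∈ M, σ x ∈ M)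
    (hsI : ∀ x ∈ I, σ x ∈ I) (hIM : I ≤ M) (hI0 : ∃ a ∈ I, a ≠ 0)
    (hne : ∃ a ∈ M, ∃ b ∈ M, wd σ a b ≠ 0)
    (hcl : ∀ m ∈ M, m ≠ 0 → Subfield.closure (chart O M m : Set K) = ⊤)
    (h : ∀ W : ValuationSubring K, (∀ o, algebraMap O K o ∈ W) → ∃ m ∈ M, m ≠ 0 ∧
      (∀ x ∈ M, x / m ∈ W) ∧ Cond σ I W (lo W.toSubring (chart O M m).toSubring) m) :
    HasModule O F := by
  classical
  obtain ⟨a₁, ha₁, ha₁0⟩ := hI0
  have hMne : ∃ g ∈ M, g ≠ 0 := ⟨a₁, hIM ha₁, ha₁0⟩
  have hSM : SM σ (M * I) = M * I := by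
    have h1 : ∀ x ∈ M * I, σ x ∈ M * I := by
      intro x hx
      refine Submodule.mul_induction_on hx ?_ ?_
      · intro x hx y hy
        rw [map_mul]
        exact Submodule.mul_mem_mul (hsM x hx) (hsI y hy)
      · intro x y hx hy
        rw [map_add]
        exact Submodule.add_mem _ hx hy
    apply le_antisymm
    · rintro _ ⟨x, hx, rfl⟩
      exact h1 x hx
    · intro x hx
      exact ⟨σ x, h1 x hx, hσ x⟩
  refine quot_hasModule σ hσ hF (M := M * I) (hM.mul hI) ?_ ?_ ?_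
  · obtain ⟨a, ha, b, hb, hab⟩ := hne
    refine ⟨a * a₁, Submodule.mul_mem_mul ha ha₁, b * a₁, Submodule.mul_mem_mul hb ha₁, ?_⟩
    have h1 : wd σ (a * a₁) (b * a₁) = wd σ a b * (a₁ * σ a₁) := by
      rw [wd, wd, map_mul, map_mul]
      ring
    rw [h1]
    exact mul_ne_zero hab (mul_ne_zero ha₁0 fun h => ha₁0 ((map_eq_zero σ).1 h))
  · intro m hm hm0
    set L := Subfield.closure (chart O (M * I) m : Set K) with hL
    have hRL : ∀ x ∈ chart O (M * I) m, x ∈ L := fun x hx => Subfield.subset_closure hx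
    have hOL : ∀ o, algebraMap O K o ∈ L := fun o => hRL _ (Subalgebra.algebraMap_mem _ o)
    have h1 : chart O M a₁ ≤ { L with algebraMap_mem' := hOL } := by
      refine Algebra.adjoin_le ?_
      rintro _ ⟨x, hx, rfl⟩
      have h2 : x / a₁ = (x * a₁ / m) / (a₁ * a₁ / m) := by field_simp
      rw [h2]
      exact L.div_mem (hRL _ (Algebra.subset_adjoin ⟨_, Submodule.mul_mem_mul hx ha₁, rfl⟩))
        (hRL _ (Algebra.subset_adjoin ⟨_, Submodule.mul_mem_mul (hIM ha₁) ha₁, rfl⟩))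
    rw [← top_le_iff, ← hcl a₁ (hIM ha₁) ha₁0, Subfield.closure_le]
    exact fun x hx => h1 hx
  · intro W hOW Q' hQ'
    obtain ⟨m, hm, hm0, hMW, hC⟩ := h W hOW
    obtain ⟨a, ha, ha0, hIW⟩ := exists_gen_max hOW hI ha₁ ha₁0
    have hMI : ∀ x ∈ M * I, x / (m * a) ∈ W := by
      intro x hx
      refine Submodule.mul_induction_on hx ?_ ?_
      · intro x hx y hy
        rw [mul_div_mul_comm]
        exact W.mul_mem _ _ (hMW x hx) (hIW y hy)
      · intro x y hx hy
        rw [add_div]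
        exact W.add_mem _ _ hx hy
    have h1 := hQ'.unique hOW ⟨m * a, Submodule.mul_mem_mul hm ha, mul_ne_zero hm0 ha0, hMI, rfl⟩
    rw [lo_mul hOW hm hm0 hMW rfl ha ha0 hIW] at h1
    obtain ⟨hreg, hG⟩ := blow_good hσ hOW hsM hIM hm hm0 hMW rfl ha ha0 hIW hC h1
    refine ⟨by rw [hSM]; exact hQ', fun m' hm' hm'0 hM'W hsM'W a₀ ha₀ hw0 hwW => ?_⟩
    have hQ1 : Q' = lo W.toSubring (chart O (M * I) m').toSubring :=
      hQ'.unique hOW ⟨m', hm', hm'0, hM'W, rfl⟩
    have hQ2 : LR W (M * I) (lo W.toSubring (chart O (M * I) (σ m')).toSubring) := by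
      refine ⟨σ m', ?_, fun h => hm'0 ((map_eq_zero σ).1 h), ?_, rfl⟩
      · rw [← hSM]
        exact s_mem_SM hm'
      · intro x hx
        rw [← hSM] at hx
        obtain ⟨y, hy, rfl⟩ := hx
        exact hsM'W y hy
    have hQ3 := hQ'.unique hOW hQ2
    refine DD_regular hσ hOW hm' hm'0 hM'W ?_ hQ1 ha₀ hw0 hwW hreg hG
    intro x hx
    rw [hQ3]
    refine le_lo _ _ (Algebra.subset_adjoin ⟨σ x, ?_, rfl⟩)
    rw [← hSM]
    exact s_mem_SM hx

end Pool.Agent.Y223.INV
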