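import Pool.Agent.Y223.INV.Glob2

/-!
# The module of the quotient by an involution, with centre
-/

set_option autoImplicit false
set_option linter.unusedVariables false
set_option linter.unusedSectionVars false

namespace Pool.Agent.Y223.INV

open IsLocalRing Pool.Agent.TH188.QS Pool.Agent.TH188.ARC Pool.Agent.W418.LU2
  Pool.Agent.H918R2.Quad Polynomial

/-- The quotient of a regular model by an involution. -/
theorem inv_quot {O F K : Type} [CommRing O] [IsDomain O] [IsNoetherianRing O] [Field F]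
    [Field K] [Algebra O F] [Algebra O K] [Algebra F K] [IsScalarTower O F K] (σ : K ≃ₐ[O] K)
    (hσ : ∀ x, σ (σ x) = x) (hF : ∀ x, σ x = x ↔ ∃ f : F, algebraMap F K f = x)
    {M I : Submodule O K} (hM : M.FG) (hI : I.FG) (hsM : ∀ x ∈ M, σ x ∈ M)
    (hsI : ∀ x ∈ I, σ x ∈ I) (hIM : I ≤ M) (hI0 : ∃ a ∈ I, a ≠ 0)
    (h : ∀ W : ValuationSubring K, (∀ o, algebraMap O K o ∈ W) → ∃ m ∈ M, m ≠ 0 ∧
      (∀ x ∈ M, x / m ∈ W) ∧ Cond σ I W (lo W.toSubring (chart O M m).toSubring) m) :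
    ∀ a ∈ M * I, ∀ b ∈ M * I, wd σ a b ≠ 0 →
      (VF F σ (M * I) * WF F σ (M * I) (wd σ a b)).FG ∧
      (∃ f ∈ VF F σ (M * I) * WF F σ (M * I) (wd σ a b), f ≠ 0) ∧
      ∀ f ∈ VF F σ (M * I) * WF F σ (M * I) (wd σ a b), f ≠ 0 →
        ∀ (q : Ideal (chart O (VF F σ (M * I) * WF F σ (M * I) (wd σ a b)) f)) [q.IsPrime],
        IsRegularLocalRing (Localization.AtPrime q) := by
  classical
  obtain ⟨a₁, ha₁, ha₁0⟩ := hI0
  have hMne : ∃ g ∈ M, g ≠ 0 := ⟨a₁, hIM ha₁, ha₁0⟩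
  have hSM : SM σ (M * I) = M * I := by
    have h1 : ∀ x ∈ M * I, σ x ∈ M * I := by
      intro x hx
      refine Submodule.mul_induction_on hx ?_ ?_
      · intro x hx y hy
        rw [map_mul]
        exact Submodule.mul_mem_mul (hsM x hx) (hsI y hy)
      · intro x y hx hy
        rw [map_add]
        exact Submodule.add_mem _ hx hy
    apply le_antisymm
    · rintro _ ⟨x, hx, rfl⟩
      exact h1 x hx
    · intro x hx
      exact ⟨σ x, h1 x hx, hσ x⟩
  refine quot_module σ hσ hF (M := M * I) (hM.mul hI) ?_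
  intro W hOW Q' hQ'
  obtain ⟨m, hm, hm0, hMW, hC⟩ := h W hOW
  obtain ⟨a, ha, ha0, hIW⟩ := exists_gen_max hOW hI ha₁ ha₁0
  have hMI : ∀ x ∈ M * I, x / (m * a) ∈ W := by
    intro x hx
    refine Submodule.mul_induction_on hx ?_ ?_
    · intro x hx y hy
      rw [mul_div_mul_comm]
      exact W.mul_mem _ _ (hMW x hx) (hIW y hy)
    · intro x y hx hy
      rw [add_div]
      exact W.add_mem _ _ hx hy
  have h1 := hQ'.unique hOW ⟨m * a, Submodule.mul_mem_mul hm ha, mul_ne_zero hm0 ha0, hMI, rfl⟩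
  rw [lo_mul hOW hm hm0 hMW rfl ha ha0 hIW] at h1
  obtain ⟨hreg, hG⟩ := blow_good hσ hOW hsM hIM hm hm0 hMW rfl ha ha0 hIW hC h1
  refine ⟨by rw [hSM]; exact hQ', fun m' hm' hm'0 hM'W hsM'W a₀ ha₀ hw0 hwW => ?_⟩
  have hQ1 : Q' = lo W.toSubring (chart O (M * I) m').toSubring :=
    hQ'.unique hOW ⟨m', hm', hm'0, hM'W, rfl⟩
  have hQ2 : LR W (M * I) (lo W.toSubring (chart O (M * I) (σ m')).toSubring) := by
    refine ⟨σ m', ?_, fun h => hm'0 ((map_eq_zero σ).1 h), ?_, rfl⟩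
    · rw [← hSM]
      exact s_mem_SM hm'
    · intro x hx
      rw [← hSM] at hx
      obtain ⟨y, hy, rfl⟩ := hx
      exact hsM'W y hy
  have hQ3 := hQ'.unique hOW hQ2
  refine DD_regular hσ hOW hm' hm'0 hM'W ?_ hQ1 ha₀ hw0 hwW hreg hG
  intro x hx
  rw [hQ3]
  refine le_lo _ _ (Algebra.subset_adjoin ⟨σ x, ?_, rfl⟩)
  rw [← hSM]
  exact s_mem_SM hx

end Pool.Agent.Y223.INV
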