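import Pool.Agent.W418.LU2.Ind

/-!
# Ideals with regular quotients
-/

set_option autoImplicit false
set_option linter.unusedVariables false
set_option linter.unusedSectionVars false

namespace Pool.Agent.Y223.INV

open IsLocalRing Pool.Agent.W418.LU2

universe u

/-- An ideal with a regular quotient is generated by a part of a regular system of parameters. -/
theorem ideal_ind {T : Type u} [CommRing T] [IsRegularLocalRing T] (J : Ideal T)
    [IsRegularLocalRing (T ⧸ J)] :
    ∃ (c : ℕ) (y : Fin c → T), Ind y ∧ J = Ideal.span (Set.range y) := by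
  classical
  have hne : J ≠ ⊤ := Ideal.Quotient.nontrivial_iff.1 inferInstance
  have hm : J ≤ maximalIdeal T := IsLocalRing.le_maximalIdeal hne
  let f : J → CotangentSpace T := fun a => (maximalIdeal T).toCotangent ⟨a, hm a.2⟩
  obtain ⟨b, hb, hbs, hbl⟩ := exists_linearIndependent (ResidueField T) (Set.range f)
  have hfin : Finite b := hbl.finite
  obtain ⟨c, ⟨e⟩⟩ := Finite.exists_equiv_fin b
  have hy : ∀ i : Fin c, ∃ a, f a = (e.symm i : CotangentSpace T) := fun i => hb (e.symm i).2
  choose y hy using hy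
  have hind : Ind (fun i => (y i : T)) := by
    rw [ind_iff (fun i => hm (y i).2)]
    have h1 : (fun i => ((maximalIdeal T).toCotangent ⟨(y i : T), hm (y i).2⟩ :
        CotangentSpace T)) = (fun x : b => (x : CotangentSpace T)) ∘ e.symm :=
      funext fun i => hy i
    rw [h1]
    exact hbl.comp _ e.symm.injective
  refine ⟨c, fun i => (y i : T), hind, ?_⟩
  apply le_antisymm
  swap
  · rw [Ideal.span_le]
    rintro _ ⟨i, rfl⟩
    exact (y i).2
  set I := Ideal.span (Set.range fun i => (y i : T)) with hI
  have hIJ : I ≤ J := by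
    rw [hI, Ideal.span_le]
    rintro _ ⟨i, rfl⟩
    exact (y i).2
  -- the second order
  have h2 : ∀ a ∈ J, ∃ i ∈ I, a - i ∈ maximalIdeal T ^ 2 := by
    intro a ha
    have h3 : f ⟨a, ha⟩ ∈ Submodule.span (ResidueField T) (Set.range fun i => f (y i)) := by
      have h4 : Set.range (fun i => f (y i)) = b := by
        ext x
        constructor
        · rintro ⟨i, rfl⟩
          change f (y i) ∈ b
          rw [hy i]
          exact (e.symm i).2
        · intro hx
          refine ⟨e ⟨x, hx⟩, ?_⟩
          change f (y (e ⟨x, hx⟩)) = x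
          rw [hy, Equiv.symm_apply_apply]
      rw [h4, hbs]
      exact Submodule.subset_span ⟨⟨a, ha⟩, rfl⟩
    rw [Submodule.mem_span_range_iff_exists_fun] at h3
    obtain ⟨g, hg⟩ := h3
    choose r hr using fun i => residue_surjective (R := T) (g i)
    refine ⟨∑ i, r i * (y i : T), Ideal.sum_mem _ fun i _ =>
      Ideal.mul_mem_left _ _ (Ideal.subset_span ⟨i, rfl⟩), ?_⟩
    have h6 : ((maximalIdeal T).toCotangent (⟨a, hm ha⟩ -
        ∑ i, r i • (⟨(y i : T), hm (y i).2⟩ : maximalIdeal T)) : CotangentSpace T) = 0 := by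
      rw [map_sub, map_sum]
      have h7 : ∀ i, (maximalIdeal T).toCotangent
          (r i • (⟨(y i : T), hm (y i).2⟩ : maximalIdeal T)) = g i • f (y i) := by
        intro i
        rw [map_smul, ← hr i]
        rfl
      rw [Finset.sum_congr rfl fun i _ => h7 i, hg]
      exact sub_self _
    rw [Ideal.toCotangent_eq_zero] at h6
    have h8 : (((⟨a, hm ha⟩ - ∑ i, r i • (⟨(y i : T), hm (y i).2⟩ : maximalIdeal T) :
        maximalIdeal T)) : T) = a - ∑ i, r i * (y i : T) := by
      rw [AddSubgroupClass.coe_sub, AddSubmonoidClass.coe_finsetSum]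
      rfl
    rwa [h8] at h6
  have h3 : J ≤ I ⊔ maximalIdeal T • J := by
    intro a ha
    obtain ⟨i, hi, hai⟩ := h2 a ha
    have h4 : a - i ∈ J ⊓ maximalIdeal T ^ 2 := ⟨Ideal.sub_mem _ ha (hIJ hi), hai⟩
    have h5 := Pool.Agent.H379R3.inf_sq_le J h4
    have h6 : a = i + (a - i) := by ring
    rw [h6]
    exact Submodule.add_mem_sup hi h5
  exact Submodule.le_of_le_smul_of_le_jacobson_bot (IsNoetherian.noetherian J)
    (IsLocalRing.maximalIdeal_le_jacobson ⊥) h3

end Pool.Agent.Y223.INV
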