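import Pool.Agent.Y223.INV.Wild
import Pool.Agent.Y223.INV.IndI

/-!
# The blowing up of a centre containing the wild fixed points
-/

set_option autoImplicit false
set_option linter.unusedVariables false
set_option linter.unusedSectionVars false

namespace Pool.Agent.Y223.INV

open IsLocalRing Pool.Agent.TH188.QS Pool.Agent.TH188.ARC Pool.Agent.W418.LU2
  Pool.Agent.H918R2.Quad Polynomial

section

variable {O K : Type} [CommRing O] [Field K] [Algebra O K] {σ : K ≃ₐ[O] K}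
  {W : ValuationSubring K} {Q : Subring K}

/-- A wild fixed point on the regular centre with the ideal `𝔞`. -/
structure Ce (σ : K ≃ₐ[O] K) (W : ValuationSubring K) (Q : Subring K) (t : K) (𝔞 : Ideal Q)
    {c : ℕ} (z : Fin c → K) : Prop where
  reg : RegP W.toSubring Q z
  zN : ∀ i, NU W.toSubring (z i)
  gen : 𝔞 = Ideal.span (Set.range fun i => (⟨z i, reg.mem i⟩ : Q))
  tQ : t ∈ Q
  t0 : t ≠ 0
  tau : ∀ x ∈ Q, (σ x - x) / t ∈ Q
  tauA : ∀ x : Q, (⟨(σ x - x) / t, tau x x.2⟩ : Q) ∈ 𝔞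
  tau2 : ∀ x ∈ 𝔞, (⟨(σ x - x) / t, tau x x.2⟩ : Q) ∈ 𝔞 ^ 2
  epQ : ep σ t ∈ Q
  epA : (⟨ep σ t, epQ⟩ : Q) ∈ 𝔞
  dom : ∃ N : ℕ, 𝔞 ^ (N + 2) ≤
    (Ideal.span {(⟨ep σ t, epQ⟩ : Q)} ⊔ Ideal.span {y : Q | ∃ x : Q, (y : K) = (σ x - x) / t}) *
      𝔞 ^ (N + 1) ⊔ Ideal.span {y : Q | ∃ x ∈ 𝔞, (y : K) = (σ x - x) / t} * 𝔞 ^ N

variable {t : K} {𝔞 : Ideal Q} {c : ℕ} {z : Fin c → K}

/-- The blowing up of the centre is good. -/
theorem Ce.good (hσ : ∀ x, σ (σ x) = x) (D : Ce σ W Q t 𝔞 z) (j : Fin c)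
    (hj : ∀ i, z i * (z j)⁻¹ ∈ W) {Q' : Subring K}
    (hQ' : Q' = lo W.toSubring (Subring.closure ((Q : Set K) ∪
      {s | ∃ i ∈ Finset.univ.erase j, s = z i * (z j)⁻¹}))) :
    ∃ (c : ℕ) (z' : Fin c → K), Gd σ W Q' (t * z j) z' := by
  classical
  have hreg := D.reg.reg
  have hQW := D.reg.PA
  have hQIC : IC W.toSubring Q := D.reg.inv
  have ht0 := D.t0
  set x := z j with hxdef
  have hx0 : x ≠ 0 := D.reg.ne j
  have hxQ : x ∈ Q := D.reg.mem j
  have hxN : NU W.toSubring x := D.zN j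
  have hst0 : σ t ≠ 0 := fun h => ht0 ((map_eq_zero σ).1 h)
  have hmax : ∀ y : Q, y ∈ maximalIdeal Q ↔ NU W.toSubring (y : K) := mem_max_iff hQW hQIC
  have hxA : (⟨x, hxQ⟩ : Q) ∈ 𝔞 := by
    rw [D.gen]
    exact Ideal.subset_span ⟨j, rfl⟩
  have h𝔞m : 𝔞 ≤ maximalIdeal Q := by
    rw [D.gen, Ideal.span_le]
    rintro _ ⟨i, rfl⟩
    exact (hmax _).2 (D.zN i)
  set G := Subring.closure ((Q : Set K) ∪
    {s | ∃ i ∈ Finset.univ.erase j, s = z i * x⁻¹}) with hG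
  have hGW : G ≤ W.toSubring := by
    rw [hG, Subring.closure_le]
    rintro s (hs | ⟨i, hi, rfl⟩)
    · exact hQW hs
    · exact hj i
  have hGQ' : G ≤ Q' := by
    rw [hQ']
    exact le_lo _ _
  have hQQ' : Q ≤ Q' := fun y hy => hGQ' (Subring.subset_closure (Or.inl hy))
  have hQ'W : Q' ≤ W.toSubring := by
    rw [hQ']
    exact lo_le hGW
  have hQ'IC : IC W.toSubring Q' := by
    rw [hQ']
    exact ic_lo hGW
  have hzu : ∀ i, (z i)⁻¹ ∉ W.toSubring := fun i h => D.zN i ⟨D.reg.ne i, h⟩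
  have hQ'reg : IsRegularLocalRing Q' := by
    have h1 := (regP_qt (loc_V W) D.reg j (hzu j) (Finset.univ.erase j) (fun i hi =>
      ⟨(Finset.mem_erase.1 hi).1, hzu i, hj i⟩)).reg
    rw [hQ']
    exact h1
  have hzQ' : ∀ i, z i * x⁻¹ ∈ Q' := by
    intro i
    by_cases hij : i = j
    · rw [hij, mul_inv_cancel₀ hx0]
      exact Q'.one_mem
    · exact hGQ' (Subring.subset_closure (Or.inr ⟨i, Finset.mem_erase.2
        ⟨hij, Finset.mem_univ _⟩, rfl⟩))
  have hdivA : ∀ y ∈ 𝔞, (y : K) / x ∈ Q' := by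
    intro y hy
    rw [D.gen] at hy
    induction hy using Submodule.span_induction with
    | mem y hy =>
      obtain ⟨i, rfl⟩ := hy
      rw [div_eq_mul_inv]
      exact hzQ' i
    | zero =>
      rw [ZeroMemClass.coe_zero, zero_div]
      exact Q'.zero_mem
    | add a b _ _ ha hb =>
      rw [Subring.coe_add, add_div]
      exact Q'.add_mem ha hb
    | smul r a _ ha =>
      rw [smul_eq_mul, Subring.coe_mul, mul_div_assoc]
      exact Q'.mul_mem (hQQ' r.2) ha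
  have hpow : ∀ (n : ℕ) (y : Q), y ∈ 𝔞 ^ n → (y : K) / x ^ n ∈ Q' := by
    intro n
    induction n with
    | zero =>
      intro y _
      rw [pow_zero, div_one]
      exact hQQ' y.2
    | succ n ih =>
      intro y hy
      rw [pow_succ] at hy
      refine Submodule.mul_induction_on hy ?_ ?_
      · intro a ha b hb
        have h1 : ((a * b : Q) : K) / x ^ (n + 1) = ((a : K) / x ^ n) * ((b : K) / x) := by
          rw [Subring.coe_mul, pow_succ]
          field_simp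
        rw [h1]
        exact Q'.mul_mem (ih a ha) (hdivA b hb)
      · intro a b ha hb
        rw [Subring.coe_add, add_div]
        exact Q'.add_mem ha hb
  have hdiv2 : ∀ y ∈ 𝔞, (σ (y : K) - y) / t / x ^ 2 ∈ Q' := by
    intro y hy
    exact hpow 2 _ (D.tau2 y hy)
  -- the image of `x`
  set q := (σ x - x) / t / x ^ 2 with hq
  have hqQ : q ∈ Q' := hdiv2 ⟨x, hxQ⟩ hxA
  have htQ' : t ∈ Q' := hQQ' D.tQ
  have hxQ' : x ∈ Q' := hQQ' hxQ
  have htxq : t * x * q ∈ Q' := Q'.mul_mem (Q'.mul_mem htQ' hxQ') hqQ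
  have htxqN : NU W.toSubring (t * x * q) := by
    have : t * x * q = (t * q) * x := by ring
    rw [this]
    exact NU.mul (hQ'W (Q'.mul_mem htQ' hqQ)) hxN
  obtain ⟨hv0, hvW⟩ := unit_of_sub W.one_mem one_ne_zero (by rw [inv_one]; exact W.one_mem)
    (W.add_mem _ _ W.one_mem (hQ'W htxq)) (e := 1 + t * x * q) (by
      rw [add_sub_cancel_left]; exact htxqN)
  set v := 1 + t * x * q with hv
  have hvQ : v ∈ Q' := Q'.add_mem Q'.one_mem htxq
  have hviQ : v⁻¹ ∈ Q' := hQ'IC _ hvQ hv0 hvW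
  have hσx : σ x = x * v := by
    rw [hv, hq]
    field_simp
    ring
  -- the elements of `Q`
  have hσQ : ∀ y ∈ Q, σ y ∈ Q := by
    intro y hy
    have h1 : σ y = y + t * ((σ y - y) / t) := by field_simp; ring
    rw [h1]
    exact Q.add_mem hy (Q.mul_mem D.tQ (D.tau y hy))
  have h1 : ∀ y ∈ Q, σ y ∈ Q' ∧ (σ y - y) / (t * x) ∈ Q' := by
    intro y hy
    refine ⟨hQQ' (hσQ y hy), ?_⟩
    rw [← div_div]
    exact hdivA _ (D.tauA ⟨y, hy⟩)
  have hform : ∀ y : K, (σ (y * x⁻¹) - y * x⁻¹) / (t * x) =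
      ((σ y - y) / t / x ^ 2 - y / x * q) * v⁻¹ := by
    intro y
    have h2 : σ y = y + t * x ^ 2 * ((σ y - y) / t / x ^ 2) := by field_simp; ring
    set p := (σ y - y) / t / x ^ 2
    rw [map_mul, map_inv₀, hσx, h2]
    field_simp
    rw [hv]
    ring
  have h2 : ∀ y ∈ 𝔞, σ ((y : K) * x⁻¹) ∈ Q' ∧
      (σ ((y : K) * x⁻¹) - y * x⁻¹) / (t * x) ∈ Q' := by
    intro y hy
    have hyx := hdivA y hy
    have h3 : (σ ((y : K) * x⁻¹) - y * x⁻¹) / (t * x) ∈ Q' := by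
      rw [hform]
      exact Q'.mul_mem (Q'.sub_mem (hdiv2 y hy) (Q'.mul_mem hyx hqQ)) hviQ
    refine ⟨?_, h3⟩
    have h4 : σ ((y : K) * x⁻¹) = y / x + t * x * ((σ ((y : K) * x⁻¹) - y * x⁻¹) / (t * x)) := by
      field_simp
      ring
    rw [h4]
    exact Q'.add_mem hyx (Q'.mul_mem (Q'.mul_mem htQ' hxQ') h3)
  have hGQ : Q' = lo W.toSubring G := hQ'
  have htx0 : t * x ≠ 0 := mul_ne_zero ht0 hx0
  have htxN : NU W.toSubring (t * x) := NU.mul (hQW D.tQ) hxN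
  have h3 : ∀ y ∈ G, σ y ∈ Q' ∧ (σ y - y) / (t * x) ∈ Q' := by
    intro y hy
    induction hy using Subring.closure_induction with
    | mem y hy =>
      rcases hy with hy | ⟨i, hi, rfl⟩
      · exact h1 y hy
      · exact h2 ⟨z i, D.reg.mem i⟩ (D.gen.ge (Ideal.subset_span ⟨i, rfl⟩))
    | zero => rw [map_zero, sub_zero, zero_div]; exact ⟨Q'.zero_mem, Q'.zero_mem⟩
    | one => rw [map_one, sub_self, zero_div]; exact ⟨Q'.one_mem, Q'.zero_mem⟩
    | add a b _ _ ha hb =>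
      rw [map_add]
      refine ⟨Q'.add_mem ha.1 hb.1, ?_⟩
      have : (σ a + σ b - (a + b)) / (t * x) = (σ a - a) / (t * x) + (σ b - b) / (t * x) := by
        ring
      rw [this]
      exact Q'.add_mem ha.2 hb.2
    | neg a _ ha =>
      rw [map_neg]
      refine ⟨Q'.neg_mem ha.1, ?_⟩
      have : (-σ a - -a) / (t * x) = -((σ a - a) / (t * x)) := by ring
      rw [this]
      exact Q'.neg_mem ha.2
    | mul a b hac hbc ha hb =>
      rw [map_mul]
      refine ⟨Q'.mul_mem ha.1 hb.1, ?_⟩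
      have : (σ a * σ b - a * b) / (t * x) =
          σ a * ((σ b - b) / (t * x)) + (σ a - a) / (t * x) * b := by ring
      rw [this]
      exact Q'.add_mem (Q'.mul_mem ha.1 hb.2) (Q'.mul_mem ha.2 (hGQ' hbc))
  have h4 : ∀ y ∈ Q', σ y ∈ Q' ∧ (σ y - y) / (t * x) ∈ Q' := by
    have := fix_frac (σ := σ) (W := W) (B := Q') hGW htx0 htxN hQ'W (by rw [← hGQ])
      (by rw [← hGQ]; exact h3)
    rwa [← hGQ] at this
  -- the eigenvalue
  have htauN : ∀ y ∈ Q, NU W.toSubring ((σ y - y) / t) := fun y hy =>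
    (hmax _).1 (h𝔞m (D.tauA ⟨y, hy⟩))
  have hepsN : NU W.toSubring (ep σ t) := (hmax _).1 (h𝔞m D.epA)
  have hτt : NU W.toSubring ((σ t - t) / t) := htauN t D.tQ
  have hst : σ t / t = 1 + (σ t - t) / t := by field_simp; ring
  have hstu : (σ t / t)⁻¹ ∈ W := (unit_of_sub W.one_mem one_ne_zero
    (by rw [inv_one]; exact W.one_mem) (e := σ t / t)
    (by rw [hst]; exact W.add_mem _ _ W.one_mem (hQW (D.tau t D.tQ))) (by
      rw [hst, add_sub_cancel_left]; exact hτt)).2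
  have hstQ : (σ t / t)⁻¹ ∈ Q' := hQQ' (hQIC _ (by
    rw [hst]; exact Q.add_mem Q.one_mem (D.tau t D.tQ)) (div_ne_zero hst0 ht0) hstu)
  have hep : ep σ (t * x) = ep σ t / x + (σ t / t)⁻¹ * v⁻¹ * q := by
    rw [ep, ep, map_mul, hσx]
    have hv' : v - t * x * q = 1 := by rw [hv]; ring
    field_simp
    linear_combination (-(σ t) * x) * hv'
  have hepx : ep σ t / x ∈ Q' := hdivA _ D.epA
  have huQ : (σ t / t)⁻¹ * v⁻¹ ∈ Q' := Q'.mul_mem hstQ hviQ
  have hepQ : ep σ (t * x) ∈ Q' := by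
    rw [hep]
    exact Q'.add_mem hepx (Q'.mul_mem huQ hqQ)
  refine gd_of_tau hσ hQ'W hQ'IC hQ'reg (Q'.mul_mem htQ' hxQ') htx0 (fun y hy => (h4 y hy).2)
    hepQ ?_
  intro hall
  by_contra hcon
  have hepN : NU W.toSubring (ep σ (t * x)) := hcon
  have hA := loc_V W
  -- the relation
  set A := (σ q - q) / (t * x) with hAdef
  have hAN : NU W.toSubring A := hall q hqQ
  have hAQ : A ∈ Q' := (h4 q hqQ).2
  have hσq : σ q = q + t * x * A := by rw [hAdef]; field_simp; ring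
  have hR1 : v * (1 + σ t * (x * v) * (q + t * x * A)) = 1 := by
    have h5 := hσ x
    rw [hσx, map_mul, hσx, hv, map_add, map_one, map_mul, map_mul, hσx, hσq, ← hv] at h5
    have h6 : x * (v * (1 + σ t * (x * v) * (q + t * x * A))) = x * 1 := by
      rw [mul_one, ← mul_assoc]
      exact h5
    exact mul_left_cancel₀ hx0 h6
  have hrel : ep σ t / x * q = v * v * A + 2 * q ^ 2 + (t * x * q) * q ^ 2 := by
    rw [ep]
    field_simp
    have h6 : x * (t * q + σ t * v ^ 2 * q + σ t * x * t * v ^ 2 * A) = 0 := by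
      have hv' : v = 1 + t * x * q := hv
      linear_combination hR1 - hv'
    have h7 := (mul_eq_zero.1 h6).resolve_left hx0
    have hv' : v = 1 + t * x * q := hv
    have h8 : v ^ 2 = 1 + 2 * (t * x * q) + (t * x * q) ^ 2 := by rw [hv']; ring
    linear_combination (-1 : K) * h7 + (σ t * q) * h8
  have h2N : NU W.toSubring (2 : K) := by
    have h5 : (2 : K) = -(ep σ t * σ t) + -((σ t - t) / t) := by
      rw [ep]
      field_simp
      ring
    rw [h5]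
    refine NU.add hA (W.neg_mem _ ?_) (W.neg_mem _ (hQW (D.tau t D.tQ))) (NU.neg ?_) (NU.neg hτt)
    · exact W.mul_mem _ _ (hQW D.epQ) (hQW (hσQ t D.tQ))
    · rw [mul_comm]
      exact NU.mul (hQW (hσQ t D.tQ)) hepsN
  have hq2W : q ^ 2 ∈ W.toSubring := Subring.pow_mem _ (hQ'W hqQ) 2
  have h2W : (2 : K) ∈ W.toSubring := natCast_mem _ 2
  have hvW' : v * v ∈ W.toSubring := Subring.mul_mem _ (hQ'W hvQ) (hQ'W hvQ)
  have hepqN : NU W.toSubring (ep σ t / x * q) := by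
    rw [hrel]
    refine NU.add hA (W.add_mem _ _ (W.mul_mem _ _ hvW' (hQ'W hAQ))
      (W.mul_mem _ _ h2W hq2W)) (W.mul_mem _ _ (hQ'W htxq) hq2W)
      (NU.add hA (W.mul_mem _ _ hvW' (hQ'W hAQ)) (W.mul_mem _ _ h2W hq2W)
        (NU.mul hvW' hAN) ?_) ?_
    · rw [mul_comm]
      exact NU.mul hq2W h2N
    · rw [mul_comm]
      exact NU.mul hq2W htxqN
  set u := (σ t / t)⁻¹ * v⁻¹ with hu
  have hu0 : u ≠ 0 := mul_ne_zero (inv_ne_zero (div_ne_zero hst0 ht0)) (inv_ne_zero hv0)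
  have huW : u⁻¹ ∈ W := by
    rw [hu, mul_inv, inv_inv, inv_inv, hst]
    exact W.mul_mem _ _ (W.add_mem _ _ W.one_mem (hQW (D.tau t D.tQ))) (hQ'W hvQ)
  have hq2N : NU W.toSubring (q ^ 2) := by
    have h5 : q ^ 2 = u⁻¹ * (q * ep σ (t * x) + -(ep σ t / x * q)) := by
      rw [hep]
      field_simp
      ring
    rw [h5]
    refine NU.mul huW (NU.add hA (W.mul_mem _ _ (hQ'W hqQ) (hQ'W hepQ))
      (W.neg_mem _ (W.mul_mem _ _ (hQ'W hepx) (hQ'W hqQ)))
      (NU.mul (hQ'W hqQ) hepN) (NU.neg hepqN))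
  have hqN : NU W.toSubring q := by
    rintro ⟨h5, h6⟩
    apply hq2N
    refine ⟨pow_ne_zero 2 h5, ?_⟩
    rw [← inv_pow]
    exact Subring.pow_mem _ h6 2
  have hepxN : NU W.toSubring (ep σ t / x) := by
    have h5 : ep σ t / x = ep σ (t * x) + -(u * q) := by
      rw [hep]
      ring
    rw [h5]
    exact NU.add hA (hQ'W hepQ) (W.neg_mem _ (W.mul_mem _ _ (hQ'W huQ) (hQ'W hqQ)))
      hepN (NU.neg (NU.mul (hQ'W huQ) hqN))
  have hpN : ∀ y ∈ 𝔞, NU W.toSubring ((σ (y : K) - y) / t / x ^ 2) := by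
    intro y hy
    have h5 : (σ (y : K) - y) / t / x ^ 2 =
        v * ((σ ((y : K) * x⁻¹) - y * x⁻¹) / (t * x)) + (y / x) * q := by
      rw [hform]
      field_simp
      ring
    have hyQ' : (y : K) * x⁻¹ ∈ Q' := by
      rw [← div_eq_mul_inv]
      exact hdivA y hy
    rw [h5]
    exact NU.add hA (W.mul_mem _ _ (hQ'W hvQ) (hQ'W (h4 _ hyQ').2))
      (W.mul_mem _ _ (hQ'W (hdivA y hy)) (hQ'W hqQ))
      (NU.mul (hQ'W hvQ) (hall _ hyQ')) (NU.mul (hQ'W (hdivA y hy)) hqN)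
  have hpN1 : ∀ y ∈ Q, NU W.toSubring ((σ y - y) / t / x) := by
    intro y hy
    rw [div_div]
    exact hall y (hQQ' hy)
  -- the domination
  obtain ⟨N, hN⟩ := D.dom
  have h5 := hN (Ideal.pow_mem_pow hxA (N + 2))
  have key1 : ∀ a ∈ Ideal.span {(⟨ep σ t, D.epQ⟩ : Q)} ⊔
      Ideal.span {y : Q | ∃ x : Q, (y : K) = (σ x - x) / t},
      (a : K) / x ∈ Q' ∧ NU W.toSubring ((a : K) / x) := by
    intro a ha
    rw [← Ideal.span_union] at ha
    induction ha using Submodule.span_induction with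
    | mem a ha =>
      rcases ha with ha | ⟨y, hya⟩
      · rw [Set.mem_singleton_iff.1 ha]
        exact ⟨hepx, hepxN⟩
      · rw [hya]
        exact ⟨hdivA _ (D.tauA y), hpN1 y y.2⟩
    | zero =>
      rw [ZeroMemClass.coe_zero, zero_div]
      exact ⟨Q'.zero_mem, NU.zero⟩
    | add a b _ _ ha hb =>
      rw [Subring.coe_add, add_div]
      exact ⟨Q'.add_mem ha.1 hb.1, NU.add hA (hQ'W ha.1) (hQ'W hb.1) ha.2 hb.2⟩
    | smul r a _ ha =>
      rw [smul_eq_mul, Subring.coe_mul, mul_div_assoc]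
      exact ⟨Q'.mul_mem (hQQ' r.2) ha.1, NU.mul (hQW r.2) ha.2⟩
  have key : ∀ a ∈ Ideal.span {y : Q | ∃ x ∈ 𝔞, (y : K) = (σ x - x) / t},
      (a : K) / x ^ 2 ∈ Q' ∧ NU W.toSubring ((a : K) / x ^ 2) := by
    intro a ha
    induction ha using Submodule.span_induction with
    | mem a ha =>
      obtain ⟨y, hyN, hya⟩ := ha
      rw [hya]
      exact ⟨hdiv2 y hyN, hpN y hyN⟩
    | zero =>
      rw [ZeroMemClass.coe_zero, zero_div]
      exact ⟨Q'.zero_mem, NU.zero⟩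
    | add a b _ _ ha hb =>
      rw [Subring.coe_add, add_div]
      exact ⟨Q'.add_mem ha.1 hb.1, NU.add hA (hQ'W ha.1) (hQ'W hb.1) ha.2 hb.2⟩
    | smul r a _ ha =>
      rw [smul_eq_mul, Subring.coe_mul, mul_div_assoc]
      exact ⟨Q'.mul_mem (hQQ' r.2) ha.1, NU.mul (hQW r.2) ha.2⟩
  obtain ⟨u1, hu1, u2, hu2, h6⟩ := Submodule.mem_sup.1 h5
  have h7 : (u1 : K) / x ^ (N + 2) ∈ Q' ∧ NU W.toSubring ((u1 : K) / x ^ (N + 2)) := by
    refine Submodule.mul_induction_on hu1 ?_ ?_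
    · intro a ha b hb
      have h9 : ((a * b : Q) : K) / x ^ (N + 2) = ((b : K) / x ^ (N + 1)) * ((a : K) / x) := by
        rw [Subring.coe_mul, pow_succ x (N + 1)]
        field_simp
      rw [h9]
      exact ⟨Q'.mul_mem (hpow _ _ hb) (key1 a ha).1, NU.mul (hQ'W (hpow _ _ hb)) (key1 a ha).2⟩
    · intro a b ha hb
      rw [Subring.coe_add, add_div]
      exact ⟨Q'.add_mem ha.1 hb.1, NU.add hA (hQ'W ha.1) (hQ'W hb.1) ha.2 hb.2⟩
  have h8 : (u2 : K) / x ^ (N + 2) ∈ Q' ∧ NU W.toSubring ((u2 : K) / x ^ (N + 2)) := by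
    refine Submodule.mul_induction_on hu2 ?_ ?_
    · intro a ha b hb
      have h9 : ((a * b : Q) : K) / x ^ (N + 2) = ((b : K) / x ^ N) * ((a : K) / x ^ 2) := by
        rw [Subring.coe_mul, pow_add]
        field_simp
      rw [h9]
      exact ⟨Q'.mul_mem (hpow _ _ hb) (key a ha).1, NU.mul (hQ'W (hpow _ _ hb)) (key a ha).2⟩
    · intro a b ha hb
      rw [Subring.coe_add, add_div]
      exact ⟨Q'.add_mem ha.1 hb.1, NU.add hA (hQ'W ha.1) (hQ'W hb.1) ha.2 hb.2⟩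
  have h9 : (1 : K) = (u1 : K) / x ^ (N + 2) + (u2 : K) / x ^ (N + 2) := by
    have h10 := congrArg (Subtype.val : Q → K) h6
    have h11 : (u1 : K) + (u2 : K) = x ^ (N + 2) := h10
    rw [← add_div, h11, div_self (pow_ne_zero _ hx0)]
  refine not_NU_one (A := W.toSubring) ?_
  rw [h9]
  exact NU.add hA (hQ'W h7.1) (hQ'W h8.1) h7.2 h8.2

end

end Pool.Agent.Y223.INV
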