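import Pool.Agent.W418.LU2.Ind

/-!
# Descent of regularity along monogenic extensions
-/

set_option autoImplicit false
set_option linter.unusedVariables false
set_option linter.unusedSectionVars false

namespace Pool.Agent.Y223.INV

open IsLocalRing Pool.Agent.W418.LU2 Polynomial

section basis

variable {A : Type} [CommRing A] [IsLocalRing A] [IsNoetherianRing A]

/-- A minimal system of generators of the maximal ideal. -/
theorem exists_min_gens : ∃ y : Fin (Module.finrank (ResidueField A) (CotangentSpace A)) → A,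
    Ind y ∧ Ideal.span (Set.range y) = maximalIdeal A := by
  classical
  let b := Module.finBasis (ResidueField A) (CotangentSpace A)
  choose z hz using fun i => Ideal.toCotangent_surjective (maximalIdeal A) (b i)
  refine ⟨fun i => z i, ?_, ?_⟩
  · rw [ind_iff (fun i => (z i).2)]
    have h1 : (fun i => ((maximalIdeal A).toCotangent ⟨(z i : A), (z i).2⟩ : CotangentSpace A)) =
        b := funext fun i => hz i
    rw [h1]
    exact b.linearIndependent
  · have h1 : Submodule.span (ResidueField A) ((maximalIdeal A).toCotangent '' Set.range z) = ⊤ := by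
      rw [← b.span_eq]
      congr 1
      ext v
      constructor
      · rintro ⟨_, ⟨i, rfl⟩, rfl⟩
        exact ⟨i, (hz i).symm⟩
      · rintro ⟨i, rfl⟩
        exact ⟨z i, ⟨i, rfl⟩, hz i⟩
    have h2 := CotangentSpace.span_image_eq_top_iff.1 h1
    have h3 := congrArg (Submodule.map (maximalIdeal A).subtype) h2
    rw [Submodule.map_span, Submodule.map_top, Submodule.range_subtype, ← Set.range_comp] at h3
    exact h3

end basis

section poly

variable {A : Type} [CommRing A] [IsLocalRing A]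

lemma mem_map_C {I : Ideal A} {p : A[X]} : p ∈ I.map C ↔ ∀ n, p.coeff n ∈ I :=
  Ideal.mem_map_C_iff

/-- Independence in the polynomial ring. -/
theorem poly_indep {r : ℕ} {y : Fin r → A} (hy : Ind y)
    (hspan : Ideal.span (Set.range y) = maximalIdeal A) (g : A[X]) (hg : g.Monic)
    (𝔑 : Ideal A[X]) [𝔑.IsPrime] (h𝔑 : 𝔑 = Ideal.span {g} ⊔ (maximalIdeal A).map C)
    (hne : (maximalIdeal A).map C ≠ 𝔑)
    (a : Fin r → A[X]) (b : A[X]) (h : ∑ i, a i * C (y i) + b * g ∈ 𝔑 ^ 2) :
    (∀ i, a i ∈ 𝔑) ∧ b ∈ 𝔑 := by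
  classical
  set 𝔪 := maximalIdeal A with h𝔪
  set M := 𝔪.map (C : A →+* A[X]) with hM
  have hMp : M.IsPrime := Ideal.isPrime_map_C_of_isPrime
  have hMN : M ≤ 𝔑 := by rw [h𝔑]; exact le_sup_right
  have hgN : g ∈ 𝔑 := by rw [h𝔑]; exact Ideal.mem_sup_left (Ideal.mem_span_singleton_self g)
  have hgM : g ∉ M := by
    intro h1
    apply hne
    rw [h𝔑]
    exact (sup_eq_right.2 ((Ideal.span_singleton_le_iff_mem _).2 h1)).symm
  -- decomposition of the square
  have hsq : 𝔑 ^ 2 ≤ Ideal.span {g ^ 2} ⊔ (Ideal.span {g} * M ⊔ (𝔪 ^ 2).map C) := by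
    have e1 : M * M = (𝔪 ^ 2).map C := by rw [hM, ← Ideal.map_mul, ← sq]
    rw [h𝔑, sq, Ideal.sup_mul, Ideal.mul_sup, Ideal.mul_sup, Ideal.span_singleton_mul_span_singleton,
      ← sq, mul_comm M (Ideal.span {g}), e1]
    refine sup_le (sup_le le_sup_left (le_sup_of_le_right le_sup_left)) (sup_le
      (le_sup_of_le_right le_sup_left) (le_sup_of_le_right le_sup_right))
  obtain ⟨u1, hu1, u2, hu2, h1⟩ := Submodule.mem_sup.1 (hsq h)
  obtain ⟨u3, hu3, u, hu, h2⟩ := Submodule.mem_sup.1 hu2
  obtain ⟨q, rfl⟩ := Ideal.mem_span_singleton'.1 hu1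
  obtain ⟨v, hv, rfl⟩ := Ideal.mem_span_singleton_mul.1 hu3
  have huM : u ∈ M := by
    rw [hM]
    exact Ideal.map_mono (Ideal.pow_le_self two_ne_zero) hu
  have hyM : ∑ i, a i * C (y i) ∈ M := Ideal.sum_mem _ fun i _ =>
    Ideal.mul_mem_left _ _ (Ideal.mem_map_of_mem _ (hy.1 i))
  have h3 : g * (b - q * g - v) = u - ∑ i, a i * C (y i) := by
    rw [← h2] at h1
    linear_combination -h1
  have h4 : b - q * g - v ∈ M := by
    have h5 : g * (b - q * g - v) ∈ M := by
      rw [h3]
      exact M.sub_mem huM hyM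
    exact (hMp.mem_or_mem h5).resolve_left hgM
  have hb : b ∈ 𝔑 := by
    have h5 : b = (b - q * g - v) + q * g + v := by ring
    rw [h5]
    exact 𝔑.add_mem (𝔑.add_mem (hMN h4) (𝔑.mul_mem_left _ hgN)) (hMN hv)
  refine ⟨?_, hb⟩
  -- the element of the extended ideal
  have h5 : ∃ c : Fin r → A[X], ∑ i, c i * C (y i) = b - q * g - v := by
    have h6 : M = Ideal.span (Set.range fun i => C (y i)) := by
      rw [hM, ← hspan, Ideal.map_span, ← Set.range_comp]
      rfl
    have h7 := h4
    rw [h6, Ideal.mem_span_range_iff_exists_fun] at h7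
    exact h7
  obtain ⟨c, hc⟩ := h5
  have h6 : ∑ i, (a i + g * c i) * C (y i) ∈ (𝔪 ^ 2).map (C : A →+* A[X]) := by
    have h7 : ∑ i, (a i + g * c i) * C (y i) = u := by
      have h8 : ∑ i, (a i + g * c i) * C (y i) =
          ∑ i, a i * C (y i) + g * ∑ i, c i * C (y i) := by
        rw [Finset.mul_sum, ← Finset.sum_add_distrib]
        exact Finset.sum_congr rfl fun i _ => by ring
      rw [h8, hc, h3]
      ring
    rw [h7]
    exact hu
  intro i
  have h7 : a i + g * c i ∈ M := by
    rw [hM, mem_map_C]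
    intro n
    rw [mem_map_C] at h6
    have h8 := h6 n
    rw [finsetSum_coeff] at h8
    simp only [coeff_mul_C] at h8
    exact hy.2 (fun i => (a i + g * c i).coeff n) h8 i
  have h8 : a i = (a i + g * c i) - g * c i := by ring
  rw [h8]
  exact 𝔑.sub_mem (hMN h7) (𝔑.mul_mem_right _ hgN)

/-- Independence in the local ring of the affine line. -/
theorem loc_ind {r : ℕ} {y : Fin r → A} (hy : Ind y)
    (hspan : Ideal.span (Set.range y) = maximalIdeal A) (g : A[X]) (hg : g.Monic)
    (𝔑 : Ideal A[X]) [𝔑.IsPrime] (h𝔑 : 𝔑 = Ideal.span {g} ⊔ (maximalIdeal A).map C)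
    (hne : (maximalIdeal A).map C ≠ 𝔑) :
    Ind (fun i : Fin r ⊕ Unit => algebraMap A[X] (Localization.AtPrime 𝔑)
      (Sum.elim (fun i => C (y i)) (fun _ => g) i)) := by
  classical
  have hN : ∀ a : A[X], algebraMap A[X] (Localization.AtPrime 𝔑) a ∈
      maximalIdeal (Localization.AtPrime 𝔑) ↔ a ∈ 𝔑 := fun a =>
    IsLocalization.AtPrime.to_map_mem_maximal_iff _ 𝔑 a
  refine ⟨?_, ?_⟩
  · intro i
    rw [hN, h𝔑]
    rcases i with i | i
    · exact Ideal.mem_sup_right (Ideal.mem_map_of_mem _ (hy.1 i))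
    · exact Ideal.mem_sup_left (Ideal.mem_span_singleton_self g)
  · intro c hc
    obtain ⟨s, hs⟩ := IsLocalization.exist_integer_multiples_of_finite 𝔑.primeCompl c
    choose a ha using hs
    have hsu : IsUnit (algebraMap A[X] (Localization.AtPrime 𝔑) (s : A[X])) :=
      IsLocalization.map_units _ s
    have h1 : algebraMap A[X] (Localization.AtPrime 𝔑)
        (∑ i, a (Sum.inl i) * C (y i) + a (Sum.inr ()) * g) ∈
        maximalIdeal (Localization.AtPrime 𝔑) ^ 2 := by
      have h2 : algebraMap A[X] (Localization.AtPrime 𝔑)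
          (∑ i, a (Sum.inl i) * C (y i) + a (Sum.inr ()) * g) =
          algebraMap A[X] (Localization.AtPrime 𝔑) (s : A[X]) * ∑ i, c i *
            algebraMap A[X] (Localization.AtPrime 𝔑)
              (Sum.elim (fun i => C (y i)) (fun _ => g) i) := by
        rw [map_add, map_sum, Finset.mul_sum, Fintype.sum_sum_type,
          Fintype.sum_unique (ι := Unit)]
        congr 1
        · refine Finset.sum_congr rfl fun i _ => ?_
          rw [map_mul, ha (Sum.inl i), Algebra.smul_def, mul_assoc]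
          rfl
        · rw [map_mul, ha (Sum.inr ()), Algebra.smul_def, mul_assoc]
          rfl
      rw [h2]
      exact Ideal.mul_mem_left _ _ hc
    rw [← Localization.AtPrime.map_eq_maximalIdeal, ← Ideal.map_pow,
      IsLocalization.mem_map_algebraMap_iff 𝔑.primeCompl] at h1
    obtain ⟨⟨⟨p, hp⟩, ⟨t, ht⟩⟩, h3⟩ := h1
    have h3' : algebraMap A[X] (Localization.AtPrime 𝔑)
        ((∑ i, a (Sum.inl i) * C (y i) + a (Sum.inr ()) * g) * t) =
        algebraMap A[X] (Localization.AtPrime 𝔑) p := by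
      rw [map_mul]; exact h3
    obtain ⟨⟨t', ht'⟩, h4⟩ := (IsLocalization.eq_iff_exists 𝔑.primeCompl _).1 h3'
    have h5 : ∑ i, (t' * t * a (Sum.inl i)) * C (y i) + (t' * t * a (Sum.inr ())) * g ∈
        𝔑 ^ 2 := by
      have h6 : ∑ i, (t' * t * a (Sum.inl i)) * C (y i) + (t' * t * a (Sum.inr ())) * g =
          t' * ((∑ i, a (Sum.inl i) * C (y i) + a (Sum.inr ()) * g) * t) := by
        have h7 : ∑ i, (t' * t * a (Sum.inl i)) * C (y i) =
            t' * t * ∑ i, a (Sum.inl i) * C (y i) := by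
          rw [Finset.mul_sum]
          exact Finset.sum_congr rfl fun i _ => by ring
        rw [h7]
        ring
      rw [h6]
      have h8 : t' * ((∑ i, a (Sum.inl i) * C (y i) + a (Sum.inr ()) * g) * t) = t' * p := h4
      rw [h8]
      exact Ideal.mul_mem_left _ _ hp
    obtain ⟨h6, h7⟩ := poly_indep hy hspan g hg 𝔑 h𝔑 hne _ _ h5
    have htt : t' * t ∉ 𝔑 := by
      intro h8
      rcases (inferInstance : 𝔑.IsPrime).mem_or_mem h8 with h | h
      · exact ht' h
      · exact ht h
    have h8 : ∀ i, a i ∈ 𝔑 := by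
      rintro (i | i)
      · exact ((inferInstance : 𝔑.IsPrime).mem_or_mem (h6 i)).resolve_left htt
      · exact ((inferInstance : 𝔑.IsPrime).mem_or_mem h7).resolve_left htt
    intro i
    have h9 := (hN _).2 (h8 i)
    rw [ha i, Algebra.smul_def] at h9
    exact (Ideal.unit_mul_mem_iff_mem _ hsu).1 h9

end poly

lemma ind_card_le {B : Type} [CommRing B] [IsLocalRing B] [IsNoetherianRing B] {ι : Type}
    [Fintype ι] {z : ι → B} (hz : Ind z) :
    Fintype.card ι ≤ Module.finrank (ResidueField B) (CotangentSpace B) :=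
  ((ind_iff hz.1).1 hz).fintype_card_le_finrank

/-- Descent of regularity. -/
theorem desc {A C' : Type} [CommRing A] [IsLocalRing A] [IsNoetherianRing A] [CommRing C']
    [IsRegularLocalRing C'] (ψ : A[X] →+* C') (P : A[X]) (hP : P.Monic) (hP0 : ψ P = 0)
    (hker : ∀ g, ψ g = 0 → P ∣ g) (hsurj : ∀ c : C', ∃ g s, IsUnit (ψ s) ∧ c * ψ s = ψ g)
    (hloc : ∀ a : A, IsUnit (ψ (C a)) → IsUnit a) : IsRegularLocalRing A := by
  classical
  let 𝔑 : Ideal A[X] := (maximalIdeal C').comap ψ
  have hNp : 𝔑.IsPrime := Ideal.comap_isPrime _ _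
  have hcomap : 𝔑.comap C = maximalIdeal A := by
    ext a
    rw [Ideal.mem_comap, Ideal.mem_comap, mem_maximalIdeal, mem_nonunits_iff, mem_maximalIdeal,
      mem_nonunits_iff, not_iff_not]
    exact ⟨hloc a, fun h => (h.map C).map ψ⟩
  have hPN : P ∈ 𝔑 := by
    change ψ P ∈ maximalIdeal C'
    rw [hP0]
    exact Ideal.zero_mem _
  have hne : 𝔑 ≠ (maximalIdeal A).map C := by
    intro h
    rw [h, mem_map_C] at hPN
    have h1 := hPN P.natDegree
    rw [hP.coeff_natDegree] at h1
    exact (maximalIdeal.isMaximal A).ne_top ((Ideal.eq_top_iff_one _).2 h1)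
  obtain ⟨g, hg, hgN⟩ := Polynomial.exists_monic_span_sup_map_eq A 𝔑
    (by rw [hcomap]; infer_instance) (by rw [hcomap]; exact hne)
  rw [hcomap, sup_comm] at hgN
  obtain ⟨y, hy, hyspan⟩ := exists_min_gens (A := A)
  have hind := loc_ind hy hyspan g hg 𝔑 hgN (Ne.symm hne)
  let R := Localization.AtPrime 𝔑
  have hcard := ind_card_le hind
  rw [Fintype.card_sum, Fintype.card_unit, Fintype.card_fin] at hcard
  -- the map to `C'`
  let θ : R →+* C' := IsLocalization.lift (M := 𝔑.primeCompl) (g := ψ) (by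
    rintro ⟨s, hs⟩
    by_contra h
    apply hs
    change ψ s ∈ maximalIdeal C'
    exact (mem_maximalIdeal _).2 h)
  have hθ : ∀ a, θ (algebraMap A[X] R a) = ψ a := fun a => IsLocalization.lift_eq _ _
  have hθs : Function.Surjective θ := by
    intro c
    obtain ⟨a, s, hs, hc⟩ := hsurj c
    have hs' : s ∉ 𝔑 := by
      intro h
      exact (mem_nonunits_iff.1 ((mem_maximalIdeal _).1 h)) hs
    refine ⟨IsLocalization.mk' R a (⟨s, hs'⟩ : 𝔑.primeCompl), ?_⟩
    have h1 : θ (IsLocalization.mk' R a (⟨s, hs'⟩ : 𝔑.primeCompl)) * ψ s = ψ a := by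
      rw [← hθ, ← hθ, ← map_mul]
      congr 1
      exact IsLocalization.mk'_spec R a (⟨s, hs'⟩ : 𝔑.primeCompl)
    rw [← hc] at h1
    exact hs.mul_right_cancel h1
  have hθk : ∀ x, θ x = 0 → ∃ w, x = w * algebraMap A[X] R P := by
    intro x hx
    obtain ⟨⟨a, s⟩, hs⟩ := IsLocalization.surj 𝔑.primeCompl x
    have h1 : ψ a = 0 := by
      rw [← hθ, ← hs, map_mul, hx, zero_mul]
    obtain ⟨b, rfl⟩ := hker a h1
    have hsu : IsUnit (algebraMap A[X] R (s : A[X])) := IsLocalization.map_units _ s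
    obtain ⟨v, hv⟩ := isUnit_iff_exists_inv.1 hsu
    refine ⟨algebraMap A[X] R b * v, ?_⟩
    have h2 : x = x * algebraMap A[X] R (s : A[X]) * v := by
      rw [mul_assoc, hv, mul_one]
    rw [h2, hs, map_mul]
    ring
  -- the maximal ideal of `R`
  let d := Module.finrank (ResidueField C') (CotangentSpace C')
  obtain ⟨w, -, hw⟩ := exists_min_gens (A := C')
  choose w' hw' using fun i => hθs (w i)
  have hmaxθ : ∀ x : R, x ∈ maximalIdeal R ↔ θ x ∈ maximalIdeal C' := by
    intro x
    rw [mem_maximalIdeal, mem_nonunits_iff, mem_maximalIdeal, mem_nonunits_iff, not_iff_not]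
    refine ⟨fun h => h.map θ, fun h => ?_⟩
    obtain ⟨⟨a, s⟩, hs⟩ := IsLocalization.surj 𝔑.primeCompl x
    have hsu : IsUnit (algebraMap A[X] R (s : A[X])) := IsLocalization.map_units _ s
    have h1 : IsUnit (ψ a) := by
      rw [← hθ, ← hs, map_mul]
      exact h.mul (hsu.map θ)
    have h2 : a ∉ 𝔑 := fun h2 => (mem_nonunits_iff.1 ((mem_maximalIdeal _).1 h2)) h1
    have h3 : IsUnit (algebraMap A[X] R a) := IsLocalization.map_units _ (⟨a, h2⟩ : 𝔑.primeCompl)
    rw [← hs] at h3
    exact isUnit_of_mul_isUnit_left h3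
  have hgen : maximalIdeal R = Ideal.span (Set.range (Sum.elim w' (fun _ : Unit =>
      algebraMap A[X] R P))) := by
    apply le_antisymm
    · intro x hx
      have h1 := (hmaxθ x).1 hx
      rw [← hw, Ideal.mem_span_range_iff_exists_fun] at h1
      obtain ⟨c, hc⟩ := h1
      choose c' hc' using fun i => hθs (c i)
      have h2 : θ (x - ∑ i, c' i * w' i) = 0 := by
        rw [map_sub, map_sum, ← hc, sub_eq_zero]
        exact Finset.sum_congr rfl fun i _ => by rw [map_mul, hc', hw']
      obtain ⟨v, hv⟩ := hθk _ h2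
      have h3 : x = ∑ i, c' i * w' i + v * algebraMap A[X] R P := by
        rw [← hv]; ring
      rw [h3]
      refine Ideal.add_mem _ (Ideal.sum_mem _ fun i _ => Ideal.mul_mem_left _ _
        (Ideal.subset_span ⟨Sum.inl i, rfl⟩)) (Ideal.mul_mem_left _ _
        (Ideal.subset_span ⟨Sum.inr (), rfl⟩))
    · rw [Ideal.span_le]
      rintro _ ⟨i | i, rfl⟩
      · rw [SetLike.mem_coe, hmaxθ]
        change θ (w' i) ∈ _
        rw [hw', ← hw]
        exact Ideal.subset_span ⟨i, rfl⟩
      · rw [SetLike.mem_coe, hmaxθ]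
        change θ (algebraMap A[X] R P) ∈ _
        rw [hθ, hP0]
        exact Ideal.zero_mem _
  have hRle : Module.finrank (ResidueField R) (CotangentSpace R) ≤ d + 1 := by
    rw [← spanFinrank_maximalIdeal_eq_finrank_cotangentSpace, hgen]
    refine (Submodule.spanFinrank_span_le_ncard_of_finite (Set.finite_range _)).trans ?_
    rw [← Set.image_univ]
    refine (Set.ncard_image_le Set.finite_univ).trans ?_
    rw [Set.ncard_univ, Nat.card_eq_fintype_card, Fintype.card_sum, Fintype.card_unit,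
      Fintype.card_fin]
  have hAd : Module.finrank (ResidueField A) (CotangentSpace A) ≤ d :=
    Nat.le_of_succ_le_succ (hcard.trans hRle)
  -- dimensions
  have hdim : ringKrullDim C' ≤ ringKrullDim A := by
    have hPnz : algebraMap A[X] R P ∈ nonZeroDivisors R := by
      refine IsLocalization.map_nonZeroDivisors_le 𝔑.primeCompl R ?_
      exact ⟨P, hP.mem_nonZeroDivisors, rfl⟩
    have h1 := ringKrullDim_quotient_succ_le_of_nonZeroDivisor hPnz
    have hk : RingHom.ker θ = Ideal.span {algebraMap A[X] R P} := by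
      apply le_antisymm
      · intro x hx
        obtain ⟨w, hw⟩ := hθk x hx
        rw [hw]
        exact Ideal.mul_mem_left _ _ (Ideal.mem_span_singleton_self _)
      · rw [Ideal.span_singleton_le_iff_mem, RingHom.mem_ker, hθ, hP0]
    have h2 : ringKrullDim (R ⧸ Ideal.span {algebraMap A[X] R P}) = ringKrullDim C' := by
      rw [← hk]
      exact ringKrullDim_eq_of_ringEquiv (RingHom.quotientKerEquivOfSurjective hθs)
    rw [h2] at h1
    have h3 : ringKrullDim R ≤ ringKrullDim A + 1 := by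
      rw [← Polynomial.ringKrullDim_of_isNoetherianRing]
      rw [IsLocalization.AtPrime.ringKrullDim_eq_height 𝔑 R]
      exact Ideal.height_le_ringKrullDim_of_ne_top hNp.ne_top
    have h4 := h1.trans h3
    have h5 : ringKrullDim C' = ((d : ℕ) : WithBot ℕ∞) :=
      (Pool.Agent.H379R3.finrank_cotangent (B := C')).symm
    obtain ⟨e, he⟩ : ∃ e : ℕ, ringKrullDim A = ((e : ℕ) : WithBot ℕ∞) := by
      have h6 : ringKrullDim A ≠ ⊤ := ringKrullDim_ne_top
      have h7 : (0 : WithBot ℕ∞) ≤ ringKrullDim A := ringKrullDim_nonneg_of_nontrivial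
      generalize ringKrullDim A = x at h6 h7
      induction x with
      | bot => simp at h7
      | coe x =>
        induction x with
        | top => exact absurd rfl h6
        | coe n => exact ⟨n, rfl⟩
    rw [h5, he] at h4 ⊢
    have h6 : d + 1 ≤ e + 1 := by exact_mod_cast h4
    have h7 : d ≤ e := by omega
    exact_mod_cast h7
  apply IsRegularLocalRing.of_spanFinrank_maximalIdeal_le
  rw [spanFinrank_maximalIdeal_eq_finrank_cotangentSpace]
  refine le_trans ?_ hdim
  rw [← Pool.Agent.H379R3.finrank_cotangent (B := C')]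
  exact_mod_cast hAd

end Pool.Agent.Y223.INV
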