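import Pool.Agent.Y223.INV.Stat

/-!
# Regular proper models of quotients by involutions
-/

set_option autoImplicit false
set_option linter.unusedVariables false
set_option linter.unusedSectionVars false

namespace Pool.Agent.Y223.INV

open IsLocalRing Pool.Agent.TH188.QS Pool.Agent.TH188.ARC Pool.Agent.W418.LU2
  Pool.Agent.H918R2.Quad Polynomial AlgebraicGeometry CategoryTheory

section

variable {O K : Type} [CommRing O] [Field K] [Algebra O K]

/-- The ring of the chart. -/
def CR (O : Type) {K : Type} [CommRing O] [Field K] [Algebra O K] {ι : Type} (H : ι → K) (j : ι) :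
    Subring K :=
  (Algebra.adjoin O (Set.range fun l => H l / H j)).toSubring

lemma chart_span {ι : Type} (H : ι → K) (j : ι) :
    (chart O (Submodule.span O (Set.range H)) (H j)).toSubring = CR O H j := by
  have h1 : chart O (Submodule.span O (Set.range H)) (H j) =
      Algebra.adjoin O (Set.range fun l => H l / H j) := by
    apply le_antisymm
    · refine Algebra.adjoin_le ?_
      rintro _ ⟨x, hx, rfl⟩
      induction hx using Submodule.span_induction with
      | mem x hx =>
        obtain ⟨l, rfl⟩ := hx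
        exact Algebra.subset_adjoin ⟨l, rfl⟩
      | zero =>
        rw [SetLike.mem_coe, zero_div]
        exact Subalgebra.zero_mem _
      | add a b _ _ ha hb =>
        rw [SetLike.mem_coe, add_div]
        exact Subalgebra.add_mem _ ha hb
      | smul r a _ ha =>
        rw [SetLike.mem_coe, Algebra.smul_def, mul_div_assoc]
        exact Subalgebra.mul_mem _ (Subalgebra.algebraMap_mem _ r) ha
    · refine Algebra.adjoin_le ?_
      rintro _ ⟨l, rfl⟩
      exact Algebra.subset_adjoin ⟨H l, Submodule.subset_span ⟨l, rfl⟩, rfl⟩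
  rw [h1]
  rfl

/-- The ideal of the centre. -/
def IA {O K : Type} [CommRing O] [Field K] [Algebra O K] (I : Submodule O K) (h : K)
    (R : Subring K) : Ideal R :=
  Ideal.span {y : R | ∃ n ∈ I, (y : K) = n / h}

/-- The conditions at a point. -/
def PC (σ : K ≃ₐ[O] K) (R : Subring K) (I : Ideal R) : Prop :=
  (I = ⊤ ∨ IsRegularLocalRing (R ⧸ I)) ∧
    (¬ IsUnit (2 : R) → IsFixed σ R →
      (I = ⊤ → RegularWild σ R) ∧ (I ≠ ⊤ → NondegenerateWild σ R I))

theorem inv_module [IsDomain O] [IsNoetherianRing O] {F : Type} [Field F] [Algebra O F]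
    [Algebra F K] [IsScalarTower O F K] (hO : Function.Injective (algebraMap O K))
    {ι : Type} [Finite ι] [Nonempty ι]
    (H : ι → K) (hH : ∀ j, H j ≠ 0) (hreg : ∀ j, IsRegularRing (CR O H j))
    (j₀ : ι) (hfrac : Subfield.closure (CR O H j₀ : Set K) = ⊤)
    (σ : K ≃ₐ[O] K) (hσ : ∀ x, σ (σ x) = x) (hσ1 : ∃ x, σ x ≠ x)
    (hσH : ∀ j, σ (H j) ∈ Submodule.span O (Set.range H))
    (I : Submodule O K) (hI : I ≤ Submodule.span O (Set.range H)) (hI0 : I ≠ ⊥)
    (hσI : ∀ x ∈ I, σ x ∈ I)
    (hpt : ∀ j (𝔮 : Ideal (CR O H j)) [𝔮.IsPrime], PC σ (LocalSubring.ofPrime (CR O H j) 𝔮).toSubring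
      (IA I (H j) (LocalSubring.ofPrime (CR O H j) 𝔮).toSubring))
    (hF : ∀ x, σ x = x ↔ ∃ f : F, algebraMap F K f = x) : HasModule O F := by
  classical
  set M := Submodule.span O (Set.range H) with hM
  have hMfg : M.FG := by
    rw [hM]
    exact Submodule.fg_span (Set.finite_range H)
  have hIfg : I.FG := fg_of_le hI hMfg
  have hI0' : ∃ a ∈ I, a ≠ 0 := I.ne_bot_iff.1 hI0
  have hcl₀ : Subfield.closure (chart O M (H j₀) : Set K) = ⊤ := by
    rw [← hfrac, ← chart_span]
    rfl
  have hHM : ∀ j, H j ∈ M := fun j => Submodule.subset_span ⟨j, rfl⟩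
  have hsM : ∀ x ∈ M, σ x ∈ M := by
    intro x hx
    induction hx using Submodule.span_induction with
    | mem x hx =>
      obtain ⟨l, rfl⟩ := hx
      exact hσH l
    | zero => rw [map_zero]; exact Submodule.zero_mem _
    | add a b _ _ ha hb => rw [map_add]; exact Submodule.add_mem _ ha hb
    | smul r a _ ha => rw [map_smul]; exact Submodule.smul_mem _ r ha
  -- fractions fixed by `σ`
  have hnot : ∀ (L : Subfield K), (∀ x ∈ L, σ x = x) → L ≠ ⊤ := by
    rintro L hL rfl
    obtain ⟨x, hx⟩ := hσ1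
    exact hx (hL x trivial)
  have hne : ∃ x ∈ M, σ (x / H j₀) ≠ x / H j₀ := by
    by_contra hcon
    push Not at hcon
    let L : Subfield K := (RingHom.eqLocusField (σ : K →+* K) (RingHom.id K))
    have hL : ∀ x, x ∈ L ↔ σ x = x := fun x => Iff.rfl
    refine hnot L (fun x hx => (hL x).1 hx) ?_
    rw [← top_le_iff, ← hcl₀, Subfield.closure_le]
    intro x hx
    induction hx using Algebra.adjoin_induction with
    | mem x hx =>
      obtain ⟨a, ha, rfl⟩ := hx
      exact (hL _).2 (hcon a ha)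
    | algebraMap r => exact (hL _).2 (σ.commutes r)
    | add x y _ _ hx hy => exact L.add_mem hx hy
    | mul x y _ _ hx hy => exact L.mul_mem hx hy
  refine inv_hasModule σ hσ hF hMfg hIfg hsM hσI hI hI0' ?_ ?_ ?_
  · obtain ⟨x, hx, hxσ⟩ := hne
    refine ⟨x, hx, H j₀, hHM j₀, ?_⟩
    intro h
    apply hxσ
    have h1 : σ (H j₀) ≠ 0 := fun h => hH j₀ ((map_eq_zero σ).1 h)
    rw [wd, sub_eq_zero] at h
    rw [map_div₀, div_eq_div_iff h1 (hH j₀)]
    exact h
  · intro m hm hm0
    refine closure_chart (D := 1) (M := M) (m := H j₀) hO (hHM j₀) (hH j₀) hcl₀ le_rfl ?_ m hm0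
    intro y hy
    rw [pow_one] at hy
    exact ⟨1, one_ne_zero, by rwa [one_smul]⟩
  · intro W hOW
    obtain ⟨j, hj⟩ := Finite.exists_max (fun i => W.valuation (H i))
    have hMW : ∀ x ∈ M, x / H j ∈ W := by
      intro x hx
      induction hx using Submodule.span_induction with
      | mem x hx =>
        obtain ⟨l, rfl⟩ := hx
        rw [← W.valuation_le_one_iff, map_div₀]
        exact div_le_one_of_le₀ (hj l) zero_le
      | zero => rw [zero_div]; exact W.zero_mem
      | add a b _ _ ha hb => rw [add_div]; exact W.add_mem _ _ ha hb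
      | smul r a _ ha =>
        rw [Algebra.smul_def, mul_div_assoc]
        exact W.mul_mem _ _ (hOW r) ha
    refine ⟨H j, hHM j, hH j, hMW, ?_⟩
    have hcW : CR O H j ≤ W.toSubring := by
      rw [← chart_span]
      exact chart_le_V hOW hMW
    let φ : CR O H j →+* W := (CR O H j).subtype.codRestrict W fun x => hcW x.2
    let P : Ideal (CR O H j) := (maximalIdeal W).comap φ
    have hP : P.IsPrime := Ideal.comap_isPrime _ _
    have hPN : ∀ a : CR O H j, a ∈ P ↔ NU W.toSubring (a : K) := by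
      intro a
      have h1 : a ∈ P ↔ φ a ∈ maximalIdeal W := Iff.rfl
      rw [h1, mem_maximalIdeal, mem_nonunits_iff, NU, not_iff_not]
      constructor
      · intro h
        obtain ⟨y, hy⟩ := isUnit_iff_exists_inv.1 h
        have h2 : (a : K) * y = 1 := congrArg Subtype.val hy
        refine ⟨left_ne_zero_of_mul_eq_one h2, ?_⟩
        rw [← eq_inv_of_mul_eq_one_right h2]
        exact y.2
      · rintro ⟨h2, h3⟩
        exact isUnit_iff_exists_inv.2 ⟨⟨_, h3⟩, Subtype.ext (mul_inv_cancel₀ h2)⟩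
    have hR := ofPrime_eq_lo hcW P hPN
    have hpt' := hpt j P
    have hregR : IsRegularLocalRing (LocalSubring.ofPrime (CR O H j) P).toSubring := by
      have := hreg j
      exact IsRegularLocalRing.of_ringEquiv
        (LocalSubring.ofPrimeEquiv (CR O H j) P).toRingEquiv
    rw [chart_span]
    rw [hR] at hpt' hregR
    obtain ⟨hZ, hfix⟩ := hpt'
    have hQW : lo W.toSubring (CR O H j) ≤ W.toSubring := lo_le hcW
    refine cond_of hQW (ic_lo hcW) hregR ?_ hI0' (hH j) rfl hσ ?_ hZ
      (fun h1 h2 => (hfix h1 h2).1) (fun h1 h2 => (hfix h1 h2).2)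
    · intro n hn
      refine le_lo _ _ ?_
      rw [← chart_span]
      exact Algebra.subset_adjoin ⟨n, hI hn, rfl⟩
    · by_contra hcon
      push Not at hcon
      obtain ⟨x, hx, hxσ⟩ := hne
      apply hxσ
      have h1 : ∀ y ∈ M, σ (y / H j) = y / H j := by
        intro y hy
        refine hcon _ (le_lo _ _ ?_)
        rw [← chart_span]
        exact Algebra.subset_adjoin ⟨y, hy, rfl⟩
      have h2 : x / H j₀ = (x / H j) / (H j₀ / H j) := by
        have := hH j
        have := hH j₀
        field_simp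
      rw [h2, map_div₀, h1 x hx, h1 _ (hHM j₀)]

end

/-- Regular proper models of the quotients by involutions. -/
theorem inv_final {O K : Type} [CommRing O] [IsDomain O] [Module.Finite ℤ O] [Field K]
    [Algebra O K] (hO : Function.Injective (algebraMap O K)) {ι : Type} [Finite ι] [Nonempty ι]
    (H : ι → K) (hH : ∀ j, H j ≠ 0) (hreg : ∀ j, IsRegularRing (CR O H j))
    (j₀ : ι) (hfrac : Subfield.closure (CR O H j₀ : Set K) = ⊤)
    (σ : K ≃ₐ[O] K) (hσ : ∀ x, σ (σ x) = x) (hσ1 : ∃ x, σ x ≠ x)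
    (hσH : ∀ j, σ (H j) ∈ Submodule.span O (Set.range H))
    (I : Submodule O K) (hI : I ≤ Submodule.span O (Set.range H)) (hI0 : I ≠ ⊥)
    (hσI : ∀ x ∈ I, σ x ∈ I)
    (hpt : ∀ j (𝔮 : Ideal (CR O H j)) [𝔮.IsPrime], PC σ (LocalSubring.ofPrime (CR O H j) 𝔮).toSubring
      (IA I (H j) (LocalSubring.ofPrime (CR O H j) 𝔮).toSubring))
    (F : Subfield K) (hF : ∀ x, x ∈ F ↔ σ x = x) {Y : Type} [Field Y] (i : Y ≃+* F) :
    ∃ (X' : Scheme.{0}) (_ : IsIntegral X') (g : X' ⟶ Spec (CommRingCat.of ℤ)),
      IsProper g ∧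
      (∀ x : X',
        (((Module.finrank (IsLocalRing.ResidueField (X'.presheaf.stalk x))
            (IsLocalRing.CotangentSpace (X'.presheaf.stalk x)) : ℕ∞)) : WithBot ℕ∞)
          = ringKrullDim (X'.presheaf.stalk x)) ∧
      Nonempty (X'.functionField ≃+* Y) := by
  have : IsNoetherianRing O := isNoetherian_of_isNoetherianRing_of_finite ℤ O |> fun h =>
    isNoetherianRing_iff.2 (isNoetherian_of_tower ℤ h)
  let ρ : O →+* F := (algebraMap O K).codRestrict F fun o => (hF _).2 (σ.commutes o)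
  let _ : Algebra O F := ρ.toAlgebra
  have hst : IsScalarTower O F K := IsScalarTower.of_algebraMap_eq fun o => rfl
  have hinj : Function.Injective (algebraMap O F) := by
    intro a b hab
    exact hO (congrArg (Subtype.val : F → K) hab)
  have hM : HasModule O F := by
    refine inv_module (F := F) hO H hH hreg j₀ hfrac σ hσ hσ1 hσH I hI hI0 hσI hpt ?_
    intro x
    rw [← hF]
    constructor
    · intro hx
      exact ⟨⟨x, hx⟩, rfl⟩
    · rintro ⟨f, rfl⟩
      exact f.2
  obtain ⟨X', hX', g, hg, hreg', ⟨i'⟩⟩ := model_of_hasModule hinj hM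
  exact ⟨X', hX', g, hg, hreg', ⟨i'.trans i.symm⟩⟩

end Pool.Agent.Y223.INV
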