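import Pool.Agent.Y223.INV.CGlob2

/-!
# The module of the quotient by an involution: conditions at the primes of the charts
-/

set_option autoImplicit false
set_option linter.unusedVariables false
set_option linter.unusedSectionVars false

namespace Pool.Agent.Y223.INV

open IsLocalRing Pool.Agent.TH188.QS Pool.Agent.TH188.ARC Pool.Agent.W418.LU2
  Pool.Agent.H918R2.Quad Polynomial

section

variable {O K : Type} [CommRing O] [Field K] [Algebra O K]

theorem inv_quot_H [IsDomain O] [IsNoetherianRing O] {F : Type} [Field F] [Algebra O F]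
    [Algebra F K] [IsScalarTower O F K]
    {ι : Type} [Finite ι] [Nonempty ι]
    (H : ι → K) (hH : ∀ j, H j ≠ 0) (hreg : ∀ j, IsRegularRing (CR O H j))
    (j₀ : ι)
    (σ : K ≃ₐ[O] K) (hσ : ∀ x, σ (σ x) = x)
    (hne : ∃ x ∈ Submodule.span O (Set.range H), σ (x / H j₀) ≠ x / H j₀)
    (hσH : ∀ j, σ (H j) ∈ Submodule.span O (Set.range H))
    (I : Submodule O K) (hI : I ≤ Submodule.span O (Set.range H)) (hI0 : I ≠ ⊥)
    (hσI : ∀ x ∈ I, σ x ∈ I)
    (hpt : ∀ j (𝔮 : Ideal (CR O H j)) [𝔮.IsPrime], PC σ (LocalSubring.ofPrime (CR O H j) 𝔮).toSubring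
      (IA I (H j) (LocalSubring.ofPrime (CR O H j) 𝔮).toSubring))
    (hF : ∀ x, σ x = x ↔ ∃ f : F, algebraMap F K f = x) :
    ∀ a ∈ Submodule.span O (Set.range H) * I, ∀ b ∈ Submodule.span O (Set.range H) * I,
      wd σ a b ≠ 0 →
      (VF F σ (Submodule.span O (Set.range H) * I) *
        WF F σ (Submodule.span O (Set.range H) * I) (wd σ a b)).FG ∧
      (∃ f ∈ VF F σ (Submodule.span O (Set.range H) * I) *
        WF F σ (Submodule.span O (Set.range H) * I) (wd σ a b), f ≠ 0) ∧
      ∀ f ∈ VF F σ (Submodule.span O (Set.range H) * I) *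
        WF F σ (Submodule.span O (Set.range H) * I) (wd σ a b), f ≠ 0 →
        ∀ (q : Ideal (chart O (VF F σ (Submodule.span O (Set.range H) * I) *
          WF F σ (Submodule.span O (Set.range H) * I) (wd σ a b)) f)) [q.IsPrime],
        IsRegularLocalRing (Localization.AtPrime q) := by
  classical
  set M := Submodule.span O (Set.range H) with hM
  have hMfg : M.FG := by
    rw [hM]
    exact Submodule.fg_span (Set.finite_range H)
  have hIfg : I.FG := fg_of_le hI hMfg
  have hI0' : ∃ a ∈ I, a ≠ 0 := I.ne_bot_iff.1 hI0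
  have hHM : ∀ j, H j ∈ M := fun j => Submodule.subset_span ⟨j, rfl⟩
  have hsM : ∀ x ∈ M, σ x ∈ M := by
    intro x hx
    induction hx using Submodule.span_induction with
    | mem x hx =>
      obtain ⟨l, rfl⟩ := hx
      exact hσH l
    | zero => rw [map_zero]; exact Submodule.zero_mem _
    | add a b _ _ ha hb => rw [map_add]; exact Submodule.add_mem _ ha hb
    | smul r a _ ha => rw [map_smul]; exact Submodule.smul_mem _ r ha
  refine inv_quot σ hσ hF hMfg hIfg hsM hσI hI hI0' ?_
  intro W hOW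
  obtain ⟨j, hj⟩ := Finite.exists_max (fun i => W.valuation (H i))
  have hMW : ∀ x ∈ M, x / H j ∈ W := by
    intro x hx
    induction hx using Submodule.span_induction with
    | mem x hx =>
      obtain ⟨l, rfl⟩ := hx
      rw [← W.valuation_le_one_iff, map_div₀]
      exact div_le_one_of_le₀ (hj l) zero_le
    | zero => rw [zero_div]; exact W.zero_mem
    | add a b _ _ ha hb => rw [add_div]; exact W.add_mem _ _ ha hb
    | smul r a _ ha =>
      rw [Algebra.smul_def, mul_div_assoc]
      exact W.mul_mem _ _ (hOW r) ha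
  refine ⟨H j, hHM j, hH j, hMW, ?_⟩
  have hcW : CR O H j ≤ W.toSubring := by
    rw [← chart_span]
    exact chart_le_V hOW hMW
  let φ : CR O H j →+* W := (CR O H j).subtype.codRestrict W fun x => hcW x.2
  let P : Ideal (CR O H j) := (maximalIdeal W).comap φ
  have hP : P.IsPrime := Ideal.comap_isPrime _ _
  have hPN : ∀ a : CR O H j, a ∈ P ↔ NU W.toSubring (a : K) := by
    intro a
    have h1 : a ∈ P ↔ φ a ∈ maximalIdeal W := Iff.rfl
    rw [h1, mem_maximalIdeal, mem_nonunits_iff, NU, not_iff_not]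
    constructor
    · intro h
      obtain ⟨y, hy⟩ := isUnit_iff_exists_inv.1 h
      have h2 : (a : K) * y = 1 := congrArg Subtype.val hy
      refine ⟨left_ne_zero_of_mul_eq_one h2, ?_⟩
      rw [← eq_inv_of_mul_eq_one_right h2]
      exact y.2
    · rintro ⟨h2, h3⟩
      exact isUnit_iff_exists_inv.2 ⟨⟨_, h3⟩, Subtype.ext (mul_inv_cancel₀ h2)⟩
  have hR := ofPrime_eq_lo hcW P hPN
  have hpt' := hpt j P
  have hregR : IsRegularLocalRing (LocalSubring.ofPrime (CR O H j) P).toSubring := by
    have := hreg j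
    exact IsRegularLocalRing.of_ringEquiv
      (LocalSubring.ofPrimeEquiv (CR O H j) P).toRingEquiv
  rw [chart_span]
  rw [hR] at hpt' hregR
  obtain ⟨hZ, hfix⟩ := hpt'
  have hQW : lo W.toSubring (CR O H j) ≤ W.toSubring := lo_le hcW
  refine cond_of hQW (ic_lo hcW) hregR ?_ hI0' (hH j) rfl hσ ?_ hZ
    (fun h1 h2 => (hfix h1 h2).1) (fun h1 h2 => (hfix h1 h2).2)
  · intro n hn
    refine le_lo _ _ ?_
    rw [← chart_span]
    exact Algebra.subset_adjoin ⟨n, hI hn, rfl⟩
  · by_contra hcon
    push Not at hcon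
    obtain ⟨x, hx, hxσ⟩ := hne
    apply hxσ
    have h1 : ∀ y ∈ M, σ (y / H j) = y / H j := by
      intro y hy
      refine hcon _ (le_lo _ _ ?_)
      rw [← chart_span]
      exact Algebra.subset_adjoin ⟨y, hy, rfl⟩
    have h2 : x / H j₀ = (x / H j) / (H j₀ / H j) := by
      have := hH j
      have := hH j₀
      field_simp
    rw [h2, map_div₀, h1 x hx, h1 _ (hHM j₀)]

end

end Pool.Agent.Y223.INV
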