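import Pool.Agent.W418.LU2.Ind

/-!
# The fixed scheme of an involution at a tame point
-/

set_option autoImplicit false
set_option linter.unusedVariables false
set_option linter.unusedSectionVars false

namespace Pool.Agent.Y223.INV

open IsLocalRing Pool.Agent.W418.LU2

/-- The intersection theorem. -/
lemma mem_of_forall {T : Type} [CommRing T] [IsLocalRing T] [IsNoetherianRing T] {I : Ideal T}
    (hI : I ≤ maximalIdeal T) {a : T} (h : ∀ n : ℕ, a ∈ I ⊔ maximalIdeal T ^ n) : a ∈ I := by
  have hne : I ≠ ⊤ := fun h1 => (maximalIdeal.isMaximal T).ne_top (top_le_iff.1 (h1 ▸ hI))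
  have hnt : Nontrivial (T ⧸ I) := Ideal.Quotient.nontrivial_iff.2 hne
  have hloc : IsLocalRing (T ⧸ I) :=
    IsLocalRing.of_surjective' (Ideal.Quotient.mk _) Ideal.Quotient.mk_surjective
  have h1 := Ideal.iInf_pow_eq_bot_of_isLocalRing (maximalIdeal (T ⧸ I))
    (maximalIdeal.isMaximal _).ne_top
  rw [← Ideal.Quotient.eq_zero_iff_mem, ← Ideal.mem_bot, ← h1, Ideal.mem_iInf]
  intro n
  obtain ⟨x, hx, y, hy, hxy⟩ := Submodule.mem_sup.1 (h n)
  rw [← hxy, map_add, Ideal.Quotient.eq_zero_iff_mem.2 hx, zero_add]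
  have h2 : (maximalIdeal T ^ n).map (Ideal.Quotient.mk I) ≤ maximalIdeal (T ⧸ I) ^ n := by
    rw [Ideal.map_pow]
    refine Ideal.pow_right_mono ?_ n
    rw [Ideal.map_le_iff_le_comap]
    intro z hz
    rw [Ideal.mem_comap, mem_maximalIdeal, mem_nonunits_iff]
    intro hu
    have h3 := isUnit_of_map_unit' (I := I) hI hu
    exact (mem_nonunits_iff.1 ((mem_maximalIdeal _).1 hz)) h3
  exact h2 (Ideal.mem_map_of_mem _ hy)
where
  isUnit_of_map_unit' {T : Type} [CommRing T] [IsLocalRing T] {I : Ideal T}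
      (hI : I ≤ maximalIdeal T) {z : T} (h : IsUnit (Ideal.Quotient.mk I z)) : IsUnit z := by
    obtain ⟨w, hw⟩ := isUnit_iff_exists_inv.1 h
    obtain ⟨w, rfl⟩ := Ideal.Quotient.mk_surjective w
    rw [← map_mul, ← map_one (Ideal.Quotient.mk I), Ideal.Quotient.eq] at hw
    by_contra hz
    have h1 : z * w ∈ maximalIdeal T := Ideal.mul_mem_right _ _ ((mem_maximalIdeal _).2 hz)
    have h2 : (1 : T) ∈ maximalIdeal T := by
      have := (maximalIdeal T).sub_mem h1 (hI hw)
      rwa [sub_sub_cancel] at this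
    exact (maximalIdeal.isMaximal T).ne_top ((Ideal.eq_top_iff_one _).2 h2)

section

variable {T : Type} [CommRing T] [IsLocalRing T] [IsNoetherianRing T]
  (τ : T → T) (t ε : T) (hadd : ∀ a b, τ (a + b) = τ a + τ b)
  (hmul : ∀ a b, τ (a * b) = τ a * b + a * τ b + t * (τ a * τ b))

include hadd hmul

lemma tau_zero : τ 0 = 0 := by
  have h := hadd 0 0
  rw [add_zero] at h
  exact left_eq_add.1 h

lemma tau_sum {ι : Type} (s : Finset ι) (f : ι → T) : τ (∑ i ∈ s, f i) = ∑ i ∈ s, τ (f i) := by
  classical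
  induction s using Finset.induction_on with
  | empty => exact tau_zero τ t hadd hmul
  | insert a s ha ih => rw [Finset.sum_insert ha, Finset.sum_insert ha, hadd, ih]

/-- A stable ideal. -/
lemma tau_stable {c : ℕ} (y : Fin c → T) (hy : ∀ i, τ (τ (y i)) = ε * τ (y i)) :
    ∀ a ∈ Ideal.span (Set.range fun i => τ (y i)), τ a ∈ Ideal.span (Set.range fun i => τ (y i)) := by
  intro a ha
  induction ha using Submodule.span_induction with
  | mem x hx =>
    obtain ⟨i, rfl⟩ := hx
    change τ (τ (y i)) ∈ _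
    rw [hy i]
    exact Ideal.mul_mem_left _ _ (Ideal.subset_span ⟨i, rfl⟩)
  | zero =>
    rw [tau_zero τ t hadd hmul]
    exact Ideal.zero_mem _
  | add x y _ _ hx hy =>
    rw [hadd]
    exact Ideal.add_mem _ hx hy
  | smul r x hx h =>
    rw [smul_eq_mul, hmul]
    refine Ideal.add_mem _ (Ideal.add_mem _ (Ideal.mul_mem_left _ _ hx) (Ideal.mul_mem_left _ _ h))
      (Ideal.mul_mem_left _ _ (Ideal.mul_mem_left _ _ h))

/-- The ideal generated by the image is generated by a part of a regular system of parameters. -/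
theorem exists_ind (hsq : ∀ a, τ (τ a) = ε * τ a) (hε : IsUnit ε)
    (hm : ∀ a, τ a ∈ maximalIdeal T) :
    ∃ (c : ℕ) (y : Fin c → T), Ind (fun i => τ (y i)) ∧
      ∀ a, τ a ∈ Ideal.span (Set.range fun i => τ (y i)) := by
  classical
  let f : T → CotangentSpace T := fun a => (maximalIdeal T).toCotangent ⟨τ a, hm a⟩
  obtain ⟨b, hb, hbs, hbl⟩ := exists_linearIndependent (ResidueField T) (Set.range f)
  have hfin : Finite b := hbl.finite
  obtain ⟨c, ⟨e⟩⟩ := Finite.exists_equiv_fin b
  have hy : ∀ i : Fin c, ∃ a, f a = (e.symm i : CotangentSpace T) := fun i => hb (e.symm i).2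
  choose y hy using hy
  have hind : Ind (fun i => τ (y i)) := by
    rw [ind_iff (fun i => hm (y i))]
    have h1 : (fun i => ((maximalIdeal T).toCotangent ⟨τ (y i), hm (y i)⟩ : CotangentSpace T)) =
        (fun x : b => (x : CotangentSpace T)) ∘ e.symm := funext fun i => hy i
    rw [h1]
    exact hbl.comp _ e.symm.injective
  set I := Ideal.span (Set.range fun i => τ (y i)) with hI
  have hIm : I ≤ maximalIdeal T := by
    rw [hI, Ideal.span_le]
    rintro _ ⟨i, rfl⟩
    exact hm _
  have hst := tau_stable τ t ε hadd hmul y fun i => hsq _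
  -- the second order
  have h2 : ∀ a, τ a ∈ I ⊔ maximalIdeal T ^ 2 := by
    intro a
    have h3 : f a ∈ Submodule.span (ResidueField T) (Set.range fun i => f (y i)) := by
      have h4 : Set.range (fun i => f (y i)) = b := by
        ext x
        constructor
        · rintro ⟨i, rfl⟩
          change f (y i) ∈ b
          rw [hy i]
          exact (e.symm i).2
        · intro hx
          refine ⟨e ⟨x, hx⟩, ?_⟩
          change f (y (e ⟨x, hx⟩)) = x
          rw [hy, Equiv.symm_apply_apply]
      rw [h4, hbs]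
      exact Submodule.subset_span ⟨a, rfl⟩
    rw [Submodule.mem_span_range_iff_exists_fun] at h3
    obtain ⟨g, hg⟩ := h3
    choose r hr using fun i => residue_surjective (R := T) (g i)
    have h5 : τ a - ∑ i, r i * τ (y i) ∈ maximalIdeal T ^ 2 := by
      have h6 : ((maximalIdeal T).toCotangent (⟨τ a, hm a⟩ -
          ∑ i, r i • (⟨τ (y i), hm (y i)⟩ : maximalIdeal T)) : CotangentSpace T) = 0 := by
        rw [map_sub, map_sum]
        have h7 : ∀ i, (maximalIdeal T).toCotangent (r i • (⟨τ (y i), hm (y i)⟩ : maximalIdeal T)) =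
            g i • f (y i) := by
          intro i
          rw [map_smul, ← hr i]
          rfl
        rw [Finset.sum_congr rfl fun i _ => h7 i, hg]
        exact sub_self _
      rw [Ideal.toCotangent_eq_zero] at h6
      have h8 : (((⟨τ a, hm a⟩ - ∑ i, r i • (⟨τ (y i), hm (y i)⟩ : maximalIdeal T) :
          maximalIdeal T)) : T) = τ a - ∑ i, r i * τ (y i) := by
        rw [AddSubgroupClass.coe_sub, AddSubmonoidClass.coe_finsetSum]
        rfl
      rwa [h8] at h6
    have h9 : ∑ i, r i * τ (y i) ∈ I := Ideal.sum_mem _ fun i _ =>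
      Ideal.mul_mem_left _ _ (Ideal.subset_span ⟨i, rfl⟩)
    have h10 : τ a = ∑ i, r i * τ (y i) + (τ a - ∑ i, r i * τ (y i)) := by ring
    rw [h10]
    exact Ideal.add_mem _ (Ideal.mem_sup_left h9) (Ideal.mem_sup_right h5)
  -- powers of the maximal ideal
  have h3 : ∀ n : ℕ, 1 ≤ n → ∀ a ∈ maximalIdeal T ^ n, τ a ∈ I ⊔ maximalIdeal T ^ (n + 1) := by
    intro n hn
    induction n, hn using Nat.le_induction with
    | base => exact fun a _ => h2 a
    | succ n hn ih =>
      intro a ha
      rw [pow_succ] at ha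
      refine Submodule.mul_induction_on ha ?_ ?_
      · intro a ha b hb
        rw [hmul]
        have h4 := ih a ha
        have h5 := h2 b
        have key : ∀ {u v : T} {p q : ℕ}, u ∈ I ⊔ maximalIdeal T ^ p → v ∈ maximalIdeal T ^ q →
            u * v ∈ I ⊔ maximalIdeal T ^ (p + q) := by
          intro u v p q hu hv
          obtain ⟨u1, hu1, u2, hu2, rfl⟩ := Submodule.mem_sup.1 hu
          rw [add_mul]
          refine Ideal.add_mem _ (Ideal.mem_sup_left (Ideal.mul_mem_right _ _ hu1))
            (Ideal.mem_sup_right ?_)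
          rw [pow_add]
          exact Ideal.mul_mem_mul hu2 hv
        refine Ideal.add_mem _ (Ideal.add_mem _ ?_ ?_) ?_
        · exact key (q := 1) h4 (by rwa [pow_one])
        · rw [mul_comm]
          have := key h5 ha
          rwa [add_comm 2 n] at this
        · exact Ideal.mul_mem_left _ _ (key (q := 1) h4 (by rw [pow_one]; exact hm b))
      · intro a b ha hb
        rw [hadd]
        exact Ideal.add_mem _ ha hb
  refine ⟨c, y, hind, fun a => ?_⟩
  apply mem_of_forall hIm
  have h4 : ∀ n : ℕ, ∀ a, τ a ∈ I ⊔ maximalIdeal T ^ (n + 1) := by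
    intro n
    induction n with
    | zero =>
      intro a
      rw [zero_add, pow_one]
      exact Ideal.mem_sup_right (hm a)
    | succ n ih =>
      intro a
      obtain ⟨i, hi, m, hm', him⟩ := Submodule.mem_sup.1 (ih a)
      have h5 : ε * τ a ∈ I ⊔ maximalIdeal T ^ (n + 1 + 1) := by
        rw [← hsq, ← him, hadd]
        exact Ideal.add_mem _ (Ideal.mem_sup_left (hst i hi)) (h3 (n + 1) (by omega) m hm')
      exact (Ideal.unit_mul_mem_iff_mem _ hε).1 h5
  intro n
  rcases n with _ | n
  · rw [pow_zero]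
    exact Ideal.mem_sup_right (by rw [Ideal.one_eq_top]; trivial)
  · exact h4 n a

end

end Pool.Agent.Y223.INV
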