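import Pool.Agent.Y223.INV.Quot
import Pool.Agent.H918R2.Quad.HasModule

/-!
# The module of the quotient by an involution
-/

set_option autoImplicit false
set_option linter.unusedVariables false
set_option linter.unusedSectionVars false

namespace Pool.Agent.Y223.INV

open IsLocalRing Pool.Agent.TH188.QS Pool.Agent.TH188.ARC Pool.Agent.W418.LU2
  Pool.Agent.H918R2.Quad Polynomial

/-- Extension of valuation rings. -/
theorem exists_ext {F K : Type} [Field F] [Field K] [Algebra F K] (W' : ValuationSubring F) :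
    ∃ W : ValuationSubring K, W.comap (algebraMap F K) = W' := by
  let B : Subring K := W'.toSubring.map (algebraMap F K)
  let e : W' →+* B := ((algebraMap F K).comp W'.subtype).codRestrict B fun x => ⟨x, x.2, rfl⟩
  have he : Function.Bijective e := by
    constructor
    · intro x y hxy
      exact Subtype.ext ((algebraMap F K).injective (congrArg Subtype.val hxy))
    · rintro ⟨_, x, hx, rfl⟩
      exact ⟨⟨x, hx⟩, rfl⟩
  let e' : W' ≃+* B := RingEquiv.ofBijective e he
  let q : Ideal B := (maximalIdeal W').comap (e'.symm : B →+* W')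
  have hq : q.IsPrime := Ideal.comap_isPrime _ _
  obtain ⟨W, hBW, hqW⟩ := Pool.Agent.Y223.CC.exists_val B q
  refine ⟨W, ?_⟩
  have key : ∀ x : W', W.valuation (algebraMap F K x) < 1 ↔ x ∈ maximalIdeal W' := by
    intro x
    have h1 := hqW (e' x)
    rw [← show ((e' x : B) : K) = algebraMap F K x from rfl, ← h1]
    change e'.symm (e' x) ∈ maximalIdeal W' ↔ _
    rw [RingEquiv.symm_apply_apply]
  ext x
  rw [ValuationSubring.mem_comap]
  constructor
  · intro hx
    by_contra hxW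
    have hx0 : x ≠ 0 := by
      rintro rfl
      exact hxW W'.zero_mem
    have h1 : x⁻¹ ∈ W' := (W'.mem_or_inv_mem x).resolve_left hxW
    have h2 : (⟨x⁻¹, h1⟩ : W') ∈ maximalIdeal W' := by
      rw [mem_maximalIdeal, mem_nonunits_iff]
      intro hu
      obtain ⟨y, hy⟩ := isUnit_iff_exists_inv.1 hu
      apply hxW
      have h3 : x⁻¹ * (y : F) = 1 := congrArg Subtype.val hy
      have h4 : x = y := by
        rw [← one_mul (y : F), ← mul_inv_cancel₀ hx0, mul_assoc, h3, mul_one]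
      rw [h4]
      exact y.2
    have h3 := (key _).2 h2
    rw [map_inv₀, map_inv₀] at h3
    have h4 := (W.valuation_le_one_iff _).2 hx
    have h5 : W.valuation (algebraMap F K x) ≠ 0 := by
      rw [Ne, map_eq_zero, map_eq_zero]
      exact hx0
    exact absurd h3 (not_lt.2 ((one_le_inv₀ (zero_lt_iff.2 h5)).2 h4))
  · intro hx
    exact hBW ⟨x, hx, rfl⟩

/-- The fields generated by the charts of commensurable modules. -/
theorem closure_chart {O K : Type} [CommRing O] [IsDomain O] [Field K] [Algebra O K]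
    (hO : Function.Injective (algebraMap O K)) {M M' : Submodule O K} {m : K} (hm : m ∈ M)
    (hm0 : m ≠ 0) (hM : Subfield.closure (chart O M m : Set K) = ⊤) {D : ℕ} (hD : 1 ≤ D)
    (hM' : ∀ y ∈ M ^ D, ∃ s : O, s ≠ 0 ∧ s • y ∈ M') (g : K) (hg0 : g ≠ 0) :
    Subfield.closure (chart O M' g : Set K) = ⊤ := by
  set L := Subfield.closure (chart O M' g : Set K) with hL
  have hRL : ∀ x ∈ chart O M' g, x ∈ L := fun x hx => Subfield.subset_closure hx
  have hOL : ∀ o, algebraMap O K o ∈ L := fun o => hRL _ (Subalgebra.algebraMap_mem _ o)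
  have hMD : ∀ x ∈ M ^ D, x / g ∈ L := by
    intro x hx
    obtain ⟨s, hs, hsx⟩ := hM' x hx
    have h1 : s • x / g ∈ L := hRL _ (Algebra.subset_adjoin ⟨_, hsx, rfl⟩)
    have hs0 : algebraMap O K s ≠ 0 := fun h => hs (hO (by rw [h, map_zero]))
    have h2 : x / g = (algebraMap O K s)⁻¹ * (s • x / g) := by
      rw [Algebra.smul_def, mul_div_assoc, ← mul_assoc, inv_mul_cancel₀ hs0, one_mul]
    rw [h2]
    exact L.mul_mem (L.inv_mem (hOL s)) h1
  have hMm : ∀ x ∈ M, x / m ∈ L := by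
    intro x hx
    obtain ⟨D', rfl⟩ : ∃ D', D = D' + 1 := ⟨D - 1, by omega⟩
    have h1 : x * m ^ D' ∈ M ^ (D' + 1) := by
      rw [pow_succ']
      exact Submodule.mul_mem_mul hx (Submodule.pow_mem_pow _ hm D')
    have h2 : m ^ (D' + 1) ∈ M ^ (D' + 1) := Submodule.pow_mem_pow _ hm _
    have h3 : x / m = (x * m ^ D' / g) / (m ^ (D' + 1) / g) := by
      rw [pow_succ]
      field_simp
    rw [h3]
    exact L.div_mem (hMD _ h1) (hMD _ h2)
  have h1 : chart O M m ≤ { L with algebraMap_mem' := hOL } := by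
    refine Algebra.adjoin_le ?_
    rintro _ ⟨x, hx, rfl⟩
    exact hMm x hx
  rw [← top_le_iff, ← hM, Subfield.closure_le]
  exact fun x hx => h1 hx

/-- Fractions. -/
lemma exists_frac {O F : Type} [CommRing O] [Field F] [Algebra O F] {R : Subalgebra O F}
    (h : Subfield.closure (R : Set F) = ⊤) (y : F) : ∃ b ∈ R, ∃ c ∈ R, c ≠ 0 ∧ y = b / c := by
  have hy : y ∈ Subfield.closure (R : Set F) := by rw [h]; trivial
  obtain ⟨b, hb, c, hc, hbc⟩ := Subfield.mem_closure_iff.1 hy
  have hcl : ∀ x ∈ Subring.closure (R : Set F), x ∈ R := by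
    intro x hx
    have h1 : Subring.closure (R : Set F) ≤ R.toSubring := Subring.closure_le.2 fun x hx => hx
    exact h1 hx
  by_cases hc0 : c = 0
  · refine ⟨0, Subalgebra.zero_mem _, 1, Subalgebra.one_mem _, one_ne_zero, ?_⟩
    rw [← hbc, hc0, div_zero, zero_div]
  · exact ⟨b, hcl b hb, c, hcl c hc, hc0, hbc.symm⟩

section

variable {O F K : Type} [CommRing O] [Field F] [Field K] [Algebra O F] [Algebra O K]
  [Algebra F K] [IsScalarTower O F K] {σ : K ≃ₐ[O] K} {M : Submodule O K} {w₀ : K}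
  {W : ValuationSubring K} {Q : Subring K} {m a₀ : K} {vF wF : F}

/-- The field generated by the chart of the quotient. -/
theorem Dat.closure (D : Dat σ M w₀ W Q m a₀ vF wF)
    (hM : Subfield.closure (chart O M m : Set K) = ⊤) (g : F)
    (hg : g ∈ VF F σ M * WF F σ M w₀) (hg0 : g ≠ 0) :
    Subfield.closure (chart O (VF F σ M * WF F σ M w₀) g : Set F) = ⊤ := by
  set L := Subfield.closure (chart O (VF F σ M * WF F σ M w₀) g : Set F) with hL
  have hRL : ∀ x ∈ chart O (VF F σ M * WF F σ M w₀) g, x ∈ L :=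
    fun x hx => Subfield.subset_closure hx
  have hOL : ∀ o, algebraMap O F o ∈ L := fun o => hRL _ (Subalgebra.algebraMap_mem _ o)
  have hg' : vF * wF ≠ 0 := mul_ne_zero D.vF0 D.wF0
  have hvw : ∀ x ∈ chart O (VF F σ M * WF F σ M w₀) (vF * wF), x ∈ L := by
    intro x hx
    have h1 : chart O (VF F σ M * WF F σ M w₀) (vF * wF) ≤
        { L with algebraMap_mem' := hOL } := by
      refine Algebra.adjoin_le ?_
      rintro _ ⟨y, hy, rfl⟩
      have h2 : y / (vF * wF) = (y / g) / (vF * wF / g) := by field_simp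
      rw [h2]
      exact L.div_mem (hRL _ (Algebra.subset_adjoin ⟨y, hy, rfl⟩))
        (hRL _ (Algebra.subset_adjoin ⟨_, Submodule.mul_mem_mul D.vF_mem D.wF_mem, rfl⟩))
    exact h1 hx
  have hm0 := D.m0
  have hsm0 := D.sm0
  obtain ⟨s, hs, hsK⟩ := D.exists_v (x := a₀ * σ m + m * σ a₀)
    (Submodule.add_mem _ (Submodule.mul_mem_mul D.a₀M (s_mem_SM D.mM))
      (Submodule.mul_mem_mul D.mM (s_mem_SM D.a₀M))) (by
      simp only [map_add, map_mul, D.hσ]
      ring)
  obtain ⟨n, hn, hnK⟩ := D.exists_v (x := a₀ * σ a₀)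
    (Submodule.mul_mem_mul D.a₀M (s_mem_SM D.a₀M)) (by
      simp only [map_mul, D.hσ]
      ring)
  set α := a₀ / m with hα
  have hsK' : algebraMap F K s = α + σ α := by
    rw [hsK, hα, map_div₀]
    field_simp
  have hnK' : algebraMap F K n = α * σ α := by
    rw [hnK, mul_div_mul_comm, hα, map_div₀]
  have hsL := hvw s hs
  have hnL := hvw n hn
  have hα2 : α * α = algebraMap F K s * α - algebraMap F K n := by
    rw [hsK', hnK']; ring
  -- the subfield
  let S : Subfield K :=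
    { carrier := {z | ∃ x ∈ L, ∃ y ∈ L, z = algebraMap F K x + algebraMap F K y * α}
      mul_mem' := by
        rintro _ _ ⟨x, hx, y, hy, rfl⟩ ⟨x', hx', y', hy', rfl⟩
        refine ⟨x * x' - y * y' * n, L.sub_mem (L.mul_mem hx hx')
          (L.mul_mem (L.mul_mem hy hy') hnL), x * y' + y * x' + y * y' * s,
          L.add_mem (L.add_mem (L.mul_mem hx hy') (L.mul_mem hy hx'))
          (L.mul_mem (L.mul_mem hy hy') hsL), ?_⟩
        simp only [map_add, map_sub, map_mul]
        linear_combination (algebraMap F K y * algebraMap F K y') * hα2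
      one_mem' := ⟨1, L.one_mem, 0, L.zero_mem, by simp⟩
      add_mem' := by
        rintro _ _ ⟨x, hx, y, hy, rfl⟩ ⟨x', hx', y', hy', rfl⟩
        refine ⟨x + x', L.add_mem hx hx', y + y', L.add_mem hy hy', ?_⟩
        simp only [map_add]
        ring
      zero_mem' := ⟨0, L.zero_mem, 0, L.zero_mem, by simp⟩
      neg_mem' := by
        rintro _ ⟨x, hx, y, hy, rfl⟩
        refine ⟨-x, L.neg_mem hx, -y, L.neg_mem hy, ?_⟩
        simp only [map_neg]
        ring
      inv_mem' := by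
        rintro _ ⟨x, hx, y, hy, rfl⟩
        by_cases h0 : algebraMap F K x + algebraMap F K y * α = 0
        · rw [h0, inv_zero]
          exact ⟨0, L.zero_mem, 0, L.zero_mem, by simp⟩
        have hN : algebraMap F K (x * x + x * y * s + y * y * n) =
            (algebraMap F K x + algebraMap F K y * α) *
              (algebraMap F K x + algebraMap F K y * σ α) := by
          simp only [map_add, map_mul, hsK', hnK']
          ring
        have h1 : σ (algebraMap F K x + algebraMap F K y * α) =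
            algebraMap F K x + algebraMap F K y * σ α := by
          rw [map_add, map_mul, D.hF', D.hF']
        have h2 : algebraMap F K x + algebraMap F K y * σ α ≠ 0 := by
          rw [← h1]
          exact fun h => h0 ((map_eq_zero σ).1 h)
        have hNL : x * x + x * y * s + y * y * n ∈ L := L.add_mem (L.add_mem (L.mul_mem hx hx)
          (L.mul_mem (L.mul_mem hx hy) hsL)) (L.mul_mem (L.mul_mem hy hy) hnL)
        refine ⟨(x + y * s) / (x * x + x * y * s + y * y * n), L.div_mem (L.add_mem hx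
          (L.mul_mem hy hsL)) hNL, -y / (x * x + x * y * s + y * y * n),
          L.div_mem (L.neg_mem hy) hNL, ?_⟩
        rw [map_div₀, map_div₀, hN]
        field_simp
        simp only [map_add, map_mul, map_neg, hsK']
        ring }
  have hMS : ∀ x ∈ M, x / m ∈ S := by
    intro x hx
    obtain ⟨f1, hf1, h1⟩ := D.exists_w (wd_mem (σ := σ) hx D.mM)
    obtain ⟨f2, hf2, h2⟩ := D.exists_w (wd_mem (σ := σ) hx D.a₀M)
    refine ⟨-f2, L.neg_mem (hvw _ hf2), f1, hvw _ hf1, ?_⟩
    rw [map_neg, h1, h2, hα]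
    have h4 := wd_identity (σ := σ) x a₀ m
    have h5 := D.w0
    field_simp
    linear_combination h4
  have hOS : ∀ o, algebraMap O K o ∈ S := by
    intro o
    refine ⟨algebraMap O F o, hOL o, 0, L.zero_mem, ?_⟩
    rw [map_zero, zero_mul, add_zero, ← IsScalarTower.algebraMap_apply O F K]
  have hS : S = ⊤ := by
    rw [← top_le_iff, ← hM, Subfield.closure_le]
    have h1 : chart O M m ≤ { S with algebraMap_mem' := hOS } := by
      refine Algebra.adjoin_le ?_
      rintro _ ⟨x, hx, rfl⟩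
      exact hMS x hx
    exact fun x hx => h1 hx
  rw [← top_le_iff]
  intro f _
  have hf : algebraMap F K f ∈ S := by rw [hS]; trivial
  obtain ⟨x, hx, y, hy, hxy⟩ := hf
  have hy0 : y = 0 := by
    by_contra hy0
    have hy' : algebraMap F K y ≠ 0 := fun h => hy0 ((map_eq_zero _).1 h)
    apply D.a₀_notMem ((f - x) / y)
    rw [map_div₀, map_sub, hxy, ← hα, div_eq_iff hy']
    ring
  have hfx : f = x := by
    apply (algebraMap F K).injective
    rw [hxy, hy0, map_zero, zero_mul, add_zero]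
  rw [hfx]
  exact hx

end

/-- The quotient of a model by an involution. -/
theorem quot_hasModule {O F K : Type} [CommRing O] [IsDomain O] [IsNoetherianRing O] [Field F]
    [Field K] [Algebra O F] [Algebra O K] [Algebra F K] [IsScalarTower O F K] (σ : K ≃ₐ[O] K)
    (hσ : ∀ x, σ (σ x) = x) (hF : ∀ x, σ x = x ↔ ∃ f : F, algebraMap F K f = x)
    {M : Submodule O K} (hM : M.FG) (hne : ∃ a ∈ M, ∃ b ∈ M, wd σ a b ≠ 0)
    (hcl : ∀ m ∈ M, m ≠ 0 → Subfield.closure (chart O M m : Set K) = ⊤)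
    (h : ∀ W : ValuationSubring K, (∀ o, algebraMap O K o ∈ W) → ∀ Q, LR W M Q →
      LR W (SM σ M) Q ∧ ∀ m ∈ M, m ≠ 0 → (∀ x ∈ M, x / m ∈ W) → (∀ x ∈ M, σ x / σ m ∈ W) →
        ∀ a₀ ∈ M, wd σ a₀ m ≠ 0 → (∀ x ∈ M, wd σ x m / wd σ a₀ m ∈ W) →
        IsRegularLocalRing (lo W.toSubring (Dat.DD σ M W Q m a₀))) : HasModule O F := by
  obtain ⟨a, ha, b, hb, hab⟩ := hne
  set w₀ := wd σ a b with hw₀
  have hMne : ∃ g ∈ M, g ≠ 0 := by
    by_contra hcon
    push Not at hcon
    apply hab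
    rw [hw₀, wd, hcon a ha, hcon b hb, map_zero, mul_zero, sub_self]
  -- the data
  have key : ∀ W : ValuationSubring K, (∀ o, algebraMap O K o ∈ W) → ∃ (Q : Subring K)
      (m a₀ : K) (vF wF : F), Dat σ M w₀ W Q m a₀ vF wF ∧
        IsRegularLocalRing (lo W.toSubring (Dat.DD σ M W Q m a₀)) := by
    intro W hOW
    obtain ⟨Q, hQ⟩ := Pool.Agent.Y223.CC.exists_LR hOW hM hMne
    obtain ⟨hQ', hreg⟩ := h W hOW Q hQ
    obtain ⟨m, hm, hm0, hMW, hsMW⟩ := exists_common (σ := σ) hOW hM hMne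
    have hex : ∃ x ∈ M, wd σ x m ≠ 0 := by
      by_contra hcon
      push Not at hcon
      have h1 := wd_identity (σ := σ) a b m
      rw [hcon a ha, hcon b hb, zero_mul, mul_zero, sub_zero] at h1
      exact mul_ne_zero hab hm0 h1
    obtain ⟨x, hx, hx0⟩ := hex
    obtain ⟨j, ⟨a₀, ha₀, rfl⟩, hj0, hj⟩ := exists_gen_max hOW (hM.map (wl σ m)) (g := wl σ m x)
      ⟨x, hx, rfl⟩ hx0
    rw [wl_apply] at hj0
    have hj' : ∀ x ∈ M, wd σ x m / wd σ a₀ m ∈ W := fun x hx => hj _ ⟨x, hx, rfl⟩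
    obtain ⟨vF, hvF⟩ := (hF (m * σ m)).1 (by rw [map_mul, hσ, mul_comm])
    obtain ⟨wF, hwF⟩ := (hF (wd σ a₀ m / w₀)).1 (by
      rw [map_div₀, s_wd hσ, hw₀, s_wd hσ, neg_div_neg_eq])
    refine ⟨Q, m, a₀, vF, wF, ⟨hσ, fun x => (hF x).1, fun f => (hF _).2 ⟨f, rfl⟩, hOW, hab,
      s_wd hσ a b, hm, hm0, hMW, hsMW, ha₀, hj0, hj', ?_, ?_, hvF, hwF⟩,
      hreg m hm hm0 hMW hsMW a₀ ha₀ hj0 hj'⟩
    · exact hQ.unique hOW ⟨m, hm, hm0, hMW, rfl⟩
    · refine hQ'.unique hOW ⟨σ m, s_mem_SM hm, fun h => hm0 ((map_eq_zero σ).1 h), ?_, rfl⟩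
      rintro _ ⟨x, hx, rfl⟩
      exact hsMW x hx
  have hLR : ∀ W' : ValuationSubring F, (∀ o, algebraMap O F o ∈ W') → ∀ Q',
      LR W' (VF F σ M * WF F σ M w₀) Q' → IsRegularLocalRing Q' := by
    intro W' hOW' Q' hQ'
    obtain ⟨W, rfl⟩ := exists_ext (K := K) W'
    have hOW : ∀ o, algebraMap O K o ∈ W := by
      intro o
      rw [IsScalarTower.algebraMap_apply O F K]
      exact hOW' o
    obtain ⟨Q, m, a₀, vF, wF, D, hreg⟩ := key W hOW
    have h1 := quot_chart hM D hreg
    rwa [hQ'.unique hOW' ⟨vF * wF, Submodule.mul_mem_mul D.vF_mem D.wF_mem,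
      mul_ne_zero D.vF0 D.wF0, D.chartW, rfl⟩]
  obtain ⟨Q, m, a₀, vF, wF, D, -⟩ := key ⊤ fun o => trivial
  refine ⟨VF F σ M * WF F σ M w₀, (VF_fg hM).mul (WF_fg hM hab), ⟨vF * wF,
    Submodule.mul_mem_mul D.vF_mem D.wF_mem, mul_ne_zero D.vF0 D.wF0⟩, ?_, ?_⟩
  · intro g hg hg0 y
    exact exists_frac (D.closure (hcl m D.mM D.m0) g hg hg0) y
  · intro g hg hg0 q _
    exact Pool.Agent.Y223.CC.chart_regular hLR g hg hg0 q

end Pool.Agent.Y223.INV
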