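import Pool.Agent.Y223.INV.Fin

/-!
# The module of the quotient by an involution, explicitly
-/

set_option autoImplicit false
set_option linter.unusedVariables false
set_option linter.unusedSectionVars false

namespace Pool.Agent.Y223.INV

open IsLocalRing Pool.Agent.TH188.QS Pool.Agent.TH188.ARC Pool.Agent.W418.LU2
  Pool.Agent.H918R2.Quad Polynomial

/-- The quotient of a model by an involution. -/
theorem quot_module {O F K : Type} [CommRing O] [IsDomain O] [IsNoetherianRing O] [Field F]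
    [Field K] [Algebra O F] [Algebra O K] [Algebra F K] [IsScalarTower O F K] (σ : K ≃ₐ[O] K)
    (hσ : ∀ x, σ (σ x) = x) (hF : ∀ x, σ x = x ↔ ∃ f : F, algebraMap F K f = x)
    {M : Submodule O K} (hM : M.FG)
    (h : ∀ W : ValuationSubring K, (∀ o, algebraMap O K o ∈ W) → ∀ Q, LR W M Q →
      LR W (SM σ M) Q ∧ ∀ m ∈ M, m ≠ 0 → (∀ x ∈ M, x / m ∈ W) → (∀ x ∈ M, σ x / σ m ∈ W) →
        ∀ a₀ ∈ M, wd σ a₀ m ≠ 0 → (∀ x ∈ M, wd σ x m / wd σ a₀ m ∈ W) →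
        IsRegularLocalRing (lo W.toSubring (Dat.DD σ M W Q m a₀))) :
    ∀ a ∈ M, ∀ b ∈ M, wd σ a b ≠ 0 →
      (VF F σ M * WF F σ M (wd σ a b)).FG ∧ (∃ f ∈ VF F σ M * WF F σ M (wd σ a b), f ≠ 0) ∧
      ∀ f ∈ VF F σ M * WF F σ M (wd σ a b), f ≠ 0 →
        ∀ (q : Ideal (chart O (VF F σ M * WF F σ M (wd σ a b)) f)) [q.IsPrime],
        IsRegularLocalRing (Localization.AtPrime q) := by
  intro a ha b hb hab
  set w₀ := wd σ a b with hw₀
  have hMne : ∃ g ∈ M, g ≠ 0 := by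
    by_contra hcon
    push Not at hcon
    apply hab
    rw [hw₀, wd, hcon a ha, hcon b hb, map_zero, mul_zero, sub_self]
  -- the data
  have key : ∀ W : ValuationSubring K, (∀ o, algebraMap O K o ∈ W) → ∃ (Q : Subring K)
      (m a₀ : K) (vF wF : F), Dat σ M w₀ W Q m a₀ vF wF ∧
        IsRegularLocalRing (lo W.toSubring (Dat.DD σ M W Q m a₀)) := by
    intro W hOW
    obtain ⟨Q, hQ⟩ := Pool.Agent.Y223.CC.exists_LR hOW hM hMne
    obtain ⟨hQ', hreg⟩ := h W hOW Q hQ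
    obtain ⟨m, hm, hm0, hMW, hsMW⟩ := exists_common (σ := σ) hOW hM hMne
    have hex : ∃ x ∈ M, wd σ x m ≠ 0 := by
      by_contra hcon
      push Not at hcon
      have h1 := wd_identity (σ := σ) a b m
      rw [hcon a ha, hcon b hb, zero_mul, mul_zero, sub_zero] at h1
      exact mul_ne_zero hab hm0 h1
    obtain ⟨x, hx, hx0⟩ := hex
    obtain ⟨j, ⟨a₀, ha₀, rfl⟩, hj0, hj⟩ := exists_gen_max hOW (hM.map (wl σ m)) (g := wl σ m x)
      ⟨x, hx, rfl⟩ hx0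
    rw [wl_apply] at hj0
    have hj' : ∀ x ∈ M, wd σ x m / wd σ a₀ m ∈ W := fun x hx => hj _ ⟨x, hx, rfl⟩
    obtain ⟨vF, hvF⟩ := (hF (m * σ m)).1 (by rw [map_mul, hσ, mul_comm])
    obtain ⟨wF, hwF⟩ := (hF (wd σ a₀ m / w₀)).1 (by
      rw [map_div₀, s_wd hσ, hw₀, s_wd hσ, neg_div_neg_eq])
    refine ⟨Q, m, a₀, vF, wF, ⟨hσ, fun x => (hF x).1, fun f => (hF _).2 ⟨f, rfl⟩, hOW, hab,
      s_wd hσ a b, hm, hm0, hMW, hsMW, ha₀, hj0, hj', ?_, ?_, hvF, hwF⟩,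
      hreg m hm hm0 hMW hsMW a₀ ha₀ hj0 hj'⟩
    · exact hQ.unique hOW ⟨m, hm, hm0, hMW, rfl⟩
    · refine hQ'.unique hOW ⟨σ m, s_mem_SM hm, fun h => hm0 ((map_eq_zero σ).1 h), ?_, rfl⟩
      rintro _ ⟨x, hx, rfl⟩
      exact hsMW x hx
  have hLR : ∀ W' : ValuationSubring F, (∀ o, algebraMap O F o ∈ W') → ∀ Q',
      LR W' (VF F σ M * WF F σ M w₀) Q' → IsRegularLocalRing Q' := by
    intro W' hOW' Q' hQ'
    obtain ⟨W, rfl⟩ := exists_ext (K := K) W'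
    have hOW : ∀ o, algebraMap O K o ∈ W := by
      intro o
      rw [IsScalarTower.algebraMap_apply O F K]
      exact hOW' o
    obtain ⟨Q, m, a₀, vF, wF, D, hreg⟩ := key W hOW
    have h1 := quot_chart hM D hreg
    rwa [hQ'.unique hOW' ⟨vF * wF, Submodule.mul_mem_mul D.vF_mem D.wF_mem,
      mul_ne_zero D.vF0 D.wF0, D.chartW, rfl⟩]
  obtain ⟨Q, m, a₀, vF, wF, D, -⟩ := key ⊤ fun o => trivial
  refine ⟨(VF_fg hM).mul (WF_fg hM hab), ⟨vF * wF,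
    Submodule.mul_mem_mul D.vF_mem D.wF_mem, mul_ne_zero D.vF0 D.wF0⟩, ?_⟩
  intro g hg hg0 q _
  exact Pool.Agent.Y223.CC.chart_regular hLR g hg hg0 q

end Pool.Agent.Y223.INV
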