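import Pool.Agent.Y223.INV.Glob

/-!
# The blowing up of the fixed scheme
-/

set_option autoImplicit false
set_option linter.unusedVariables false
set_option linter.unusedSectionVars false

namespace Pool.Agent.Y223.INV

open IsLocalRing Pool.Agent.TH188.QS Pool.Agent.TH188.ARC Pool.Agent.W418.LU2
  Pool.Agent.H918R2.Quad Polynomial

section

variable {O K : Type} [CommRing O] [Field K] [Algebra O K] {σ : K ≃ₐ[O] K}

/-- The ideal of the fixed points is `t` times the ideal generated by the `z i`, the nonunits among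
which are a part of a regular system of parameters. -/
structure Gd (σ : K ≃ₐ[O] K) (W : ValuationSubring K) (Q : Subring K) (t : K) {c : ℕ}
    (z : Fin c → K) : Prop where
  t0 : t ≠ 0
  reg : RegP W.toSubring Q z
  eq : Submodule.span Q {y : K | ∃ x ∈ Q, y = σ x - x} =
    Submodule.span Q (Set.range fun i => t * z i)

/-- The point is fixed. -/
def Fx (σ : K ≃ₐ[O] K) (W : ValuationSubring K) (Q : Subring K) : Prop :=
  ∀ x ∈ Q, σ x ∈ Q ∧ NU W.toSubring (σ x - x)

variable {M : Submodule O K} {W : ValuationSubring K} {Q : Subring K} {m a₀ : K}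

lemma NU.div_unit {A : Subring K} {a b : K} (ha : NU A a) (hb : b⁻¹ ∈ A) : NU A (a / b) := by
  rw [div_eq_inv_mul]
  exact NU.mul hb ha

lemma NU.neg {A : Subring K} {a : K} (h : NU A a) : NU A (-a) := by
  rintro ⟨h0, h1⟩
  apply h
  refine ⟨fun h2 => h0 (by rw [h2, neg_zero]), ?_⟩
  rw [inv_neg] at h1
  have := A.neg_mem h1
  rwa [neg_neg] at this

lemma unit_of_sub {W : ValuationSubring K} {d e : K} (hd : d ∈ W) (hd0 : d ≠ 0) (hdW : d⁻¹ ∈ W)
    (he : e ∈ W) (h : NU W.toSubring (e - d)) : e ≠ 0 ∧ e⁻¹ ∈ W := by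
  have h1 : ¬ NU W.toSubring e := by
    intro h2
    have h3 : NU W.toSubring d := by
      have h4 : d = e + -(e - d) := by ring
      rw [h4]
      exact NU.add (loc_V W) he (W.neg_mem _ (W.toSubring.sub_mem he hd)) h2 (NU.neg h)
    exact h3 ⟨hd0, hdW⟩
  rw [NU, not_not] at h1
  exact h1

/-- The fixed points and the differences. -/
theorem fix_all (hOW : ∀ o, algebraMap O K o ∈ W) (hm : m ∈ M) (hm0 : m ≠ 0)
    (hMW : ∀ x ∈ M, x / m ∈ W) (hsM : ∀ x ∈ M, σ x / σ m ∈ Q)
    (hQ : Q = lo W.toSubring (chart O M m).toSubring) {ω : K} (hω0 : ω ≠ 0)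
    (hω : NU W.toSubring ω) {B : Subring K} (hQB : Q ≤ B) (hBW : B ≤ W.toSubring)
    (hIC : IC W.toSubring B)
    (hB : ∀ x ∈ M, (σ (x / m) - x / m) / ω ∈ B) :
    ∀ x ∈ Q, σ x ∈ Q ∧ (σ x - x) / ω ∈ B := by
  have hOQ : ∀ o, algebraMap O K o ∈ Q := fun o => by
    rw [hQ]
    exact le_lo _ _ (Subalgebra.algebraMap_mem (chart O M m) o)
  have hcQ : ∀ x ∈ chart O M m, x ∈ Q := fun x hx => by
    rw [hQ]
    exact le_lo _ _ hx
  have hQW : Q ≤ W.toSubring := hQB.trans hBW
  have hQIC : IC W.toSubring Q := by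
    rw [hQ]
    exact ic_lo (chart_le_V hOW hMW)
  have h1 : ∀ x ∈ chart O M m, σ x ∈ Q ∧ (σ x - x) / ω ∈ B := by
    intro x hx
    induction hx using Algebra.adjoin_induction with
    | mem x hx =>
      obtain ⟨a, ha, rfl⟩ := hx
      refine ⟨?_, hB a ha⟩
      rw [map_div₀]
      exact hsM a ha
    | algebraMap r =>
      rw [σ.commutes, sub_self, zero_div]
      exact ⟨hOQ r, B.zero_mem⟩
    | add x y _ _ hx hy =>
      rw [map_add]
      refine ⟨Q.add_mem hx.1 hy.1, ?_⟩
      have : (σ x + σ y - (x + y)) / ω = (σ x - x) / ω + (σ y - y) / ω := by ring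
      rw [this]
      exact B.add_mem hx.2 hy.2
    | mul x y hxc hyc hx hy =>
      rw [map_mul]
      refine ⟨Q.mul_mem hx.1 hy.1, ?_⟩
      have : (σ x * σ y - x * y) / ω = σ x * ((σ y - y) / ω) + (σ x - x) / ω * y := by ring
      rw [this]
      exact B.add_mem (B.mul_mem (hQB hx.1) hy.2) (B.mul_mem hx.2 (hQB (hcQ y hyc)))
  intro x hx
  rw [hQ] at hx
  obtain ⟨c, hc, d, hd, hd0, hdW, rfl⟩ := hx
  obtain ⟨hc1, hc2⟩ := h1 c hc
  obtain ⟨hd1, hd2⟩ := h1 d hd
  have hdNU : NU W.toSubring (σ d - d) := by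
    have h2 : σ d - d = (σ d - d) / ω * ω := by field_simp
    rw [h2]
    exact NU.mul (hBW hd2) hω
  have hcQ' := hcQ c hc
  have hdQ' := hcQ d hd
  obtain ⟨hsd0, hsdW⟩ := unit_of_sub (hQW hdQ') hd0 hdW (hQW hd1) hdNU
  have hsdQ : (σ d)⁻¹ ∈ Q := hQIC _ hd1 hsd0 hsdW
  have hdQ : d⁻¹ ∈ Q := hQIC _ hdQ' hd0 hdW
  rw [map_mul, map_inv₀]
  refine ⟨Q.mul_mem hc1 hsdQ, ?_⟩
  have h2 : (σ c * (σ d)⁻¹ - c * d⁻¹) / ω =
      (((σ c - c) / ω) * d - c * ((σ d - d) / ω)) * ((σ d)⁻¹ * d⁻¹) := by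
    field_simp
    ring
  rw [h2]
  exact B.mul_mem (B.sub_mem (B.mul_mem hc2 (hQB hdQ')) (B.mul_mem (hQB hcQ') hd2))
    (B.mul_mem (hQB hsdQ) (hQB hdQ))

/-- Regularity of the blowing up of the ideal of the fixed points. -/
theorem DD_regular (hσ : ∀ x, σ (σ x) = x) (hOW : ∀ o, algebraMap O K o ∈ W) (hm : m ∈ M)
    (hm0 : m ≠ 0)
    (hMW : ∀ x ∈ M, x / m ∈ W) (hsM : ∀ x ∈ M, σ x / σ m ∈ Q)
    (hQ : Q = lo W.toSubring (chart O M m).toSubring) (ha₀ : a₀ ∈ M) (hw0 : wd σ a₀ m ≠ 0)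
    (hwW : ∀ x ∈ M, wd σ x m / wd σ a₀ m ∈ W)
    (hreg : IsRegularLocalRing Q)
    (hG : Fx σ W Q → ∃ (t : K) (c : ℕ) (z : Fin c → K), Gd σ W Q t z) :
    IsRegularLocalRing (lo W.toSubring (Dat.DD σ M W Q m a₀)) := by
  classical
  have hOQ : ∀ o, algebraMap O K o ∈ Q := fun o => by
    rw [hQ]
    exact le_lo _ _ (Subalgebra.algebraMap_mem (chart O M m) o)
  have hQW : Q ≤ W.toSubring := by
    rw [hQ]
    exact lo_le (chart_le_V hOW hMW)
  have hQIC : IC W.toSubring Q := by
    rw [hQ]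
    exact ic_lo (chart_le_V hOW hMW)
  have hMQ : ∀ x ∈ M, x / m ∈ Q := fun x hx => by
    rw [hQ]
    exact le_lo _ _ (Algebra.subset_adjoin ⟨x, hx, rfl⟩)
  have hsm0 : σ m ≠ 0 := fun h => hm0 ((map_eq_zero σ).1 h)
  have hdiff : ∀ x : K, σ (x / m) - x / m = wd σ x m / (m * σ m) := by
    intro x
    rw [map_div₀, wd]
    field_simp
  have hwd : ∀ a b : K, wd σ a b / (m * σ m) =
      (b / m) * (σ (a / m) - a / m) - (a / m) * (σ (b / m) - b / m) := by
    intro a b
    rw [map_div₀, map_div₀, wd]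
    field_simp
    ring
  set ω := wd σ a₀ m / (m * σ m) with hω
  have hω0 : ω ≠ 0 := div_ne_zero hw0 (mul_ne_zero hm0 hsm0)
  have hωQ : ω ∈ Q := by
    rw [hω, ← hdiff, map_div₀]
    exact Q.sub_mem (hsM a₀ ha₀) (hMQ a₀ ha₀)
  have hratio : ∀ a b : K, wd σ a b / wd σ a₀ m = wd σ a b / (m * σ m) / ω := by
    intro a b
    rw [hω]
    field_simp
  have hDDQ : (∀ a ∈ M, ∀ b ∈ M, wd σ a b / wd σ a₀ m ∈ Q) →
      IsRegularLocalRing (lo W.toSubring (Dat.DD σ M W Q m a₀)) := by
    intro h1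
    have h2 : Dat.DD σ M W Q m a₀ = Q := by
      apply le_antisymm
      · rw [Dat.DD, Subring.closure_le]
        rintro t (ht | ⟨a, ha, b, hb, rfl⟩)
        · exact ht
        · exact h1 a ha b hb
      · exact Dat.Q_le_DD
    rw [h2, hQIC.lo_eq]
    exact hreg
  by_cases hNU : NU W.toSubring ω
  swap
  · rw [NU, not_not] at hNU
    have hωi : ω⁻¹ ∈ Q := hQIC _ hωQ hω0 hNU.2
    apply hDDQ
    intro a ha b hb
    rw [hratio, hwd, div_eq_mul_inv]
    refine Q.mul_mem (Q.sub_mem (Q.mul_mem (hMQ b hb) (Q.sub_mem ?_ (hMQ a ha)))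
      (Q.mul_mem (hMQ a ha) (Q.sub_mem ?_ (hMQ b hb)))) hωi
    · rw [map_div₀]; exact hsM a ha
    · rw [map_div₀]; exact hsM b hb
  -- the point is fixed
  set B := lo W.toSubring (Dat.DD σ M W Q m a₀) with hB
  have hDDW : Dat.DD σ M W Q m a₀ ≤ W.toSubring := by
    rw [Dat.DD, Subring.closure_le]
    rintro t (ht | ⟨a, ha, b, hb, rfl⟩)
    · exact hQW ht
    · change wd σ a b / wd σ a₀ m ∈ W.toSubring
      have h2 : wd σ a b / wd σ a₀ m =
          (wd σ a m / wd σ a₀ m) * (b / m) - (a / m) * (wd σ b m / wd σ a₀ m) := by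
        have h3 := wd_identity (σ := σ) a b m
        field_simp
        linear_combination h3
      rw [h2]
      exact W.toSubring.sub_mem (W.mul_mem _ _ (hwW a ha) (hMW b hb))
        (W.mul_mem _ _ (hMW a ha) (hwW b hb))
  have hBW : B ≤ W.toSubring := lo_le hDDW
  have hQB : Q ≤ B := fun x hx => le_lo _ _ (Dat.Q_le_DD hx)
  have hBIC : IC W.toSubring B := ic_lo hDDW
  have hall := fix_all (σ := σ) hOW hm hm0 hMW hsM hQ hω0 hNU hQB hBW hBIC (by
    intro x hx
    rw [hdiff, ← hratio]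
    exact le_lo _ _ (Subring.subset_closure (Or.inr ⟨x, hx, m, hm, rfl⟩)))
  have hFx : Fx σ W Q := by
    intro x hx
    refine ⟨(hall x hx).1, ?_⟩
    have h2 : σ x - x = (σ x - x) / ω * ω := by field_simp
    rw [h2]
    exact NU.mul (hBW (hall x hx).2) hNU
  obtain ⟨t, c, z, hG⟩ := hG hFx
  have hS : ∀ y ∈ Submodule.span Q {y : K | ∃ x ∈ Q, y = σ x - x}, y / ω ∈ B := by
    intro y hy
    induction hy using Submodule.span_induction with
    | mem y hy =>
      obtain ⟨x, hx, rfl⟩ := hy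
      exact (hall x hx).2
    | zero => rw [zero_div]; exact B.zero_mem
    | add x y _ _ hx hy => rw [add_div]; exact B.add_mem hx hy
    | smul r x _ hx =>
      have : (r • x) / ω = (r : K) * (x / ω) := by
        rw [Subring.smul_def, smul_eq_mul, mul_div_assoc]
      rw [this]
      exact B.mul_mem (hQB r.2) hx
  have hz : ∀ i, t * z i / ω ∈ B := by
    intro i
    apply hS
    rw [hG.eq]
    exact Submodule.subset_span ⟨i, rfl⟩
  have hωS : ω ∈ Submodule.span Q (Set.range fun i => t * z i) := by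
    rw [← hG.eq, hω, ← hdiff]
    exact Submodule.subset_span ⟨_, hMQ a₀ ha₀, rfl⟩
  rw [Submodule.mem_span_range_iff_exists_fun] at hωS
  obtain ⟨q, hq⟩ := hωS
  have hq' : ω = ∑ i, (q i : K) * (t * z i) := by
    rw [← hq]
    exact Finset.sum_congr rfl fun i _ => by rw [Subring.smul_def, smul_eq_mul]
  have hne : Nonempty (Fin c) := by
    by_contra hcon
    rw [not_nonempty_iff] at hcon
    apply hω0
    rw [hq', Finset.univ_eq_empty, Finset.sum_empty]
  obtain ⟨j, hj⟩ := Finite.exists_max (fun i => W.valuation (z i))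
  have hzj0 : z j ≠ 0 := hG.reg.ne j
  have hzW : ∀ i, z i * (z j)⁻¹ ∈ W := by
    intro i
    rw [← W.valuation_le_one_iff, map_mul, map_inv₀, ← div_eq_mul_inv]
    exact div_le_one_of_le₀ (hj i) zero_le
  have ht0 := hG.t0
  have htz0 : t * z j ≠ 0 := mul_ne_zero ht0 hzj0
  by_cases hzu : (z j)⁻¹ ∈ W
  · -- the ideal is the unit ideal
    have hzjQ : (z j)⁻¹ ∈ Q := hQIC _ (hG.reg.mem j) hzj0 hzu
    -- `ω / t` is a unit
    have h1 : ω / t ∈ Q := by
      rw [hq', Finset.sum_div]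
      refine Subring.sum_mem _ fun i _ => ?_
      have : (q i : K) * (t * z i) / t = q i * z i := by field_simp
      rw [this]
      exact Q.mul_mem (q i).2 (hG.reg.mem i)
    have h2 : (ω / t)⁻¹ ∈ W := by
      have h3 : (ω / t)⁻¹ = (t * z j / ω) * (z j)⁻¹ := by field_simp
      rw [h3]
      exact W.mul_mem _ _ (hBW (hz j)) hzu
    have h3 : (ω / t)⁻¹ ∈ Q := hQIC _ h1 (div_ne_zero hω0 ht0) h2
    apply hDDQ
    intro a ha b hb
    rw [hratio, hwd]
    have h4 : ∀ x ∈ Q, (σ x - x) / t ∈ Q := by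
      intro x hx
      have h5 : σ x - x ∈ Submodule.span Q (Set.range fun i => t * z i) := by
        rw [← hG.eq]
        exact Submodule.subset_span ⟨x, hx, rfl⟩
      rw [Submodule.mem_span_range_iff_exists_fun] at h5
      obtain ⟨q', hq'⟩ := h5
      rw [← hq', Finset.sum_div]
      refine Subring.sum_mem _ fun i _ => ?_
      have : (q' i) • (t * z i) / t = q' i * z i := by
        rw [Subring.smul_def, smul_eq_mul]
        field_simp
      rw [this]
      exact Q.mul_mem (q' i).2 (hG.reg.mem i)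
    have h5 : ((b / m) * (σ (a / m) - a / m) - (a / m) * (σ (b / m) - b / m)) / ω =
        ((b / m) * ((σ (a / m) - a / m) / t) - (a / m) * ((σ (b / m) - b / m) / t)) *
          (ω / t)⁻¹ := by
      field_simp
    rw [h5]
    exact Q.mul_mem (Q.sub_mem (Q.mul_mem (hMQ b hb) (h4 _ (hMQ a ha)))
      (Q.mul_mem (hMQ a ha) (h4 _ (hMQ b hb)))) h3
  · -- the blowing up
    have hs : ∀ i ∈ Finset.univ.erase j, i ≠ j ∧ (z i)⁻¹ ∉ W.toSubring ∧
        z i * (z j)⁻¹ ∈ W.toSubring := by
      intro i hi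
      refine ⟨(Finset.mem_erase.1 hi).1, fun h => hzu ?_, hzW i⟩
      have h1 : (z j)⁻¹ = (z i * (z j)⁻¹) * (z i)⁻¹ := by
        have := hG.reg.ne i
        field_simp
      rw [h1]
      exact W.mul_mem _ _ (hzW i) h
    have h1 := (regP_qt (loc_V W) hG.reg j hzu (Finset.univ.erase j) hs).reg
    set E := lo W.toSubring (Subring.closure ((Q : Set K) ∪
      {t | ∃ i ∈ Finset.univ.erase j, t = z i * (z j)⁻¹})) with hE
    have hEcl : Subring.closure ((Q : Set K) ∪
        {t | ∃ i ∈ Finset.univ.erase j, t = z i * (z j)⁻¹}) ≤ W.toSubring := by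
      rw [Subring.closure_le]
      rintro t (ht | ⟨i, hi, rfl⟩)
      · exact hQW ht
      · exact hzW i
    have hEW : E ≤ W.toSubring := lo_le hEcl
    have hEIC : IC W.toSubring E := ic_lo hEcl
    have hQE : Q ≤ E := fun x hx => le_lo _ _ (Subring.subset_closure (Or.inl hx))
    have hzE : ∀ i, z i * (z j)⁻¹ ∈ E := by
      intro i
      by_cases hij : i = j
      · rw [hij, mul_inv_cancel₀ hzj0]
        exact E.one_mem
      · exact le_lo _ _ (Subring.subset_closure (Or.inr ⟨i, Finset.mem_erase.2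
          ⟨hij, Finset.mem_univ _⟩, rfl⟩))
    have hωE : ω / (t * z j) ∈ E := by
      rw [hq', Finset.sum_div]
      refine Subring.sum_mem _ fun i _ => ?_
      have : (q i : K) * (t * z i) / (t * z j) = q i * (z i * (z j)⁻¹) := by field_simp
      rw [this]
      exact E.mul_mem (hQE (q i).2) (hzE i)
    have hωiW : (ω / (t * z j))⁻¹ ∈ W := by
      rw [inv_div]
      exact hBW (hz j)
    have hωiE : (ω / (t * z j))⁻¹ ∈ E := hEIC _ hωE (div_ne_zero hω0 htz0) hωiW
    have hEB : E = B := by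
      apply le_antisymm
      · refine (lo_le_lo (B' := Dat.DD σ M W Q m a₀) hDDW ?_)
        rw [Subring.closure_le]
        rintro x (hx | ⟨i, hi, rfl⟩)
        · exact hQB hx
        · change z i * (z j)⁻¹ ∈ B
          have h2 : z i * (z j)⁻¹ = (t * z i / ω) * (ω / (t * z j)) := by
            field_simp
          have h3 : ω / (t * z j) ∈ B := by
            have h4 := hBIC (t * z j / ω) (hz j) (div_ne_zero htz0 hω0) (by
              rw [inv_div]; exact hEW hωE)
            rwa [inv_div] at h4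
          rw [h2]
          exact B.mul_mem (hz i) h3
      · refine lo_le_lo hEcl ?_
        rw [Dat.DD, Subring.closure_le]
        rintro x (hx | ⟨a, ha, b, hb, rfl⟩)
        · exact hQE hx
        · change wd σ a b / wd σ a₀ m ∈ E
          have h4 : ∀ x ∈ Q, (σ x - x) / (t * z j) ∈ E := by
            intro x hx
            have h5 : σ x - x ∈ Submodule.span Q (Set.range fun i => t * z i) := by
              rw [← hG.eq]
              exact Submodule.subset_span ⟨x, hx, rfl⟩
            rw [Submodule.mem_span_range_iff_exists_fun] at h5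
            obtain ⟨q', hq'⟩ := h5
            rw [← hq', Finset.sum_div]
            refine Subring.sum_mem _ fun i _ => ?_
            have : (q' i) • (t * z i) / (t * z j) = q' i * (z i * (z j)⁻¹) := by
              rw [Subring.smul_def, smul_eq_mul]
              field_simp
            rw [this]
            exact E.mul_mem (hQE (q' i).2) (hzE i)
          rw [hratio, hwd]
          have h5 : ((b / m) * (σ (a / m) - a / m) - (a / m) * (σ (b / m) - b / m)) / ω =
              ((b / m) * ((σ (a / m) - a / m) / (t * z j)) -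
                (a / m) * ((σ (b / m) - b / m) / (t * z j))) * (ω / (t * z j))⁻¹ := by
            field_simp
          rw [h5]
          exact E.mul_mem (E.sub_mem (E.mul_mem (hQE (hMQ b hb)) (h4 _ (hMQ a ha)))
            (E.mul_mem (hQE (hMQ a ha)) (h4 _ (hMQ b hb)))) hωiE
    rw [← hEB]
    exact h1

end

end Pool.Agent.Y223.INV
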