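import Pool.Agent.Y223.INV.Desc
import Pool.Agent.Y223.CC.Blow

/-!
# The modules of the quotient by an involution
-/

set_option autoImplicit false
set_option linter.unusedVariables false
set_option linter.unusedSectionVars false

namespace Pool.Agent.Y223.INV

open IsLocalRing Pool.Agent.TH188.QS Pool.Agent.TH188.ARC Pool.Agent.W418.LU2
  Pool.Agent.H918R2.Quad Polynomial

section defs

variable {O K : Type} [CommRing O] [Field K] [Algebra O K] (σ : K ≃ₐ[O] K)

/-- The coordinates of the line through a point and its image. -/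
def wd (a b : K) : K := σ a * b - a * σ b

/-- The image of the module. -/
def SM (M : Submodule O K) : Submodule O K := M.map σ.toLinearMap

/-- The antisymmetric elements. -/
def WD (M : Submodule O K) : Submodule O K :=
  Submodule.span O {x | ∃ a ∈ M, ∃ b ∈ M, x = wd σ a b}

variable {σ} {M : Submodule O K}

lemma mem_SM {x : K} : x ∈ SM σ M ↔ ∃ a ∈ M, σ a = x := Iff.rfl

lemma s_mem_SM {a : K} (ha : a ∈ M) : σ a ∈ SM σ M := ⟨a, ha, rfl⟩

lemma sm_fg (hM : M.FG) : (SM σ M).FG := hM.map _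

lemma wd_mem {a b : K} (ha : a ∈ M) (hb : b ∈ M) : wd σ a b ∈ WD σ M :=
  Submodule.subset_span ⟨a, ha, b, hb, rfl⟩

lemma wd_le : WD σ M ≤ M * SM σ M := by
  rw [WD, Submodule.span_le]
  rintro _ ⟨a, ha, b, hb, rfl⟩
  refine Submodule.sub_mem _ ?_ ?_
  · have h1 := Submodule.mul_mem_mul hb (s_mem_SM (σ := σ) ha)
    rwa [mul_comm b] at h1
  · exact Submodule.mul_mem_mul ha (s_mem_SM hb)

lemma fg_of_le [IsNoetherianRing O] {N N' : Submodule O K} (h : N ≤ N') (h' : N'.FG) : N.FG := by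
  have h2 : IsNoetherian O N' := isNoetherian_of_fg_of_noetherian _ h'
  have h3 : IsNoetherian O N := isNoetherian_of_le h
  exact Module.Finite.iff_fg.1 inferInstance

lemma wd_fg [IsNoetherianRing O] (hM : M.FG) : (WD σ M).FG :=
  fg_of_le wd_le (hM.mul (sm_fg hM))

lemma wd_identity (a b m : K) : wd σ a b * m = wd σ a m * b - a * wd σ b m := by
  simp only [wd]
  ring

lemma s_wd (hσ : ∀ x, σ (σ x) = x) (a b : K) : σ (wd σ a b) = - wd σ a b := by
  simp only [wd, map_sub, map_mul, hσ]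
  ring

/-- The linear form. -/
def wl (σ : K ≃ₐ[O] K) (m : K) : K →ₗ[O] K :=
  (LinearMap.mulRight O m).comp σ.toLinearMap - LinearMap.mulRight O (σ m)

lemma wl_apply (m a : K) : wl σ m a = wd σ a m := rfl

/-- A unit of the valuation ring. -/
def Un (W : ValuationSubring K) (u : K) : Prop := u ≠ 0 ∧ u ∈ W ∧ u⁻¹ ∈ W

lemma un_one_add {W : ValuationSubring K} {x : K} (hx : x ∈ W) (hx' : x⁻¹ ∉ W) :
    Un W (1 + x) := by
  have hloc := loc_V W
  have hnu : NU W.toSubring (-x) := by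
    rintro ⟨h0, h1⟩
    apply hx'
    rw [inv_neg] at h1
    have := W.neg_mem _ h1
    rwa [neg_neg] at this
  have h1 : (1 + x ≠ 0 ∧ (1 + x)⁻¹ ∈ W.toSubring) := by
    rcases hloc (-x) (W.neg_mem _ hx) with h | h
    · exact absurd h hnu
    · rwa [sub_neg_eq_add] at h
  exact ⟨h1.1, W.add_mem _ _ W.one_mem hx, h1.2⟩

/-- A common coordinate. -/
theorem exists_common {W : ValuationSubring K} (hOW : ∀ o, algebraMap O K o ∈ W) (hM : M.FG)
    (hne : ∃ g ∈ M, g ≠ 0) :
    ∃ m ∈ M, m ≠ 0 ∧ (∀ x ∈ M, x / m ∈ W) ∧ ∀ x ∈ M, σ x / σ m ∈ W := by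
  obtain ⟨g, hg, hg0⟩ := hne
  obtain ⟨j, hj, hj0, hMj⟩ := exists_gen_max hOW hM hg hg0
  obtain ⟨k, hk, hk0, hMk⟩ := exists_gen_max (W := W.comap (σ : K →+* K)) (fun o => by
    rw [ValuationSubring.mem_comap]
    have : (σ : K →+* K) (algebraMap O K o) = algebraMap O K o := σ.commutes o
    rw [this]
    exact hOW o) hM hg hg0
  have hMk' : ∀ x ∈ M, σ x / σ k ∈ W := by
    intro x hx
    have := hMk x hx
    rw [ValuationSubring.mem_comap] at this
    rw [← map_div₀]
    exact this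
  have hs0 : ∀ x : K, x ≠ 0 → σ x ≠ 0 := fun x hx h => hx ((map_eq_zero σ).1 h)
  by_cases h1 : σ k / σ j ∈ W
  · refine ⟨j, hj, hj0, hMj, fun x hx => ?_⟩
    have h2 : σ x / σ j = (σ x / σ k) * (σ k / σ j) := by
      have := hs0 k hk0
      field_simp
    rw [h2]
    exact W.mul_mem _ _ (hMk' x hx) h1
  by_cases h2 : j / k ∈ W
  · refine ⟨k, hk, hk0, fun x hx => ?_, hMk'⟩
    have h3 : x / k = (x / j) * (j / k) := by field_simp
    rw [h3]
    exact W.mul_mem _ _ (hMj x hx) h2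
  have u1 : Un W (1 + k / j) := un_one_add (hMj k hk) (by
    rw [inv_div]; exact h2)
  have u2 : Un W (1 + σ j / σ k) := un_one_add (hMk' j hj) (by
    rw [inv_div]; exact h1)
  have e1 : j + k = j * (1 + k / j) := by field_simp
  have e2 : σ (j + k) = σ k * (1 + σ j / σ k) := by
    have := hs0 k hk0
    rw [map_add]
    field_simp
    ring
  refine ⟨j + k, M.add_mem hj hk, ?_, fun x hx => ?_, fun x hx => ?_⟩
  · rw [e1]
    exact mul_ne_zero hj0 u1.1
  · have h3 : x / (j + k) = (x / j) * (1 + k / j)⁻¹ := by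
      rw [e1, div_mul_eq_div_div, div_eq_mul_inv (x / j)]
    rw [h3]
    exact W.mul_mem _ _ (hMj x hx) u1.2.2
  · have h3 : σ x / σ (j + k) = (σ x / σ k) * (1 + σ j / σ k)⁻¹ := by
      rw [e2, div_mul_eq_div_div, div_eq_mul_inv (σ x / σ k)]
    rw [h3]
    exact W.mul_mem _ _ (hMk' x hx) u2.2.2
end defs

end Pool.Agent.Y223.INV
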