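import Pool.Agent.Y223.INV.Loc
import Pool.Agent.Y223.INV.Fix

/-!
# Tame fixed points
-/

set_option autoImplicit false
set_option linter.unusedVariables false
set_option linter.unusedSectionVars false

namespace Pool.Agent.Y223.INV

open IsLocalRing Pool.Agent.TH188.QS Pool.Agent.TH188.ARC Pool.Agent.W418.LU2
  Pool.Agent.H918R2.Quad Polynomial

section

variable {O K : Type} [CommRing O] [Field K] [Algebra O K] {σ : K ≃ₐ[O] K}

/-- The eigenvalue. -/
def ep (σ : K ≃ₐ[O] K) (t : K) : K := - (t⁻¹ + (σ t)⁻¹)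

lemma tau_tau (hσ : ∀ x, σ (σ x) = x) {t : K} (ht : t ≠ 0) (x : K) :
    (σ ((σ x - x) / t) - (σ x - x) / t) / t = ep σ t * ((σ x - x) / t) := by
  have hst : σ t ≠ 0 := fun h => ht ((map_eq_zero σ).1 h)
  rw [map_div₀, map_sub, hσ, ep]
  field_simp
  ring

lemma tau_mul {t : K} (ht : t ≠ 0) (x y : K) :
    (σ (x * y) - x * y) / t = (σ x - x) / t * y + x * ((σ y - y) / t) +
      t * ((σ x - x) / t * ((σ y - y) / t)) := by
  rw [map_mul]
  field_simp
  ring

variable {W : ValuationSubring K} {Q : Subring K}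

lemma regP_unit (hQW : Q ≤ W.toSubring) (hIC : IC W.toSubring Q) (hreg : IsRegularLocalRing Q)
    {u : K} (hu : u ∈ Q) (hu0 : u ≠ 0) (huW : u⁻¹ ∈ W) :
    RegP W.toSubring Q (fun _ : Fin 1 => u) where
  PA := hQW
  ne := fun _ => hu0
  mem := fun _ => hu
  reg := hreg
  inv := hIC
  ind := by
    intro c hc hs i
    have h1 : (⟨u, hu⟩ : Q) ∉ maximalIdeal Q := by
      rw [mem_maximalIdeal, mem_nonunits_iff, not_not]
      refine isUnit_iff_exists_inv.2 ⟨⟨u⁻¹, hIC u hu hu0 huW⟩, Subtype.ext ?_⟩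
      exact mul_inv_cancel₀ hu0
    rw [hc i h1]
    exact Ideal.zero_mem _

lemma mem_max_iff (hQW : Q ≤ W.toSubring) (hIC : IC W.toSubring Q) [IsLocalRing Q] (y : Q) :
    y ∈ maximalIdeal Q ↔ NU W.toSubring (y : K) := by
  rw [mem_maximalIdeal, mem_nonunits_iff, NU, not_iff_not]
  constructor
  · intro hy
    obtain ⟨z, hz⟩ := isUnit_iff_exists_inv.1 hy
    have h1 : (y : K) * z = 1 := congrArg Subtype.val hz
    refine ⟨left_ne_zero_of_mul_eq_one h1, ?_⟩
    rw [← eq_inv_of_mul_eq_one_right h1]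
    exact hQW z.2
  · rintro ⟨h0, h1⟩
    refine isUnit_iff_exists_inv.2 ⟨⟨_, hIC _ y.2 h0 h1⟩, Subtype.ext ?_⟩
    exact mul_inv_cancel₀ h0

/-- Tame fixed points are good. -/
theorem gd_of_tau (hσ : ∀ x, σ (σ x) = x) (hQW : Q ≤ W.toSubring) (hIC : IC W.toSubring Q)
    (hreg : IsRegularLocalRing Q) {t : K} (ht : t ∈ Q) (ht0 : t ≠ 0)
    (hτ : ∀ x ∈ Q, (σ x - x) / t ∈ Q) (hε : ep σ t ∈ Q)
    (hεu : (∀ x ∈ Q, NU W.toSubring ((σ x - x) / t)) → ep σ t ≠ 0 ∧ (ep σ t)⁻¹ ∈ W) :
    ∃ (c : ℕ) (z : Fin c → K), Gd σ W Q t z := by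
  classical
  by_cases hall : ∀ x ∈ Q, NU W.toSubring ((σ x - x) / t)
  swap
  · push Not at hall
    obtain ⟨x, hx, hxu⟩ := hall
    rw [NU, not_not] at hxu
    refine ⟨1, fun _ => (σ x - x) / t, ht0,
      regP_unit hQW hIC hreg (hτ x hx) hxu.1 hxu.2, ?_⟩
    have hxi : ((σ x - x) / t)⁻¹ ∈ Q := hIC _ (hτ x hx) hxu.1 hxu.2
    apply le_antisymm
    · rw [Submodule.span_le]
      rintro _ ⟨y, hy, rfl⟩
      have h1 : σ y - y = (⟨_, Q.mul_mem (hτ y hy) hxi⟩ : Q) • (t * ((σ x - x) / t)) := by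
        rw [Subring.smul_def, smul_eq_mul]
        change σ y - y = (σ y - y) / t * ((σ x - x) / t)⁻¹ * (t * ((σ x - x) / t))
        have := hxu.1
        rw [mul_assoc, mul_comm t, ← mul_assoc _ _ t, inv_mul_cancel₀ this, one_mul,
          div_mul_cancel₀ _ ht0]
      rw [h1]
      exact Submodule.smul_mem _ _ (Submodule.subset_span ⟨0, rfl⟩)
    · rw [Submodule.span_le]
      rintro _ ⟨i, rfl⟩
      refine Submodule.subset_span ⟨x, hx, ?_⟩
      exact mul_div_cancel₀ _ ht0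
  · obtain ⟨hε0, hεW⟩ := hεu hall
    let τ : Q → Q := fun x => ⟨(σ x - x) / t, hτ x x.2⟩
    have hloc : IsLocalRing Q := hreg.toIsLocalRing
    have hεu' : IsUnit (⟨ep σ t, hε⟩ : Q) := isUnit_iff_exists_inv.2
      ⟨⟨_, hIC _ hε hε0 hεW⟩, Subtype.ext (mul_inv_cancel₀ hε0)⟩
    obtain ⟨c, y, hind, hspan⟩ := exists_ind τ ⟨t, ht⟩ ⟨ep σ t, hε⟩
      (fun a b => by
        apply Subtype.ext
        change (σ ((a : K) + b) - (a + b)) / t = (σ a - a) / t + (σ b - b) / t
        rw [map_add]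
        ring)
      (fun a b => by
        apply Subtype.ext
        exact tau_mul ht0 (a : K) b)
      (fun a => by
        apply Subtype.ext
        exact tau_tau hσ ht0 (a : K))
      hεu' (fun a => by
        rw [mem_max_iff hQW hIC]
        exact hall a a.2)
    refine ⟨c, fun i => τ (y i), ht0, ?_, ?_⟩
    · exact
        { PA := hQW
          ne := fun i h => hind.ne_zero i (Subtype.ext h)
          mem := fun i => (τ (y i)).2
          reg := hreg
          inv := hIC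
          ind := IndN.of_ind (id : Fin c → Fin c) Function.injective_id
            (fun i _ => ⟨i, rfl⟩) hind }
    · apply le_antisymm
      · rw [Submodule.span_le]
        rintro _ ⟨x, hx, rfl⟩
        have h1 := hspan ⟨x, hx⟩
        rw [Ideal.mem_span_range_iff_exists_fun] at h1
        obtain ⟨r, hr⟩ := h1
        have h2 : (σ x - x) / t = ∑ i, (r i : K) * (τ (y i) : K) := by
          have h3 := congrArg (Q.subtype) hr
          rw [map_sum] at h3
          exact h3.symm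
        have h3 : σ x - x = ∑ i, r i • (t * (τ (y i) : K)) := by
          rw [← mul_div_cancel₀ (σ x - x) ht0, h2, Finset.mul_sum]
          refine Finset.sum_congr rfl fun i _ => ?_
          rw [Subring.smul_def, smul_eq_mul]
          ring
        rw [SetLike.mem_coe, h3]
        exact Submodule.sum_mem _ fun i _ => Submodule.smul_mem _ _
          (Submodule.subset_span ⟨i, rfl⟩)
      · rw [Submodule.span_le]
        rintro _ ⟨i, rfl⟩
        refine Submodule.subset_span ⟨y i, (y i).2, ?_⟩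
        exact mul_div_cancel₀ _ ht0

/-- Fixed points with `2` invertible are good. -/
theorem gd_of_two (hσ : ∀ x, σ (σ x) = x) (hQW : Q ≤ W.toSubring) (hIC : IC W.toSubring Q)
    (hreg : IsRegularLocalRing Q) (hFx : Fx σ W Q) (h2 : (2 : K) ≠ 0) (h2W : (2 : K)⁻¹ ∈ W) :
    ∃ (t : K) (c : ℕ) (z : Fin c → K), Gd σ W Q t z := by
  have hep : ep σ (1 : K) = -2 := by
    rw [ep, map_one, inv_one]
    ring
  obtain ⟨c, z, h⟩ := gd_of_tau hσ hQW hIC hreg Q.one_mem one_ne_zero (fun x hx => by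
    rw [div_one]
    exact Q.sub_mem (hFx x hx).1 hx) (by
    rw [hep]
    exact Q.neg_mem (natCast_mem Q 2)) (fun _ => by
    rw [hep]
    refine ⟨neg_ne_zero.2 h2, ?_⟩
    rw [inv_neg]
    exact W.neg_mem _ h2W)
  exact ⟨1, c, z, h⟩

end

end Pool.Agent.Y223.INV
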