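import Pool.Agent.Y223.INV.Mod

/-!
# The charts of the quotient by an involution
-/

set_option autoImplicit false
set_option linter.unusedVariables false
set_option linter.unusedSectionVars false

namespace Pool.Agent.Y223.INV

open IsLocalRing Pool.Agent.TH188.QS Pool.Agent.TH188.ARC Pool.Agent.W418.LU2
  Pool.Agent.H918R2.Quad Polynomial

section

variable {O F K : Type} [CommRing O] [Field F] [Field K] [Algebra O F] [Algebra O K] [Algebra F K]
  [IsScalarTower O F K]

/-- The inclusion. -/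
def io (O F K : Type) [CommRing O] [Field F] [Field K] [Algebra O F] [Algebra O K] [Algebra F K]
    [IsScalarTower O F K] : F →ₗ[O] K := (IsScalarTower.toAlgHom O F K).toLinearMap

lemma io_apply (f : F) : io O F K f = algebraMap F K f := rfl

lemma io_inj : Function.Injective (io O F K) := (algebraMap F K).injective

/-- The symmetric part. -/
def VF (F : Type) [Field F] [Algebra O F] [Algebra F K] [IsScalarTower O F K] (σ : K ≃ₐ[O] K)
    (M : Submodule O K) : Submodule O F := (M * SM σ M).comap (io O F K)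

/-- The antisymmetric part. -/
def WF (F : Type) [Field F] [Algebra O F] [Algebra F K] [IsScalarTower O F K] (σ : K ≃ₐ[O] K)
    (M : Submodule O K) (w₀ : K) : Submodule O F :=
  (WD σ M).comap ((LinearMap.mulRight O w₀).comp (io O F K))

variable {σ : K ≃ₐ[O] K} {M : Submodule O K} {w₀ : K}

lemma mem_VF {f : F} : f ∈ VF F σ M ↔ algebraMap F K f ∈ M * SM σ M := Iff.rfl

lemma mem_WF {f : F} : f ∈ WF F σ M w₀ ↔ algebraMap F K f * w₀ ∈ WD σ M := Iff.rfl

lemma comap_fg [IsNoetherianRing O] {N : Submodule O K} (hN : N.FG) (f : F →ₗ[O] K)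
    (hf : Function.Injective f) : (N.comap f).FG := by
  have h2 : IsNoetherian O N := isNoetherian_of_fg_of_noetherian _ hN
  let f' : N.comap f →ₗ[O] N := (f.domRestrict (N.comap f)).codRestrict N fun x => x.2
  have h3 : IsNoetherian O (N.comap f) := isNoetherian_of_injective f' (by
    intro x y hxy
    apply Subtype.ext
    exact hf (congrArg Subtype.val hxy))
  exact Module.Finite.iff_fg.1 inferInstance

lemma VF_fg [IsNoetherianRing O] (hM : M.FG) : (VF F σ M).FG :=
  comap_fg (hM.mul (sm_fg hM)) _ io_inj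

lemma WF_fg [IsNoetherianRing O] (hM : M.FG) (hw : w₀ ≠ 0) : (WF F σ M w₀).FG := by
  refine comap_fg (wd_fg hM) _ ?_
  intro x y hxy
  have h1 : algebraMap F K x * w₀ = algebraMap F K y * w₀ := hxy
  exact (algebraMap F K).injective (mul_right_cancel₀ hw h1)

end

/-- The data at a valuation ring. -/
structure Dat {O F K : Type} [CommRing O] [Field F] [Field K] [Algebra O F] [Algebra O K]
    [Algebra F K] [IsScalarTower O F K] (σ : K ≃ₐ[O] K) (M : Submodule O K) (w₀ : K)
    (W : ValuationSubring K) (Q : Subring K) (m a₀ : K) (vF wF : F) : Prop where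
  hσ : ∀ x, σ (σ x) = x
  hF : ∀ x, σ x = x → ∃ f : F, algebraMap F K f = x
  hF' : ∀ f : F, σ (algebraMap F K f) = algebraMap F K f
  hOW : ∀ o, algebraMap O K o ∈ W
  w₀0 : w₀ ≠ 0
  sw₀ : σ w₀ = - w₀
  mM : m ∈ M
  m0 : m ≠ 0
  MW : ∀ x ∈ M, x / m ∈ W
  sMW : ∀ x ∈ M, σ x / σ m ∈ W
  a₀M : a₀ ∈ M
  w0 : wd σ a₀ m ≠ 0
  wW : ∀ x ∈ M, wd σ x m / wd σ a₀ m ∈ W
  Q₁ : Q = lo W.toSubring (chart O M m).toSubring
  Q₂ : Q = lo W.toSubring (chart O (SM σ M) (σ m)).toSubring
  vF : algebraMap F K vF = m * σ m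
  wF : algebraMap F K wF = wd σ a₀ m / w₀

namespace Dat

variable {O F K : Type} [CommRing O] [Field F] [Field K] [Algebra O F] [Algebra O K]
  [Algebra F K] [IsScalarTower O F K] {σ : K ≃ₐ[O] K} {M : Submodule O K} {w₀ : K}
  {W : ValuationSubring K} {Q : Subring K} {m a₀ : K} {vF wF : F}
  (D : Dat σ M w₀ W Q m a₀ vF wF)

include D

lemma sm0 : σ m ≠ 0 := fun h => D.m0 ((map_eq_zero σ).1 h)

lemma QW : Q ≤ W.toSubring := by
  rw [D.Q₁]
  exact lo_le (chart_le_V D.hOW D.MW)

lemma OQ (o : O) : algebraMap O K o ∈ Q := by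
  rw [D.Q₁]
  exact le_lo _ _ (Subalgebra.algebraMap_mem (chart O M m) o)

lemma MQ {x : K} (hx : x ∈ M) : x / m ∈ Q := by
  rw [D.Q₁]
  exact le_lo _ _ (Algebra.subset_adjoin ⟨x, hx, rfl⟩)

lemma sMQ {x : K} (hx : x ∈ M) : σ x / σ m ∈ Q := by
  rw [D.Q₂]
  exact le_lo _ _ (Algebra.subset_adjoin ⟨σ x, s_mem_SM hx, rfl⟩)

lemma MSQ {x : K} (hx : x ∈ M * SM σ M) : x / (m * σ m) ∈ Q := by
  refine Submodule.mul_induction_on hx ?_ ?_
  · rintro a ha _ ⟨b, hb, rfl⟩
    change a * σ b / (m * σ m) ∈ Q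
    rw [mul_div_mul_comm]
    exact Q.mul_mem (D.MQ ha) (D.sMQ hb)
  · intro a b ha hb
    rw [add_div]
    exact Q.add_mem ha hb

lemma wdW {a b : K} (ha : a ∈ M) (hb : b ∈ M) : wd σ a b / wd σ a₀ m ∈ W := by
  have h1 : wd σ a b / wd σ a₀ m =
      (wd σ a m / wd σ a₀ m) * (b / m) - (a / m) * (wd σ b m / wd σ a₀ m) := by
    have h2 := wd_identity (σ := σ) a b m
    have h3 := D.m0
    have h4 := D.w0
    field_simp
    linear_combination h2
  rw [h1]
  exact W.toSubring.sub_mem (W.mul_mem _ _ (D.wW a ha) (D.MW b hb))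
    (W.mul_mem _ _ (D.MW a ha) (D.wW b hb))

lemma vF0 : vF ≠ 0 := by
  intro h
  have h1 := D.vF
  rw [h, map_zero] at h1
  exact mul_ne_zero D.m0 D.sm0 h1.symm

lemma wF0 : wF ≠ 0 := by
  intro h
  have h1 := D.wF
  rw [h, map_zero] at h1
  exact div_ne_zero D.w0 D.w₀0 h1.symm

lemma vF_mem : vF ∈ VF F σ M := by
  rw [mem_VF, D.vF]
  exact Submodule.mul_mem_mul D.mM (s_mem_SM D.mM)

lemma wF_mem : wF ∈ WF F σ M w₀ := by
  rw [mem_WF, D.wF, div_mul_cancel₀ _ D.w₀0]
  exact wd_mem D.a₀M D.mM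

/-- The elements of the chart ring with respect to `v w`. -/
lemma v_chart {f : F} (hf : f ∈ VF F σ M) : f / vF ∈ chart O (VF F σ M * WF F σ M w₀) (vF * wF) := by
  refine Algebra.subset_adjoin ⟨f * wF, Submodule.mul_mem_mul hf D.wF_mem, ?_⟩
  rw [mul_div_mul_right _ _ D.wF0]

lemma w_chart {f : F} (hf : f ∈ WF F σ M w₀) :
    f / wF ∈ chart O (VF F σ M * WF F σ M w₀) (vF * wF) := by
  refine Algebra.subset_adjoin ⟨vF * f, Submodule.mul_mem_mul D.vF_mem hf, ?_⟩
  rw [mul_div_mul_left _ _ D.vF0]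

lemma alg_v {f : F} (hf : f ∈ VF F σ M) : algebraMap F K (f / vF) ∈ Q := by
  rw [map_div₀, D.vF]
  exact D.MSQ hf

/-- The elements of the form `x / w`. -/
lemma wd_div {x : K} (hx : x ∈ WD σ M) {B : Subring K} (hOB : ∀ o, algebraMap O K o ∈ B)
    (hB : ∀ a ∈ M, ∀ b ∈ M, wd σ a b / wd σ a₀ m ∈ B) : x / wd σ a₀ m ∈ B := by
  rw [WD] at hx
  induction hx using Submodule.span_induction with
  | mem x hx =>
    obtain ⟨a, ha, b, hb, rfl⟩ := hx
    exact hB a ha b hb
  | zero => rw [zero_div]; exact B.zero_mem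
  | add x y _ _ hx hy => rw [add_div]; exact B.add_mem hx hy
  | smul r x _ hx =>
    rw [Algebra.smul_def, mul_div_assoc]
    exact B.mul_mem (hOB r) hx

lemma alg_w {f : F} (hf : f ∈ WF F σ M w₀) :
    algebraMap F K (f / wF) = algebraMap F K f * w₀ / wd σ a₀ m := by
  rw [map_div₀, D.wF]
  have h1 := D.w0
  have h2 := D.w₀0
  field_simp

/-- Elements of `W D` divided by `w` come from the chart. -/
lemma exists_w {x : K} (hx : x ∈ WD σ M) :
    ∃ f ∈ chart O (VF F σ M * WF F σ M w₀) (vF * wF), algebraMap F K f = x / wd σ a₀ m := by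
  have hsx : σ x = - x := by
    rw [WD] at hx
    induction hx using Submodule.span_induction with
    | mem x hx =>
      obtain ⟨a, ha, b, hb, rfl⟩ := hx
      exact s_wd D.hσ a b
    | zero => rw [map_zero, neg_zero]
    | add x y _ _ hx hy => rw [map_add, hx, hy]; ring
    | smul r x _ hx => rw [map_smul, hx, smul_neg]
  obtain ⟨f, hf⟩ := D.hF (x / w₀) (by rw [map_div₀, hsx, D.sw₀, neg_div_neg_eq])
  have hfW : f ∈ WF F σ M w₀ := by
    rw [mem_WF, hf, div_mul_cancel₀ _ D.w₀0]
    exact hx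
  refine ⟨f / wF, D.w_chart hfW, ?_⟩
  rw [D.alg_w hfW, hf, div_mul_cancel₀ _ D.w₀0]

/-- Invariant elements of `M * σ M` divided by `m * σ m` come from the chart. -/
lemma exists_v {x : K} (hx : x ∈ M * SM σ M) (hsx : σ x = x) :
    ∃ f ∈ chart O (VF F σ M * WF F σ M w₀) (vF * wF), algebraMap F K f = x / (m * σ m) := by
  obtain ⟨f, hf⟩ := D.hF x hsx
  have hfV : f ∈ VF F σ M := by
    rw [mem_VF, hf]
    exact hx
  refine ⟨f / vF, D.v_chart hfV, ?_⟩
  rw [map_div₀, D.vF, hf]

/-- The quotients of the elements of the module lie in the valuation ring. -/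
lemma chartW : ∀ x ∈ VF F σ M * WF F σ M w₀, x / (vF * wF) ∈ W.comap (algebraMap F K) := by
  intro x hx
  refine Submodule.mul_induction_on hx ?_ ?_
  · intro a ha b hb
    rw [mul_div_mul_comm, ValuationSubring.mem_comap, map_mul]
    refine W.mul_mem _ _ (D.QW (D.alg_v ha)) ?_
    rw [D.alg_w hb]
    exact D.wd_div (B := W.toSubring) hb D.hOW fun a ha b hb => D.wdW ha hb
  · intro a b ha hb
    rw [add_div]
    exact ValuationSubring.add_mem _ _ _ ha hb

/-- The blown up local ring. -/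
def DD (σ : K ≃ₐ[O] K) (M : Submodule O K) (W : ValuationSubring K) (Q : Subring K) (m a₀ : K) :
    Subring K :=
  Subring.closure ((Q : Set K) ∪ {t | ∃ a ∈ M, ∃ b ∈ M, t = wd σ a b / wd σ a₀ m})

omit D in
lemma Q_le_DD : Q ≤ DD σ M W Q m a₀ := fun x hx => Subring.subset_closure (Or.inl hx)

lemma DD_le : DD σ M W Q m a₀ ≤ W.toSubring := by
  rw [DD, Subring.closure_le]
  rintro t (ht | ⟨a, ha, b, hb, rfl⟩)
  · exact D.QW ht
  · exact D.wdW ha hb

/-- The chart ring lies in the blown up local ring. -/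
lemma chart_DD {f : F} (hf : f ∈ chart O (VF F σ M * WF F σ M w₀) (vF * wF)) :
    algebraMap F K f ∈ DD σ M W Q m a₀ := by
  have hO : ∀ o, algebraMap O K o ∈ DD σ M W Q m a₀ := fun o => Q_le_DD (D.OQ o)
  induction hf using Algebra.adjoin_induction with
  | mem x hx =>
    obtain ⟨y, hy, rfl⟩ := hx
    refine Submodule.mul_induction_on hy ?_ ?_
    · intro a ha b hb
      rw [mul_div_mul_comm, map_mul]
      refine Subring.mul_mem _ (Q_le_DD (D.alg_v ha)) ?_
      rw [D.alg_w hb]
      exact D.wd_div hb hO fun a ha b hb => Subring.subset_closure (Or.inr ⟨a, ha, b, hb, rfl⟩)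
    · intro a b ha hb
      rw [add_div, map_add]
      exact Subring.add_mem _ ha hb
  | algebraMap r =>
    rw [← IsScalarTower.algebraMap_apply O F K]
    exact hO r
  | add x y _ _ hx hy => rw [map_add]; exact Subring.add_mem _ hx hy
  | mul x y _ _ hx hy => rw [map_mul]; exact Subring.mul_mem _ hx hy

lemma a₀_notMem (f : F) : algebraMap F K f ≠ a₀ / m := by
  intro h
  have h1 := D.hF' f
  rw [h, map_div₀] at h1
  apply D.w0
  have h2 := D.m0
  have h3 := D.sm0
  rw [div_eq_div_iff h3 h2] at h1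
  rw [wd, h1, sub_self]

end Dat

/-- The local ring of the quotient is regular. -/
theorem quot_chart {O F K : Type} [CommRing O] [IsNoetherianRing O] [Field F] [Field K]
    [Algebra O F] [Algebra O K] [Algebra F K] [IsScalarTower O F K] {σ : K ≃ₐ[O] K}
    {M : Submodule O K} (hM : M.FG) {w₀ : K} {W : ValuationSubring K} {Q : Subring K} {m a₀ : K}
    {vF wF : F} (D : Dat σ M w₀ W Q m a₀ vF wF)
    (hreg : IsRegularLocalRing (lo W.toSubring (Dat.DD σ M W Q m a₀))) :
    IsRegularLocalRing (lo (W.comap (algebraMap F K)).toSubring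
      (chart O (VF F σ M * WF F σ M w₀) (vF * wF)).toSubring) := by
  classical
  set R := chart O (VF F σ M * WF F σ M w₀) (vF * wF) with hR
  set WF' := (W.comap (algebraMap F K)) with hWF'
  have hRW : R.toSubring ≤ WF'.toSubring := chart_le_V (fun o => by
    rw [hWF', ValuationSubring.mem_comap, ← IsScalarTower.algebraMap_apply O F K]
    exact D.hOW o) D.chartW
  set A := lo WF'.toSubring R.toSubring with hA
  have hAloc : IsLocalRing A := isLocalRing_lo (loc_V WF') hRW
  have hRn : IsNoetherianRing R := chart_noeth ((VF_fg hM).mul (WF_fg hM D.w₀0)) _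
  have hRn' : IsNoetherianRing R.toSubring := hRn
  have hAn : IsNoetherianRing A := noeth_lo hRW
  let ev : A[X] →+* K := eval₂RingHom ((algebraMap F K).comp A.subtype) (a₀ / m)
  have evC : ∀ a : A, ev (C a) = algebraMap F K a := fun a => by
    change eval₂ _ _ (C a) = _
    rw [eval₂_C]
    rfl
  have evX : ev X = a₀ / m := by
    change eval₂ _ _ X = _
    rw [eval₂_X]
  have hRev : ∀ f ∈ R, algebraMap F K f ∈ ev.range := fun f hf =>
    ⟨C ⟨f, le_lo _ _ hf⟩, by rw [evC]⟩
  -- trace and norm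
  have hsa : σ (a₀ / m) = σ a₀ / σ m := map_div₀ _ _ _
  have hm0 := D.m0
  have hsm0 := D.sm0
  obtain ⟨s, hs, hsK⟩ := D.exists_v (x := a₀ * σ m + m * σ a₀)
    (Submodule.add_mem _ (Submodule.mul_mem_mul D.a₀M (s_mem_SM D.mM))
      (Submodule.mul_mem_mul D.mM (s_mem_SM D.a₀M))) (by
      simp only [map_add, map_mul, D.hσ]
      ring)
  obtain ⟨n, hn, hnK⟩ := D.exists_v (x := a₀ * σ a₀)
    (Submodule.mul_mem_mul D.a₀M (s_mem_SM D.a₀M)) (by
      simp only [map_mul, D.hσ]
      ring)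
  have hsK' : algebraMap F K s = a₀ / m + σ a₀ / σ m := by
    rw [hsK]
    field_simp
  have hnK' : algebraMap F K n = (a₀ / m) * (σ a₀ / σ m) := by
    rw [hnK, mul_div_mul_comm]
  let s' : A := ⟨s, le_lo _ _ hs⟩
  let n' : A := ⟨n, le_lo _ _ hn⟩
  let P : A[X] := X ^ 2 + (C (-s') * X + C n')
  have hPdeg : (C (-s') * X + C n').degree < ((2 : ℕ) : WithBot ℕ) :=
    lt_of_le_of_lt degree_linear_le (by exact_mod_cast Nat.one_lt_two)
  have hP : P.Monic := monic_X_pow_add hPdeg
  have hPd : P.degree = 2 := by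
    change (X ^ 2 + (C (-s') * X + C n')).degree = 2
    rw [degree_add_eq_left_of_degree_lt, degree_X_pow]
    · rfl
    · rw [degree_X_pow]
      exact hPdeg
  have hP0 : ev P = 0 := by
    simp only [P, map_add, map_mul, map_pow, evC, evX, map_neg]
    change (a₀ / m) ^ 2 + (-(algebraMap F K s) * (a₀ / m) + algebraMap F K n) = 0
    rw [hsK', hnK']
    ring
  have hker : ∀ g, ev g = 0 → P ∣ g := by
    intro g hg
    have h1 := modByMonic_add_div g P
    have h2 : ev (g %ₘ P) = 0 := by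
      rw [← h1, map_add, map_mul, hP0, zero_mul, add_zero] at hg
      exact hg
    have h3 : (g %ₘ P).degree ≤ 1 := by
      have h4 := degree_modByMonic_lt g hP
      rw [hPd] at h4
      exact Order.le_of_lt_succ h4
    have h4 := eq_X_add_C_of_degree_le_one h3
    set r1 := (g %ₘ P).coeff 1
    set r0 := (g %ₘ P).coeff 0
    rw [h4, map_add, map_mul, evC, evC, evX] at h2
    have h5 : r1 = 0 := by
      by_contra hr
      have hr' : algebraMap F K (r1 : F) ≠ 0 := fun h =>
        hr (Subtype.ext ((map_eq_zero _).1 h))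
      apply D.a₀_notMem (-(r0 : F) / (r1 : F))
      rw [map_div₀, map_neg, div_eq_iff hr']
      linear_combination -h2
    have h6 : r0 = 0 := by
      rw [h5] at h2
      have h7 : algebraMap F K (r0 : F) = 0 := by
        rw [← h2]
        rw [ZeroMemClass.coe_zero, map_zero, zero_mul, zero_add]
      exact Subtype.ext ((map_eq_zero _).1 h7)
    rw [h5, h6] at h4
    rw [← h1, h4]
    simp
  -- the range
  have hMev : ∀ x ∈ M, x / m ∈ ev.range := by
    intro x hx
    obtain ⟨f1, hf1, h1⟩ := D.exists_w (wd_mem (σ := σ) hx D.mM)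
    obtain ⟨f2, hf2, h2⟩ := D.exists_w (wd_mem (σ := σ) hx D.a₀M)
    have h3 : x / m = (wd σ x m / wd σ a₀ m) * (a₀ / m) - wd σ x a₀ / wd σ a₀ m := by
      have h4 := wd_identity (σ := σ) x a₀ m
      have h5 := D.w0
      field_simp
      linear_combination h4
    rw [h3, ← h1, ← h2, ← evX]
    exact Subring.sub_mem _ (Subring.mul_mem _ (hRev _ hf1) ⟨X, rfl⟩) (hRev _ hf2)
  have hevW : ev.range ≤ lo W.toSubring (Dat.DD σ M W Q m a₀) := by
    rintro _ ⟨g, rfl⟩
    have hα : a₀ / m ∈ lo W.toSubring (Dat.DD σ M W Q m a₀) :=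
      le_lo _ _ (Dat.Q_le_DD (D.MQ D.a₀M))
    have hAD : ∀ a : A, algebraMap F K a ∈ lo W.toSubring (Dat.DD σ M W Q m a₀) := by
      rintro ⟨_, c, hc, d, hd, hd0, hdW, rfl⟩
      change algebraMap F K (c * d⁻¹) ∈ _
      rw [map_mul, map_inv₀]
      exact ⟨_, D.chart_DD hc, _, D.chart_DD hd, fun h => hd0 ((map_eq_zero _).1 h), by
        rw [← map_inv₀]; exact hdW, rfl⟩
    induction g using Polynomial.induction_on' with
    | add p q hp hq => rw [map_add]; exact Subring.add_mem _ hp hq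
    | monomial k a =>
      rw [← C_mul_X_pow_eq_monomial, map_mul, map_pow, evC, evX]
      exact Subring.mul_mem _ (hAD a) (Subring.pow_mem _ hα k)
  have hDDW : Dat.DD σ M W Q m a₀ ≤ W.toSubring := D.DD_le
  have hevW' : ev.range ≤ W.toSubring := hevW.trans (lo_le hDDW)
  have hCC : lo W.toSubring ev.range = lo W.toSubring (Dat.DD σ M W Q m a₀) := by
    apply le_antisymm
    · exact lo_le_lo hDDW hevW
    · refine lo_le_lo hevW' ?_
      rw [Dat.DD, Subring.closure_le]
      rintro t (ht | ⟨a, ha, b, hb, rfl⟩)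
      · have h1 : Q ≤ lo W.toSubring ev.range := by
          rw [D.Q₁]
          refine lo_mono ?_
          let B : Subalgebra O K := { ev.range with
            algebraMap_mem' := fun o => by
              have := hRev _ (Subalgebra.algebraMap_mem R o)
              rwa [← IsScalarTower.algebraMap_apply O F K] at this }
          have h2 : chart O M m ≤ B := by
            refine Algebra.adjoin_le ?_
            rintro _ ⟨x, hx, rfl⟩
            exact hMev x hx
          exact h2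
        exact h1 ht
      · obtain ⟨f, hf, h1⟩ := D.exists_w (wd_mem (σ := σ) ha hb)
        rw [← h1]
        exact le_lo _ _ (hRev f hf)
  rw [← hCC] at hreg
  let ψ : A[X] →+* lo W.toSubring ev.range := ev.codRestrict _ fun g => le_lo _ _ ⟨g, rfl⟩
  have hψ : ∀ g, (ψ g : K) = ev g := fun g => rfl
  refine desc ψ P hP (Subtype.ext hP0) (fun g hg => hker g (congrArg Subtype.val hg)) ?_ ?_
  · rintro ⟨_, _, ⟨g, rfl⟩, _, ⟨h, rfl⟩, h0, hW, rfl⟩
    refine ⟨g, h, ?_, ?_⟩
    · rw [isUnit_lo_iff hevW']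
      exact ⟨h0, hW⟩
    · apply Subtype.ext
      change ev g * (ev h)⁻¹ * ev h = ev g
      rw [mul_assoc, inv_mul_cancel₀ h0, mul_one]
  · intro a ha
    rw [isUnit_lo_iff hevW', hψ, evC] at ha
    rw [isUnit_lo_iff hRW]
    refine ⟨fun h => ha.1 (by rw [h, map_zero]), ?_⟩
    change algebraMap F K (a : F)⁻¹ ∈ W
    rw [map_inv₀]
    exact ha.2

end Pool.Agent.Y223.INV
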