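import Pool.Agent.Y223.INV.CGlob
import Pool.Agent.H918R2.Quad.Final

/-!
# Quotients by involutions: the conditions at the points of the charts
-/

set_option autoImplicit false
set_option linter.unusedVariables false
set_option linter.unusedSectionVars false

namespace Pool.Agent.Y223.INV

open IsLocalRing Pool.Agent.TH188.QS Pool.Agent.TH188.ARC Pool.Agent.W418.LU2
  Pool.Agent.H918R2.Quad Polynomial AlgebraicGeometry CategoryTheory

section

variable {O K : Type} [CommRing O] [Field K] [Algebra O K]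

/-- The local ring of a chart. -/
lemma ofPrime_eq_lo {W : ValuationSubring K} {A : Subring K} (hAW : A ≤ W.toSubring)
    (P : Ideal A) [P.IsPrime] (hP : ∀ a : A, a ∈ P ↔ NU W.toSubring (a : K)) :
    (LocalSubring.ofPrime A P).toSubring = lo W.toSubring A := by
  have hle := LocalSubring.le_ofPrime A P
  have hval : ∀ a : A, ((algebraMap A (LocalSubring.ofPrime A P).toSubring a :
      (LocalSubring.ofPrime A P).toSubring) : K) = a := fun a => rfl
  apply le_antisymm
  · intro x hx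
    obtain ⟨⟨a, s⟩, has⟩ := IsLocalization.surj P.primeCompl
      (⟨x, hx⟩ : (LocalSubring.ofPrime A P).toSubring)
    have h1 : x * (s : A) = (a : K) := congrArg Subtype.val has
    have h2 := s.2
    have h3 : ¬ NU W.toSubring ((s : A) : K) := fun h => h2 ((hP _).2 h)
    rw [NU, not_not] at h3
    exact ⟨a, a.2, (s : A), (s : A).2, h3.1, h3.2, by
      rw [← h1, mul_assoc, mul_inv_cancel₀ h3.1, mul_one]⟩
  · rintro _ ⟨a, ha, b, hb, hb0, hbW, rfl⟩
    have h1 : (⟨b, hb⟩ : A) ∉ P := fun h => (hP _).1 h ⟨hb0, hbW⟩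
    have h2 := IsLocalization.map_units (M := P.primeCompl)
      (LocalSubring.ofPrime A P).toSubring ⟨⟨b, hb⟩, h1⟩
    obtain ⟨y, hy⟩ := isUnit_iff_exists_inv.1 h2
    have h3 : b * (y : K) = 1 := congrArg Subtype.val hy
    have h4 : b⁻¹ = (y : K) := by
      rw [← mul_one b⁻¹, ← h3, ← mul_assoc, inv_mul_cancel₀ hb0, one_mul]
    rw [h4]
    exact Subring.mul_mem _ (hle ha) y.2

variable (σ : K ≃ₐ[O] K)

/-- The point with the local ring `R` is a point of the fixed scheme of `σ`: the ring `R` is stable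
under `σ`, which acts trivially on the residue field. -/
def IsFixed (R : Subring K) : Prop :=
  ∀ x : R, ∃ y : R, (y : K) = σ x ∧ ¬ IsUnit (y - x)

/-- `σ = 1 + t δ` on `R`, where the ideal generated by the image of `δ` is the unit ideal, or has a
regular quotient. -/
def RegularWild (R : Subring K) : Prop :=
  ∃ (t : R) (δ : R → R), t ≠ 0 ∧ (∀ x : R, σ x = x + t * δ x) ∧
    (Ideal.span (Set.range δ) = ⊤ ∨ IsRegularLocalRing (R ⧸ Ideal.span (Set.range δ)))

/-- `σ = 1 + t δ` on `R`, and `δ ∘ δ = ε δ`, where `ε` and the image of `δ` are in the ideal `I` of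
the centre, and `δ` maps `I` into `I ^ 2`, and the leading form of `δ` along the centre has no
zeros. -/
def NondegenerateWild (R : Subring K) (I : Ideal R) : Prop :=
  ∃ (t ε : R) (δ : R → R), t ≠ 0 ∧ (∀ x : R, σ x = x + t * δ x) ∧ (∀ x, δ (δ x) = ε * δ x) ∧
    ε ∈ I ∧ (∀ x, δ x ∈ I) ∧ (∀ x ∈ I, δ x ∈ I ^ 2) ∧
    ∃ n : ℕ, I ^ (n + 2) ≤ (Ideal.span {ε} ⊔ Ideal.span (Set.range δ)) * I ^ (n + 1) ⊔
      Ideal.span (δ '' I) * I ^ n

variable {σ}

/-- Regular quotients and families of parameters. -/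
lemma regP_of_ind {W : ValuationSubring K} {Q : Subring K} (hQW : Q ≤ W.toSubring)
    (hIC : IC W.toSubring Q) (hreg : IsRegularLocalRing Q) {c : ℕ} {y : Fin c → Q}
    (hy : Ind y) : RegP W.toSubring Q (fun i => (y i : K)) where
  PA := hQW
  ne := fun i h => hy.ne_zero i (Subtype.ext h)
  mem := fun i => (y i).2
  reg := hreg
  inv := hIC
  ind := IndN.of_ind (id : Fin c → Fin c) Function.injective_id (fun i _ => ⟨i, rfl⟩) hy

/-- The points outside the centre. -/
theorem gd_of_regular {W : ValuationSubring K} {Q : Subring K} (hQW : Q ≤ W.toSubring)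
    (hIC : IC W.toSubring Q) (hreg : IsRegularLocalRing Q) (h : RegularWild σ Q) :
    ∃ (t : K) (c : ℕ) (z : Fin c → K), Gd σ W Q t z := by
  classical
  obtain ⟨t, δ, ht0, hδ, hJ⟩ := h
  have ht0' : (t : K) ≠ 0 := fun h => ht0 (Subtype.ext h)
  have hspan : ∀ {c : ℕ} {z : Fin c → Q},
      Ideal.span (Set.range z) = Ideal.span (Set.range δ) →
      Submodule.span Q {y : K | ∃ x ∈ Q, y = σ x - x} =
        Submodule.span Q (Set.range fun i => (t : K) * z i) := by
    intro c z hz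
    have key : ∀ (S T : Set Q), Ideal.span S ≤ Ideal.span T →
        Submodule.span Q ((fun y : Q => (t : K) * y) '' S) ≤
          Submodule.span Q ((fun y : Q => (t : K) * y) '' T) := by
      intro S T hST
      rw [Submodule.span_le]
      rintro _ ⟨s, hs, rfl⟩
      have h1 := hST (Ideal.subset_span hs)
      have h2 : ∀ y ∈ Ideal.span T, (t : K) * y ∈
          Submodule.span Q ((fun y : Q => (t : K) * y) '' T) := by
        intro y hy
        induction hy using Submodule.span_induction with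
        | mem y hy => exact Submodule.subset_span ⟨y, hy, rfl⟩
        | zero =>
          rw [ZeroMemClass.coe_zero, mul_zero]
          exact Submodule.zero_mem _
        | add a b _ _ ha hb =>
          rw [Subring.coe_add, mul_add]
          exact Submodule.add_mem _ ha hb
        | smul r a _ ha =>
          have h3 : (t : K) * ((r • a : Q) : K) = r • ((t : K) * a) := by
            rw [smul_eq_mul, Subring.coe_mul, Subring.smul_def, smul_eq_mul]
            ring
          rw [h3]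
          exact Submodule.smul_mem _ _ ha
      exact h2 s h1
    have h1 : {y : K | ∃ x ∈ Q, y = σ x - x} = (fun y : Q => (t : K) * y) '' Set.range δ := by
      ext y
      constructor
      · rintro ⟨x, hx, rfl⟩
        refine ⟨δ ⟨x, hx⟩, ⟨_, rfl⟩, ?_⟩
        have := hδ ⟨x, hx⟩
        change (t : K) * δ ⟨x, hx⟩ = σ x - x
        rw [this]
        ring
      · rintro ⟨_, ⟨x, rfl⟩, rfl⟩
        refine ⟨x, x.2, ?_⟩
        change (t : K) * δ x = σ x - x
        rw [hδ x]
        ring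
    have h2 : (Set.range fun i => (t : K) * z i) = (fun y : Q => (t : K) * y) '' Set.range z := by
      ext y
      constructor
      · rintro ⟨i, rfl⟩
        exact ⟨z i, ⟨i, rfl⟩, rfl⟩
      · rintro ⟨_, ⟨i, rfl⟩, rfl⟩
        exact ⟨i, rfl⟩
    rw [h1, h2]
    exact le_antisymm (key _ _ hz.ge) (key _ _ hz.le)
  rcases hJ with hJ | hJ
  · -- the unit ideal
    have h1 : ∃ x : Q, IsUnit (δ x) := by
      by_contra hcon
      push Not at hcon
      have h2 : Ideal.span (Set.range δ) ≤ maximalIdeal Q := by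
        rw [Ideal.span_le]
        rintro _ ⟨x, rfl⟩
        exact (mem_maximalIdeal _).2 (hcon x)
      rw [hJ, top_le_iff] at h2
      exact (maximalIdeal.isMaximal Q).ne_top h2
    obtain ⟨x, hx⟩ := h1
    have h2 : (δ x : K) ≠ 0 := fun h => hx.ne_zero (Subtype.ext h)
    have h3 : (δ x : K)⁻¹ ∈ W := by
      obtain ⟨y, hy⟩ := isUnit_iff_exists_inv.1 hx
      have h4 : (δ x : K) * y = 1 := congrArg Subtype.val hy
      have h5 : (δ x : K)⁻¹ = y := by
        rw [← mul_one (δ x : K)⁻¹, ← h4, ← mul_assoc, inv_mul_cancel₀ h2, one_mul]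
      rw [h5]
      exact hQW y.2
    refine ⟨t, 1, fun _ => (δ x : K), ht0', regP_unit hQW hIC hreg (δ x).2 h2 h3, ?_⟩
    refine hspan (z := fun _ => δ x) ?_
    rw [hJ, Ideal.eq_top_iff_one]
    obtain ⟨y, hy⟩ := isUnit_iff_exists_inv'.1 hx
    rw [← hy]
    exact Ideal.mul_mem_left _ _ (Ideal.subset_span ⟨0, rfl⟩)
  · obtain ⟨c, y, hy, hyJ⟩ := ideal_ind (Ideal.span (Set.range δ))
    exact ⟨t, c, fun i => (y i : K), ht0', regP_of_ind hQW hIC hreg hy, hspan hyJ.symm⟩

/-- The conditions at a point. -/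
theorem cond_of {W : ValuationSubring K} {Q : Subring K} (hQW : Q ≤ W.toSubring)
    (hIC : IC W.toSubring Q) (hreg : IsRegularLocalRing Q) {I : Submodule O K} {m : K}
    (hI : ∀ n ∈ I, n / m ∈ Q) (hI0 : ∃ n ∈ I, n ≠ 0) (hm0 : m ≠ 0) {𝔞 : Ideal Q}
    (h𝔞 : 𝔞 = Ideal.span {y : Q | ∃ n ∈ I, (y : K) = n / m})
    (hσ : ∀ x, σ (σ x) = x) (hσ1 : ∃ x ∈ Q, σ x ≠ x)
    (hZ : 𝔞 = ⊤ ∨ IsRegularLocalRing (Q ⧸ 𝔞))
    (hoff : ¬ IsUnit (2 : Q) → IsFixed σ Q → 𝔞 = ⊤ → RegularWild σ Q)
    (hon : ¬ IsUnit (2 : Q) → IsFixed σ Q → 𝔞 ≠ ⊤ → NondegenerateWild σ Q 𝔞) :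
    Cond σ I W Q m := by
  classical
  have hmax : ∀ y : Q, y ∈ maximalIdeal Q ↔ NU W.toSubring (y : K) := mem_max_iff hQW hIC
  have h2 : NU W.toSubring (2 : K) → ¬ IsUnit (2 : Q) := by
    intro h
    have h1 := (hmax 2).2 h
    exact (mem_maximalIdeal _).1 h1
  have hfix : Fx σ W Q → IsFixed σ Q := by
    intro h x
    refine ⟨⟨σ x, (h x x.2).1⟩, rfl, ?_⟩
    have h1 := (hmax (⟨σ x, (h x x.2).1⟩ - x)).2 (h x x.2).2
    exact (mem_maximalIdeal _).1 h1
  have h𝔞top : 𝔞 = ⊤ ↔ ∃ n ∈ I, ¬ NU W.toSubring (n / m) := by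
    constructor
    · intro h
      by_contra hcon
      push Not at hcon
      have h1 : 𝔞 ≤ maximalIdeal Q := by
        rw [h𝔞, Ideal.span_le]
        rintro y ⟨n, hn, hyn⟩
        rw [SetLike.mem_coe, hmax, hyn]
        exact hcon n hn
      rw [h, top_le_iff] at h1
      exact (maximalIdeal.isMaximal Q).ne_top h1
    · rintro ⟨n, hn, hnu⟩
      have h1 : (⟨n / m, hI n hn⟩ : Q) ∈ 𝔞 := by
        rw [h𝔞]
        exact Ideal.subset_span ⟨n, hn, rfl⟩
      refine Ideal.eq_top_of_isUnit_mem _ h1 ?_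
      by_contra h3
      exact hnu ((hmax _).1 ((mem_maximalIdeal _).2 h3))
  refine ⟨hreg, ?_, ?_⟩
  · intro h1 h3 h4
    exact gd_of_regular hQW hIC hreg (hoff (h2 h3) (hfix h4) (h𝔞top.2 h1))
  · intro h1
    have hne : 𝔞 ≠ ⊤ := by
      intro h3
      obtain ⟨n, hn, hnu⟩ := h𝔞top.1 h3
      exact hnu (h1 n hn)
    have hZ' := hZ.resolve_left hne
    obtain ⟨c, y, hy, hyJ⟩ := ideal_ind 𝔞
    have hr := regP_of_ind hQW hIC hreg hy
    have hgen : 𝔞 = Ideal.span (Set.range fun i => (⟨(y i : K), hr.mem i⟩ : Q)) := hyJ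
    have hyN : ∀ i, NU W.toSubring (y i : K) := fun i => (hmax _).1 (hy.1 i)
    refine ⟨c, fun i => (y i : K), 𝔞, hr, hyN, hgen, h𝔞, fun h3 h4 => ?_⟩
    obtain ⟨t, ε, δ, ht0, hδ, hδδ, hε, hδI, hδI2, N, hN⟩ := hon (h2 h3) (hfix h4) hne
    have ht0' : (t : K) ≠ 0 := fun h => ht0 (Subtype.ext h)
    have hδ' : ∀ x : Q, (σ x - x) / (t : K) = δ x := by
      intro x
      rw [hδ x]
      field_simp
      ring
    have htau : ∀ x ∈ Q, (σ x - x) / (t : K) ∈ Q := fun x hx => by
      rw [hδ' ⟨x, hx⟩]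
      exact (δ ⟨x, hx⟩).2
    have hδe : ∀ x : Q, (⟨(σ x - x) / (t : K), htau x x.2⟩ : Q) = δ x :=
      fun x => Subtype.ext (hδ' x)
    have hep : ep σ (t : K) = ε := by
      obtain ⟨x, hx, hxσ⟩ := hσ1
      have h5 := tau_tau (σ := σ) hσ ht0' x
      have h6 := hδ' ⟨x, hx⟩
      change (σ x - x) / (t : K) = _ at h6
      have h7 := hδ' (δ ⟨x, hx⟩)
      rw [h6, h7, hδδ, Subring.coe_mul] at h5
      have h8 : (δ ⟨x, hx⟩ : K) ≠ 0 := by
        rw [← h6]
        exact div_ne_zero (sub_ne_zero.2 hxσ) ht0'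
      exact (mul_right_cancel₀ h8 h5).symm
    have hepQ : ep σ (t : K) ∈ Q := by
      rw [hep]
      exact ε.2
    have hepe : (⟨ep σ (t : K), hepQ⟩ : Q) = ε := Subtype.ext hep
    refine ⟨t, hr, hyN, hgen, t.2, ht0', htau, fun x => by rw [hδe]; exact hδI x,
      fun x hx => by rw [hδe]; exact hδI2 x hx, hepQ, by rw [hepe]; exact hε, N, ?_⟩
    refine hN.trans (sup_le_sup (Ideal.mul_mono_left ?_) (Ideal.mul_mono_left ?_))
    · rw [hepe]
      refine sup_le_sup le_rfl (Ideal.span_mono ?_)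
      rintro _ ⟨x, rfl⟩
      exact ⟨x, (hδ' x).symm⟩
    · refine Ideal.span_mono ?_
      rintro _ ⟨x, hx, rfl⟩
      exact ⟨x, hx, (hδ' x).symm⟩

end

end Pool.Agent.Y223.INV
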