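import Pool.Agent.Y223.INV.Fin2
import Pool.Agent.TH214.RM.Fin

/-!
# Quotients by involutions over a quadratic extension: the module of the twisted form
-/

set_option autoImplicit false
set_option linter.unusedVariables false
set_option linter.unusedSectionVars false

open scoped Pointwise

namespace Pool.Agent.Y223.INV

open IsLocalRing Pool.Agent.TH188.QS Pool.Agent.TH188.ARC Pool.Agent.W418.LU2
  Pool.Agent.H918R2.Quad Polynomial

section

variable {O E F K : Type} [CommRing O] [IsDomain O] [Field E] [Algebra O E] [IsFractionRing O E]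
  [Field F] [Field K] [Algebra O F] [Algebra E F] [IsScalarTower O E F] [Algebra O K] [Algebra F K]
  [IsScalarTower O F K]

/-- The module is commensurable to the module `P ⊕ δ P`. -/
structure Tw (P : Submodule E F) (δ : K) (M : Submodule O K) : Prop where
  le : ∀ y ∈ M, ∃ a ∈ P, ∃ b ∈ P, y = algebraMap F K a + δ * algebraMap F K b
  ge : ∀ n ∈ P, ∃ s : O, s ≠ 0 ∧ s • algebraMap F K n ∈ M ∧ s • (δ * algebraMap F K n) ∈ M

variable {P P' : Submodule E F} {δ : K} {M M' : Submodule O K}

lemma algebraMap_smul' (s : O) (n : F) : s • algebraMap F K n = algebraMap F K (s • n) := by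
  rw [Algebra.smul_def, Algebra.smul_def, map_mul, ← IsScalarTower.algebraMap_apply O F K]

/-- Products. -/
theorem Tw.mul {d : E} (hd : δ ^ 2 = algebraMap F K (algebraMap E F d)) (h : Tw P δ M)
    (h' : Tw P' δ M') : Tw (P * P') δ (M * M') := by
  constructor
  · intro y hy
    refine Submodule.mul_induction_on hy ?_ ?_
    · intro u hu v hv
      obtain ⟨a, ha, b, hb, rfl⟩ := h.le u hu
      obtain ⟨a', ha', b', hb', rfl⟩ := h'.le v hv
      refine ⟨a * a' + d • (b * b'), Submodule.add_mem _ (Submodule.mul_mem_mul ha ha')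
        (Submodule.smul_mem _ _ (Submodule.mul_mem_mul hb hb')), a * b' + b * a',
        Submodule.add_mem _ (Submodule.mul_mem_mul ha hb') (Submodule.mul_mem_mul hb ha'), ?_⟩
      rw [Algebra.smul_def]
      simp only [map_add, map_mul]
      linear_combination (algebraMap F K b * algebraMap F K b') * hd
    · rintro u v ⟨a, ha, b, hb, rfl⟩ ⟨a', ha', b', hb', rfl⟩
      refine ⟨a + a', Submodule.add_mem _ ha ha', b + b', Submodule.add_mem _ hb hb', ?_⟩
      simp only [map_add]
      ring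
  · intro n hn
    refine Submodule.mul_induction_on hn ?_ ?_
    · intro a ha b hb
      obtain ⟨s, hs, h1, h2⟩ := h.ge a ha
      obtain ⟨t, ht, h3, -⟩ := h'.ge b hb
      refine ⟨s * t, mul_ne_zero hs ht, ?_, ?_⟩
      · have : (s * t) • algebraMap F K (a * b) =
            (s • algebraMap F K a) * (t • algebraMap F K b) := by
          rw [map_mul, smul_mul_smul_comm]
        rw [this]
        exact Submodule.mul_mem_mul h1 h3
      · have : (s * t) • (δ * algebraMap F K (a * b)) =
            (s • (δ * algebraMap F K a)) * (t • algebraMap F K b) := by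
          rw [map_mul, smul_mul_smul_comm, mul_assoc]
        rw [this]
        exact Submodule.mul_mem_mul h2 h3
    · rintro a b ⟨s, hs, h1, h2⟩ ⟨t, ht, h3, h4⟩
      refine ⟨s * t, mul_ne_zero hs ht, ?_, ?_⟩
      · have : (s * t) • algebraMap F K (a + b) =
            t • (s • algebraMap F K a) + s • (t • algebraMap F K b) := by
          rw [map_add, smul_add, smul_smul, smul_smul, mul_comm t s]
        rw [this]
        exact Submodule.add_mem _ (Submodule.smul_mem _ _ h1) (Submodule.smul_mem _ _ h3)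
      · have : (s * t) • (δ * algebraMap F K (a + b)) =
            t • (s • (δ * algebraMap F K a)) + s • (t • (δ * algebraMap F K b)) := by
          rw [map_add, mul_add, smul_add, smul_smul, smul_smul, mul_comm t s]
        rw [this]
        exact Submodule.add_mem _ (Submodule.smul_mem _ _ h2) (Submodule.smul_mem _ _ h4)

variable {σ : K ≃ₐ[O] K}

theorem Tw.sm (hσF : ∀ f : F, σ (algebraMap F K f) = algebraMap F K f) (hσδ : σ δ = - δ)
    (h : Tw P δ M) : Tw P δ (SM σ M) := by
  constructor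
  · rintro _ ⟨y, hy, rfl⟩
    obtain ⟨a, ha, b, hb, rfl⟩ := h.le y hy
    refine ⟨a, ha, -b, Submodule.neg_mem _ hb, ?_⟩
    change σ (algebraMap F K a + δ * algebraMap F K b) = _
    rw [map_add, map_mul, hσF, hσF, hσδ, map_neg]
    ring
  · intro n hn
    obtain ⟨s, hs, h1, h2⟩ := h.ge n hn
    refine ⟨s, hs, ⟨_, h1, ?_⟩, ⟨_, Submodule.neg_mem _ h2, ?_⟩⟩
    · change σ (s • algebraMap F K n) = _
      rw [map_smul, hσF]
    · change σ (-(s • (δ * algebraMap F K n))) = _
      rw [map_neg, map_smul, map_mul, hσF, hσδ, neg_mul, smul_neg, neg_neg]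

/-- The symmetric part. -/
theorem Tw.vf_le (hδ : ∀ f : F, algebraMap F K f ≠ δ) (h : Tw P δ (M * SM σ M)) {f : F}
    (hf : f ∈ VF F σ M) : f ∈ P := by
  obtain ⟨a, ha, b, hb, hab⟩ := h.le _ (mem_VF.1 hf)
  have hb0 : b = 0 := by
    by_contra hb0
    apply hδ ((f - a) / b)
    have : algebraMap F K b ≠ 0 := fun h => hb0 ((map_eq_zero _).1 h)
    rw [map_div₀, map_sub, hab, add_sub_cancel_left, mul_div_cancel_right₀ _ this]
  rw [hb0, map_zero, mul_zero, add_zero] at hab
  rwa [(algebraMap F K).injective hab]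

theorem Tw.vf_ge (h : Tw P δ (M * SM σ M)) {n : F} (hn : n ∈ P) :
    ∃ s : O, s ≠ 0 ∧ s • n ∈ VF F σ M := by
  obtain ⟨s, hs, h1, -⟩ := h.ge n hn
  refine ⟨s, hs, mem_VF.2 ?_⟩
  rwa [← algebraMap_smul']

/-- The antisymmetric part. -/
theorem Tw.wd_le (hσF : ∀ f : F, σ (algebraMap F K f) = algebraMap F K f) (hσδ : σ δ = - δ)
    (h : Tw P δ M) {y : K} (hy : y ∈ WD σ M) : ∃ c ∈ P * P, y = δ * algebraMap F K c := by
  induction hy using Submodule.span_induction with
  | mem y hy =>
    obtain ⟨u, hu, v, hv, rfl⟩ := hy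
    obtain ⟨a, ha, b, hb, rfl⟩ := h.le u hu
    obtain ⟨a', ha', b', hb', rfl⟩ := h.le v hv
    refine ⟨(2 : ℕ) • (a * b' - a' * b), nsmul_mem (Submodule.sub_mem _
      (Submodule.mul_mem_mul ha hb') (Submodule.mul_mem_mul ha' hb)) 2, ?_⟩
    rw [wd]
    simp only [map_add, map_mul, map_sub, hσF, hσδ, nsmul_eq_mul, Nat.cast_ofNat, map_ofNat]
    ring
  | zero => exact ⟨0, Submodule.zero_mem _, by rw [map_zero, mul_zero]⟩
  | add x y _ _ hx hy =>
    obtain ⟨c, hc, rfl⟩ := hx
    obtain ⟨c', hc', rfl⟩ := hy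
    exact ⟨c + c', Submodule.add_mem _ hc hc', by rw [map_add, mul_add]⟩
  | smul r x _ hx =>
    obtain ⟨c, hc, rfl⟩ := hx
    refine ⟨algebraMap O E r • c, Submodule.smul_mem _ _ hc, ?_⟩
    rw [Algebra.smul_def, Algebra.smul_def, map_mul, ← IsScalarTower.algebraMap_apply O E F,
      ← IsScalarTower.algebraMap_apply O F K]
    ring

theorem Tw.wd_ge (hσF : ∀ f : F, σ (algebraMap F K f) = algebraMap F K f) (hσδ : σ δ = - δ)
    (h2 : (2 : O) ≠ 0) (h : Tw P δ M) {n : F} (hn : n ∈ P * P) :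
    ∃ s : O, s ≠ 0 ∧ s • (δ * algebraMap F K n) ∈ WD σ M := by
  refine Submodule.mul_induction_on hn ?_ ?_
  · intro a ha b hb
    obtain ⟨s, hs, h3, h4⟩ := h.ge a ha
    obtain ⟨t, ht, h5, -⟩ := h.ge b hb
    refine ⟨2 * (s * t), mul_ne_zero h2 (mul_ne_zero hs ht), ?_⟩
    have h6 := Submodule.neg_mem _ (wd_mem (σ := σ) h4 h5)
    have h7 : -wd σ (s • (δ * algebraMap F K a)) (t • algebraMap F K b) =
        (2 * (s * t)) • (δ * algebraMap F K (a * b)) := by
      rw [wd]
      simp only [map_mul, hσF, hσδ, Algebra.smul_def, map_ofNat, σ.commutes]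
      ring
    rwa [h7] at h6
  · rintro a b ⟨s, hs, h3⟩ ⟨t, ht, h4⟩
    refine ⟨s * t, mul_ne_zero hs ht, ?_⟩
    have h5 : (s * t) • (δ * algebraMap F K (a + b)) =
        t • (s • (δ * algebraMap F K a)) + s • (t • (δ * algebraMap F K b)) := by
      rw [map_add, mul_add, smul_add, smul_smul, smul_smul, mul_comm t s]
    rw [h5]
    exact Submodule.add_mem _ (Submodule.smul_mem _ _ h3) (Submodule.smul_mem _ _ h4)

/-- The charts of a multiple of a module. -/
lemma chart_map {c : F} (hc : c ≠ 0) (M' : Submodule O F) {g : F} :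
    chart O (M'.map (LinearMap.mulLeft O c)) (c * g) = chart O M' g := by
  have h1 : {y | ∃ m ∈ M'.map (LinearMap.mulLeft O c), y = m / (c * g)} =
      {y | ∃ m ∈ M', y = m / g} := by
    ext y
    constructor
    · rintro ⟨_, ⟨m, hm, rfl⟩, rfl⟩
      refine ⟨m, hm, ?_⟩
      change c * m / (c * g) = m / g
      rw [mul_div_mul_left _ _ hc]
    · rintro ⟨m, hm, rfl⟩
      refine ⟨c * m, ⟨m, hm, rfl⟩, ?_⟩
      rw [mul_div_mul_left _ _ hc]
  change Algebra.adjoin O _ = Algebra.adjoin O _
  rw [h1]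

/-- Good modules. -/
theorem goodModule_of {ι : Type} {x : ι → F} {D : ℕ} (hD : 1 ≤ D) {M' : Submodule O F}
    (hM' : M'.FG) (h0 : ∃ f ∈ M', f ≠ 0) {ω : F} (hω : ω ≠ 0)
    (hle : ∀ f ∈ M', ω * f ∈ Submodule.span E (Set.range x ^ D))
    (hge : ∀ n ∈ Submodule.span E (Set.range x ^ D), ∃ s : O, s ≠ 0 ∧ s • (n / ω) ∈ M')
    (hreg : ∀ f ∈ M', f ≠ 0 → ∀ (q : Ideal (chart O M' f)) [q.IsPrime],
      IsRegularLocalRing (Localization.AtPrime q)) : Pool.Agent.W418.GoodModule O x := by
  classical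
  obtain ⟨S, rfl⟩ := hM'
  have h1 : ∀ f ∈ S, ∃ t : O, t ≠ 0 ∧ t • (ω * f) ∈ Submodule.span O (Set.range x ^ D) :=
    fun f hf => Pool.Agent.W418.exists_smul_span (O := O) (K := E) (Set.range x ^ D) _
      (hle f (Submodule.subset_span hf))
  have h2 : ∃ t : O, t ≠ 0 ∧ ∀ f ∈ S, t • (ω * f) ∈ Submodule.span O (Set.range x ^ D) := by
    clear hle hge hreg h0
    induction S using Finset.induction_on with
    | empty => exact ⟨1, one_ne_zero, fun f hf => absurd hf (Finset.notMem_empty _)⟩
    | insert a S ha ih =>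
      obtain ⟨t, ht, h3⟩ := ih fun f hf => h1 f (Finset.mem_insert_of_mem hf)
      obtain ⟨u, hu, h4⟩ := h1 a (Finset.mem_insert_self _ _)
      refine ⟨t * u, mul_ne_zero ht hu, fun f hf => ?_⟩
      rcases Finset.mem_insert.1 hf with rfl | hf
      · rw [mul_smul]
        exact Submodule.smul_mem _ _ h4
      · rw [mul_comm, mul_smul]
        exact Submodule.smul_mem _ _ (h3 f hf)
  obtain ⟨t, ht, h3⟩ := h2
  set c := algebraMap O F t * ω with hc
  have hOF : Function.Injective (algebraMap O F) := by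
    rw [IsScalarTower.algebraMap_eq O E F]
    exact (algebraMap E F).injective.comp (IsFractionRing.injective O E)
  have hc0 : c ≠ 0 := mul_ne_zero (fun h => ht (hOF (by rw [h, map_zero]))) hω
  set M' := Submodule.span O (S : Set F) with hM'
  refine ⟨D, M'.map (LinearMap.mulLeft O c), hD, (Submodule.fg_span S.finite_toSet).map _, ?_, ?_,
    ?_, ?_⟩
  · obtain ⟨f, hf, hf0⟩ := h0
    exact ⟨c * f, ⟨f, hf, rfl⟩, mul_ne_zero hc0 hf0⟩
  · rintro _ ⟨f, hf, rfl⟩
    change c * f ∈ _
    induction hf using Submodule.span_induction with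
    | mem f hf =>
      have h4 := h3 f hf
      rwa [Algebra.smul_def, ← mul_assoc] at h4
    | zero => rw [mul_zero]; exact Submodule.zero_mem _
    | add a b _ _ ha hb => rw [mul_add]; exact Submodule.add_mem _ ha hb
    | smul r a _ ha => rw [mul_smul_comm]; exact Submodule.smul_mem _ _ ha
  · intro y hy
    have h4 : y ∈ Submodule.span E (Set.range x ^ D) :=
      Submodule.span_subset_span O E _ hy
    obtain ⟨s, hs, h5⟩ := hge y h4
    refine ⟨s * t, mul_ne_zero hs ht, _, h5, ?_⟩
    change c * (s • (y / ω)) = _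
    rw [hc, Algebra.smul_def, Algebra.smul_def, map_mul]
    field_simp
  · rintro _ ⟨g, hg, rfl⟩ hg0 q hq
    change c * g ≠ 0 at hg0
    have h5 : ∀ (R : Subalgebra O F) (_ : R = chart O M' g) (q : Ideal R) [q.IsPrime],
        IsRegularLocalRing (Localization.AtPrime q) := by
      rintro R rfl q hq
      exact hreg g hg (right_ne_zero_of_mul hg0) q
    exact @h5 _ (chart_map hc0 M') q hq

/-- The quotient is a good model of the twisted form. -/
theorem tw_good [IsNoetherianRing O] [Algebra E K] [IsScalarTower E F K] [IsScalarTower O E K]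
    {ι ι' : Type} [Finite ι] [Nonempty ι] (x : ι' → F) {m : ℕ} (hm : 1 ≤ m) {d : E}
    (hd : δ ^ 2 = algebraMap F K (algebraMap E F d)) (hδ : ∀ f : F, algebraMap F K f ≠ δ)
    (hK : ∀ y : K, ∃ a b : F, y = algebraMap F K a + δ * algebraMap F K b) (h2 : (2 : O) ≠ 0)
    (σ : K ≃ₐ[O] K) (hσF : ∀ f : F, σ (algebraMap F K f) = algebraMap F K f) (hσδ : σ δ = - δ)
    (H : ι → K) (hH : ∀ j, H j ≠ 0) (hreg : ∀ j, IsRegularRing (CR O H j))
    (hH1 : ∀ j, ∃ a ∈ Submodule.span E (Set.range x ^ m), ∃ b ∈ Submodule.span E (Set.range x ^ m),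
      H j = algebraMap F K a + δ * algebraMap F K b)
    (hH2 : ∀ n ∈ Set.range x ^ m, algebraMap F K n ∈ Submodule.span E (Set.range H) ∧
      δ * algebraMap F K n ∈ Submodule.span E (Set.range H))
    (hσH : ∀ j, σ (H j) ∈ Submodule.span O (Set.range H))
    (I : Submodule O K) (hI : I ≤ Submodule.span O (Set.range H)) {s₀ : O} (hs₀ : s₀ ≠ 0)
    (hs₀I : ∀ y ∈ Submodule.span O (Set.range H), s₀ • y ∈ I) (hσI : ∀ x ∈ I, σ x ∈ I)
    (hpt : ∀ j (𝔮 : Ideal (CR O H j)) [𝔮.IsPrime], PC σ (LocalSubring.ofPrime (CR O H j) 𝔮).toSubring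
      (IA I (H j) (LocalSubring.ofPrime (CR O H j) 𝔮).toSubring)) :
    Pool.Agent.W418.GoodModule O x := by
  classical
  set M := Submodule.span O (Set.range H) with hM
  set P := Submodule.span E (Set.range x ^ m) with hP
  have hOK : Function.Injective (algebraMap O K) := by
    rw [IsScalarTower.algebraMap_eq O E K]
    exact (algebraMap E K).injective.comp (IsFractionRing.injective O E)
  have h2K : (2 : K) ≠ 0 := by
    intro h
    apply h2
    apply hOK
    rw [map_ofNat, h, map_zero]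
  have hδ0 : δ ≠ 0 := fun h => hδ 0 (by rw [map_zero, h])
  have hσ : ∀ y, σ (σ y) = y := by
    intro y
    obtain ⟨a, b, rfl⟩ := hK y
    simp only [map_add, map_mul, hσF, hσδ, map_neg, neg_neg]
  have hF : ∀ y, σ y = y ↔ ∃ f : F, algebraMap F K f = y := by
    intro y
    constructor
    · intro h
      obtain ⟨a, b, rfl⟩ := hK y
      simp only [map_add, map_mul, hσF, hσδ] at h
      have h3 : (2 : K) * (δ * algebraMap F K b) = 0 := by linear_combination -h
      refine ⟨a, ?_⟩
      rw [(mul_eq_zero.1 h3).resolve_left h2K, add_zero]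
    · rintro ⟨f, rfl⟩
      exact hσF f
  -- the modules
  have hspan : ∀ y ∈ Submodule.span E (Set.range H), ∃ s : O, s ≠ 0 ∧ s • y ∈ M := fun y hy =>
    Pool.Agent.W418.exists_smul_span (O := O) (K := E) (Set.range H) y hy
  have hle : ∀ y ∈ M, ∃ a ∈ P, ∃ b ∈ P, y = algebraMap F K a + δ * algebraMap F K b := by
    intro y hy
    induction hy using Submodule.span_induction with
    | mem y hy =>
      obtain ⟨j, rfl⟩ := hy
      exact hH1 j
    | zero =>
      exact ⟨0, Submodule.zero_mem _, 0, Submodule.zero_mem _, by rw [map_zero, mul_zero, add_zero]⟩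
    | add u v _ _ hu hv =>
      obtain ⟨a, ha, b, hb, rfl⟩ := hu
      obtain ⟨a', ha', b', hb', rfl⟩ := hv
      refine ⟨a + a', Submodule.add_mem _ ha ha', b + b', Submodule.add_mem _ hb hb', ?_⟩
      simp only [map_add]
      ring
    | smul r u _ hu =>
      obtain ⟨a, ha, b, hb, rfl⟩ := hu
      refine ⟨algebraMap O E r • a, Submodule.smul_mem _ _ ha, algebraMap O E r • b,
        Submodule.smul_mem _ _ hb, ?_⟩
      rw [Algebra.smul_def, Algebra.smul_def, Algebra.smul_def, map_mul, map_mul,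
        ← IsScalarTower.algebraMap_apply O E F, ← IsScalarTower.algebraMap_apply O F K]
      ring
  have hspan2 : ∀ n ∈ P, algebraMap F K n ∈ Submodule.span E (Set.range H) ∧
      δ * algebraMap F K n ∈ Submodule.span E (Set.range H) := by
    intro n hn
    induction hn using Submodule.span_induction with
    | mem n hn => exact hH2 n hn
    | zero =>
      rw [map_zero, mul_zero]
      exact ⟨Submodule.zero_mem _, Submodule.zero_mem _⟩
    | add a b _ _ ha hb =>
      rw [map_add, mul_add]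
      exact ⟨Submodule.add_mem _ ha.1 hb.1, Submodule.add_mem _ ha.2 hb.2⟩
    | smul r a _ ha =>
      have h3 : algebraMap F K (r • a) = r • algebraMap F K a := by
        rw [Algebra.smul_def, Algebra.smul_def, map_mul, ← IsScalarTower.algebraMap_apply E F K]
      rw [h3, mul_smul_comm]
      exact ⟨Submodule.smul_mem _ _ ha.1, Submodule.smul_mem _ _ ha.2⟩
  have hTM : Tw P δ M := by
    refine ⟨hle, fun n hn => ?_⟩
    obtain ⟨h3, h4⟩ := hspan2 n hn
    obtain ⟨s, hs, h5⟩ := hspan _ h3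
    obtain ⟨t, ht, h6⟩ := hspan _ h4
    refine ⟨s * t, mul_ne_zero hs ht, ?_, ?_⟩
    · rw [mul_comm, mul_smul]
      exact Submodule.smul_mem _ _ h5
    · rw [mul_smul]
      exact Submodule.smul_mem _ _ h6
  have hTI : Tw P δ I := by
    refine ⟨fun y hy => hle y (hI hy), fun n hn => ?_⟩
    obtain ⟨s, hs, h3, h4⟩ := hTM.ge n hn
    refine ⟨s₀ * s, mul_ne_zero hs₀ hs, ?_, ?_⟩
    · rw [mul_smul]
      exact hs₀I _ h3
    · rw [mul_smul]
      exact hs₀I _ h4
  have hTMI := hTM.mul hd hTI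
  have hTS := hTMI.mul hd (hTMI.sm hσF hσδ)
  -- a nonzero element
  obtain ⟨j₀⟩ := (inferInstance : Nonempty ι)
  obtain ⟨n, hn, hn0⟩ : ∃ n ∈ P, n ≠ 0 := by
    obtain ⟨a, ha, b, hb, hab⟩ := hH1 j₀
    by_cases ha0 : a = 0
    · refine ⟨b, hb, ?_⟩
      rintro rfl
      apply hH j₀
      rw [hab, ha0, map_zero, mul_zero, add_zero]
    · exact ⟨a, ha, ha0⟩
  have hI0 : I ≠ ⊥ := by
    rw [Ne, Submodule.eq_bot_iff]
    intro h
    have h3 := h _ (hs₀I _ (Submodule.subset_span ⟨j₀, rfl⟩))
    rw [Algebra.smul_def] at h3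
    rcases mul_eq_zero.1 h3 with h4 | h4
    · exact hs₀ (hOK (by rw [h4, map_zero]))
    · exact hH j₀ h4
  have hne : ∃ y ∈ M, σ (y / H j₀) ≠ y / H j₀ := by
    by_contra hcon
    push Not at hcon
    obtain ⟨s, hs, h3, h4⟩ := hTM.ge n hn
    have h5 := hcon _ h3
    have h6 := hcon _ h4
    have hn' : algebraMap F K n ≠ 0 := fun h => hn0 ((map_eq_zero _).1 h)
    have hs' : algebraMap O K s ≠ 0 := fun h => hs (hOK (by rw [h, map_zero]))
    have h7 : s • (δ * algebraMap F K n) / H j₀ = δ * (s • algebraMap F K n / H j₀) := by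
      rw [Algebra.smul_def, Algebra.smul_def]
      ring
    rw [h7, map_mul, h5, hσδ] at h6
    have h8 : (2 : K) * (δ * (s • algebraMap F K n / H j₀)) = 0 := by linear_combination -h6
    have h9 : s • algebraMap F K n / H j₀ ≠ 0 := by
      rw [Algebra.smul_def]
      exact div_ne_zero (mul_ne_zero hs' hn') (hH j₀)
    exact mul_ne_zero h2K (mul_ne_zero hδ0 h9) h8
  -- the antisymmetric element
  obtain ⟨s, hs, hu, hv⟩ := hTMI.ge (n * n) (Submodule.mul_mem_mul hn hn)
  have hn2 : algebraMap F K (n * n) ≠ 0 := fun h => mul_ne_zero hn0 hn0 ((map_eq_zero _).1 h)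
  have hs' : algebraMap O K s ≠ 0 := fun h => hs (hOK (by rw [h, map_zero]))
  set u := s • algebraMap F K (n * n) with hudef
  set v := s • (δ * algebraMap F K (n * n)) with hvdef
  have hwuv : wd σ v u = - (2 * (algebraMap O K s ^ 2 * (δ * algebraMap F K (n * n) ^ 2))) := by
    rw [wd, hudef, hvdef]
    simp only [Algebra.smul_def, map_mul, σ.commutes, hσF, hσδ]
    ring
  have hwuv0 : wd σ v u ≠ 0 := by
    rw [hwuv]
    exact neg_ne_zero.2 (mul_ne_zero h2K (mul_ne_zero (pow_ne_zero 2 hs')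
      (mul_ne_zero hδ0 (pow_ne_zero 2 hn2))))
  obtain ⟨hfg, h0, hregq⟩ := inv_quot_H (F := F) H hH hreg j₀ σ hσ hne hσH I hI hI0 hσI hpt hF
    v hv u hu hwuv0
  obtain ⟨ω, hω, hωeq⟩ := hTMI.wd_le hσF hσδ (wd_mem (σ := σ) hv hu)
  have hω0 : ω ≠ 0 := by
    rintro rfl
    apply hwuv0
    rw [hωeq, map_zero, mul_zero]
  have hPpow : (P * P) * (P * P) * ((P * P) * (P * P)) = Submodule.span E (Set.range x ^ (8 * m)) := by
    rw [← Submodule.span_pow, hP, ← Submodule.span_pow]
    ring
  refine goodModule_of (E := E) (D := 8 * m) (by omega) hfg h0 hω0 ?_ ?_ hregq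
  · intro f hf
    rw [← hPpow]
    refine Submodule.mul_induction_on hf ?_ ?_
    · intro a ha b hb
      have h3 := hTS.vf_le hδ ha
      obtain ⟨c, hc, h4⟩ := hTMI.wd_le hσF hσδ (mem_WF.1 hb)
      rw [hωeq] at h4
      have h5 : ω * b = c := by
        apply (algebraMap F K).injective
        rw [map_mul]
        apply mul_left_cancel₀ hδ0
        rw [← h4]
        ring
      have h6 : ω * (a * b) = a * (ω * b) := by ring
      rw [h6, h5]
      exact Submodule.mul_mem_mul h3 hc
    · intro a b ha hb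
      rw [mul_add]
      exact Submodule.add_mem _ ha hb
  · intro y hy
    rw [← hPpow] at hy
    refine Submodule.mul_induction_on hy ?_ ?_
    · intro a ha b hb
      obtain ⟨s, hs, h3⟩ := hTS.vf_ge ha
      obtain ⟨t, ht, h4⟩ := hTMI.wd_ge hσF hσδ h2 hb
      refine ⟨s * t, mul_ne_zero hs ht, ?_⟩
      have h5 : t • (b / ω) ∈ WF F σ (M * I) (wd σ v u) := by
        rw [mem_WF, hωeq]
        have hω' : algebraMap F K ω ≠ 0 := fun h => hω0 ((map_eq_zero _).1 h)
        have h6 : algebraMap F K (t • (b / ω)) * (δ * algebraMap F K ω) =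
            t • (δ * algebraMap F K b) := by
          rw [Algebra.smul_def, Algebra.smul_def, map_mul, map_div₀,
            ← IsScalarTower.algebraMap_apply O F K]
          field_simp
        rw [h6]
        exact h4
      have h6 : (s * t) • (a * b / ω) = (s • a) * (t • (b / ω)) := by
        rw [smul_mul_smul_comm, mul_div_assoc]
      rw [h6]
      exact Submodule.mul_mem_mul h3 h5
    · rintro a b ⟨s, hs, h3⟩ ⟨t, ht, h4⟩
      refine ⟨s * t, mul_ne_zero hs ht, ?_⟩
      have h5 : (s * t) • ((a + b) / ω) = t • (s • (a / ω)) + s • (t • (b / ω)) := by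
        rw [add_div, smul_add, smul_smul, smul_smul, mul_comm t s]
      rw [h5]
      exact Submodule.add_mem _ (Submodule.smul_mem _ _ h3) (Submodule.smul_mem _ _ h4)

end

end Pool.Agent.Y223.INV
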