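import Pool.Agent.Y223.INV.Pt
import Pool.Agent.Y223.CC.State

/-!
# The quadratic transforms of the wild isolated fixed points
-/

set_option autoImplicit false
set_option linter.unusedVariables false
set_option linter.unusedSectionVars false

namespace Pool.Agent.Y223.INV

open IsLocalRing Pool.Agent.TH188.QS Pool.Agent.TH188.ARC Pool.Agent.W418.LU2
  Pool.Agent.H918R2.Quad Polynomial

section

variable {O K : Type} [CommRing O] [Field K] [Algebra O K] {σ : K ≃ₐ[O] K}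
  {W : ValuationSubring K} {Q : Subring K}

/-- Passage to fractions. -/
theorem fix_frac {G B : Subring K} (hGW : G ≤ W.toSubring) {ω : K} (hω0 : ω ≠ 0)
    (hω : NU W.toSubring ω) (hB : B ≤ W.toSubring) (hGB : lo W.toSubring G ≤ B)
    (h : ∀ x ∈ G, σ x ∈ lo W.toSubring G ∧ (σ x - x) / ω ∈ B) :
    ∀ x ∈ lo W.toSubring G, σ x ∈ lo W.toSubring G ∧ (σ x - x) / ω ∈ B := by
  have hQW := lo_le hGW
  have hQIC : IC W.toSubring (lo W.toSubring G) := ic_lo hGW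
  rintro _ ⟨c, hc, d, hd, hd0, hdW, rfl⟩
  obtain ⟨hc1, hc2⟩ := h c hc
  obtain ⟨hd1, hd2⟩ := h d hd
  have hdNU : NU W.toSubring (σ d - d) := by
    have h2 : σ d - d = (σ d - d) / ω * ω := by field_simp
    rw [h2]
    exact NU.mul (hB hd2) hω
  have hcQ' := le_lo W.toSubring G hc
  have hdQ' := le_lo W.toSubring G hd
  obtain ⟨hsd0, hsdW⟩ := unit_of_sub (hQW hdQ') hd0 hdW (hQW hd1) hdNU
  have hsdQ : (σ d)⁻¹ ∈ lo W.toSubring G := hQIC _ hd1 hsd0 hsdW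
  have hdQ : d⁻¹ ∈ lo W.toSubring G := hQIC _ hdQ' hd0 hdW
  rw [map_mul, map_inv₀]
  refine ⟨Subring.mul_mem _ hc1 hsdQ, ?_⟩
  have h2 : (σ c * (σ d)⁻¹ - c * d⁻¹) / ω =
      (((σ c - c) / ω) * d - c * ((σ d - d) / ω)) * ((σ d)⁻¹ * d⁻¹) := by
    field_simp
    ring
  rw [h2]
  exact B.mul_mem (B.sub_mem (B.mul_mem hc2 (hGB hdQ')) (B.mul_mem (hGB hcQ') hd2))
    (B.mul_mem (hGB hsdQ) (hGB hdQ))

/-- A wild isolated fixed point whose leading form has no zeros. -/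
structure Wd (σ : K ≃ₐ[O] K) (W : ValuationSubring K) (Q : Subring K) (t : K) : Prop where
  QW : Q ≤ W.toSubring
  ic : IC W.toSubring Q
  reg : IsRegularLocalRing Q
  tQ : t ∈ Q
  t0 : t ≠ 0
  tau : ∀ x ∈ Q, (σ x - x) / t ∈ Q
  tauN : ∀ x ∈ Q, NU W.toSubring ((σ x - x) / t)
  tau2 : ∀ x : Q, ∀ hx : (x : K) ∈ Q, NU W.toSubring (x : K) →
    (⟨(σ x - x) / t, tau x hx⟩ : Q) ∈ @maximalIdeal Q _ reg.toIsLocalRing ^ 2
  epQ : ep σ t ∈ Q
  epN : NU W.toSubring (ep σ t)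
  dom : ∃ N : ℕ, @maximalIdeal Q _ reg.toIsLocalRing ^ (N + 2) ≤
    Ideal.span {(⟨ep σ t, epQ⟩ : Q)} * @maximalIdeal Q _ reg.toIsLocalRing ^ (N + 1) ⊔
    Ideal.span {y : Q | ∃ x : Q, NU W.toSubring (x : K) ∧ (y : K) = (σ x - x) / t} *
      @maximalIdeal Q _ reg.toIsLocalRing ^ N

variable {t : K}

/-- The quadratic transforms are good. -/
theorem Wd.good (hσ : ∀ x, σ (σ x) = x) (D : Wd σ W Q t) {x : K} (hx : Mi W.toSubring Q x) :
    ∃ (c : ℕ) (z : Fin c → K), Gd σ W (qt W.toSubring Q) (t * x) z := by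
  classical
  have hreg := D.reg
  have hQW := D.QW
  have ht0 := D.t0
  have hx0 := hx.ne
  have hst0 : σ t ≠ 0 := fun h => ht0 ((map_eq_zero σ).1 h)
  set Q' := qt W.toSubring Q with hQ'
  have hQQ' : Q ≤ Q' := le_qt _ _
  have hQ'W : Q' ≤ W.toSubring := qt_le hQW
  have hQ'IC : IC W.toSubring Q' := ic_qt hQW
  have hQ'reg : IsRegularLocalRing Q' := qt_reg hQW D.ic D.reg hx
  have hmax : ∀ y : Q, y ∈ maximalIdeal Q ↔ NU W.toSubring (y : K) := mem_max_iff hQW D.ic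
  have hxN : NU W.toSubring x := hx.NU
  have hdiv : ∀ y ∈ Q, NU W.toSubring y → y / x ∈ Q' := fun y hy hyN => by
    rw [div_eq_mul_inv]
    exact div_mem_qt hx hy hyN
  have hpow : ∀ (n : ℕ) (y : Q), y ∈ maximalIdeal Q ^ n → (y : K) / x ^ n ∈ Q' := by
    intro n y hy
    have := Pool.Agent.Y223.CC.pow_div_mem hQW hmax hx n y hy
    rwa [inv_pow, ← div_eq_mul_inv] at this
  have hdiv2 : ∀ y ∈ Q, NU W.toSubring y → (σ y - y) / t / x ^ 2 ∈ Q' := by
    intro y hy hyN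
    exact hpow 2 _ (D.tau2 ⟨y, hy⟩ hy hyN)
  -- the image of `x`
  set q := (σ x - x) / t / x ^ 2 with hq
  have hqQ : q ∈ Q' := hdiv2 x hx.mem hxN
  have htQ' : t ∈ Q' := hQQ' D.tQ
  have hxQ' : x ∈ Q' := hQQ' hx.mem
  have htxq : t * x * q ∈ Q' := Q'.mul_mem (Q'.mul_mem htQ' hxQ') hqQ
  have htxqN : NU W.toSubring (t * x * q) := by
    have : t * x * q = (t * q) * x := by ring
    rw [this]
    exact NU.mul (hQ'W (Q'.mul_mem htQ' hqQ)) hxN
  obtain ⟨hv0, hvW⟩ := unit_of_sub W.one_mem one_ne_zero (by rw [inv_one]; exact W.one_mem)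
    (W.add_mem _ _ W.one_mem (hQ'W htxq)) (e := 1 + t * x * q) (by
      rw [add_sub_cancel_left]; exact htxqN)
  set v := 1 + t * x * q with hv
  have hvQ : v ∈ Q' := Q'.add_mem Q'.one_mem htxq
  have hviQ : v⁻¹ ∈ Q' := hQ'IC _ hvQ hv0 hvW
  have hσx : σ x = x * v := by
    rw [hv, hq]
    field_simp
    ring
  -- the elements of `Q`
  have hσQ : ∀ y ∈ Q, σ y ∈ Q := by
    intro y hy
    have h1 : σ y = y + t * ((σ y - y) / t) := by field_simp; ring
    rw [h1]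
    exact Q.add_mem hy (Q.mul_mem D.tQ (D.tau y hy))
  have h1 : ∀ y ∈ Q, σ y ∈ Q' ∧ (σ y - y) / (t * x) ∈ Q' := by
    intro y hy
    refine ⟨hQQ' (hσQ y hy), ?_⟩
    rw [← div_div]
    exact hdiv _ (D.tau y hy) (D.tauN y hy)
  have hform : ∀ y : K, (σ (y * x⁻¹) - y * x⁻¹) / (t * x) =
      ((σ y - y) / t / x ^ 2 - y / x * q) * v⁻¹ := by
    intro y
    have h2 : σ y = y + t * x ^ 2 * ((σ y - y) / t / x ^ 2) := by field_simp; ring
    set p := (σ y - y) / t / x ^ 2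
    rw [map_mul, map_inv₀, hσx, h2]
    field_simp
    rw [hv]
    ring
  have h2 : ∀ y ∈ Q, NU W.toSubring y → σ (y * x⁻¹) ∈ Q' ∧
      (σ (y * x⁻¹) - y * x⁻¹) / (t * x) ∈ Q' := by
    intro y hy hyN
    have hyx := hdiv y hy hyN
    have h3 : (σ (y * x⁻¹) - y * x⁻¹) / (t * x) ∈ Q' := by
      rw [hform]
      exact Q'.mul_mem (Q'.sub_mem (hdiv2 y hy hyN) (Q'.mul_mem hyx hqQ)) hviQ
    refine ⟨?_, h3⟩
    have h4 : σ (y * x⁻¹) = y / x + t * x * ((σ (y * x⁻¹) - y * x⁻¹) / (t * x)) := by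
      field_simp
      ring
    rw [h4]
    exact Q'.add_mem hyx (Q'.mul_mem (Q'.mul_mem htQ' hxQ') h3)
  set G := Subring.closure ((Q : Set K) ∪ {s | ∃ y ∈ Q, NU W.toSubring y ∧ s = y * x⁻¹}) with hG
  have hGQ : Q' = lo W.toSubring G := qt_eq hQW hx
  have hGW : G ≤ W.toSubring := qcl_le hQW hx
  have hGQ' : G ≤ Q' := by
    rw [hGQ]
    exact le_lo _ _
  have htx0 : t * x ≠ 0 := mul_ne_zero ht0 hx0
  have htxN : NU W.toSubring (t * x) := NU.mul (hQW D.tQ) hxN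
  have h3 : ∀ y ∈ G, σ y ∈ Q' ∧ (σ y - y) / (t * x) ∈ Q' := by
    intro y hy
    induction hy using Subring.closure_induction with
    | mem y hy =>
      rcases hy with hy | ⟨y, hy, hyN, rfl⟩
      · exact h1 y hy
      · exact h2 y hy hyN
    | zero => rw [map_zero, sub_zero, zero_div]; exact ⟨Q'.zero_mem, Q'.zero_mem⟩
    | one => rw [map_one, sub_self, zero_div]; exact ⟨Q'.one_mem, Q'.zero_mem⟩
    | add a b _ _ ha hb =>
      rw [map_add]
      refine ⟨Q'.add_mem ha.1 hb.1, ?_⟩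
      have : (σ a + σ b - (a + b)) / (t * x) = (σ a - a) / (t * x) + (σ b - b) / (t * x) := by
        ring
      rw [this]
      exact Q'.add_mem ha.2 hb.2
    | neg a _ ha =>
      rw [map_neg]
      refine ⟨Q'.neg_mem ha.1, ?_⟩
      have : (-σ a - -a) / (t * x) = -((σ a - a) / (t * x)) := by ring
      rw [this]
      exact Q'.neg_mem ha.2
    | mul a b hac hbc ha hb =>
      rw [map_mul]
      refine ⟨Q'.mul_mem ha.1 hb.1, ?_⟩
      have : (σ a * σ b - a * b) / (t * x) =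
          σ a * ((σ b - b) / (t * x)) + (σ a - a) / (t * x) * b := by ring
      rw [this]
      exact Q'.add_mem (Q'.mul_mem ha.1 hb.2) (Q'.mul_mem ha.2 (hGQ' hbc))
  have h4 : ∀ y ∈ Q', σ y ∈ Q' ∧ (σ y - y) / (t * x) ∈ Q' := by
    have := fix_frac (σ := σ) (W := W) (B := Q') hGW htx0 htxN hQ'W (by rw [← hGQ])
      (by rw [← hGQ]; exact h3)
    rwa [← hGQ] at this
  -- the eigenvalue
  have hτt : NU W.toSubring ((σ t - t) / t) := D.tauN t D.tQ
  have hst : σ t / t = 1 + (σ t - t) / t := by field_simp; ring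
  have hstu : (σ t / t)⁻¹ ∈ W := (unit_of_sub W.one_mem one_ne_zero
    (by rw [inv_one]; exact W.one_mem) (e := σ t / t)
    (by rw [hst]; exact W.add_mem _ _ W.one_mem (hQW (D.tau t D.tQ))) (by
      rw [hst, add_sub_cancel_left]; exact hτt)).2
  have hstQ : (σ t / t)⁻¹ ∈ Q' := hQQ' (D.ic _ (by
    rw [hst]; exact Q.add_mem Q.one_mem (D.tau t D.tQ)) (div_ne_zero hst0 ht0) hstu)
  have hep : ep σ (t * x) = ep σ t / x + (σ t / t)⁻¹ * v⁻¹ * q := by
    rw [ep, ep, map_mul, hσx]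
    have hv' : v - t * x * q = 1 := by rw [hv]; ring
    field_simp
    linear_combination (-(σ t) * x) * hv'
  have hepx : ep σ t / x ∈ Q' := hdiv _ D.epQ D.epN
  have huQ : (σ t / t)⁻¹ * v⁻¹ ∈ Q' := Q'.mul_mem hstQ hviQ
  have hepQ : ep σ (t * x) ∈ Q' := by
    rw [hep]
    exact Q'.add_mem hepx (Q'.mul_mem huQ hqQ)
  refine gd_of_tau hσ hQ'W hQ'IC hQ'reg (Q'.mul_mem htQ' hxQ') htx0 (fun y hy => (h4 y hy).2)
    hepQ ?_
  intro hall
  by_contra hcon
  have hepN : NU W.toSubring (ep σ (t * x)) := hcon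
  have hA := loc_V W
  -- the relation
  set A := (σ q - q) / (t * x) with hAdef
  have hAN : NU W.toSubring A := hall q hqQ
  have hAQ : A ∈ Q' := (h4 q hqQ).2
  have hσq : σ q = q + t * x * A := by rw [hAdef]; field_simp; ring
  have hR1 : v * (1 + σ t * (x * v) * (q + t * x * A)) = 1 := by
    have h5 := hσ x
    rw [hσx, map_mul, hσx, hv, map_add, map_one, map_mul, map_mul, hσx, hσq, ← hv] at h5
    have h6 : x * (v * (1 + σ t * (x * v) * (q + t * x * A))) = x * 1 := by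
      rw [mul_one, ← mul_assoc]
      exact h5
    exact mul_left_cancel₀ hx0 h6
  have hrel : ep σ t / x * q = v * v * A + 2 * q ^ 2 + (t * x * q) * q ^ 2 := by
    rw [ep]
    field_simp
    have h6 : x * (t * q + σ t * v ^ 2 * q + σ t * x * t * v ^ 2 * A) = 0 := by
      have hv' : v = 1 + t * x * q := hv
      linear_combination hR1 - hv'
    have h7 := (mul_eq_zero.1 h6).resolve_left hx0
    have hv' : v = 1 + t * x * q := hv
    have h8 : v ^ 2 = 1 + 2 * (t * x * q) + (t * x * q) ^ 2 := by rw [hv']; ring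
    linear_combination (-1 : K) * h7 + (σ t * q) * h8
  have h2N : NU W.toSubring (2 : K) := by
    have h5 : (2 : K) = -(ep σ t * σ t) + -((σ t - t) / t) := by
      rw [ep]
      field_simp
      ring
    rw [h5]
    refine NU.add hA (W.neg_mem _ ?_) (W.neg_mem _ (hQW (D.tau t D.tQ))) (NU.neg ?_) (NU.neg hτt)
    · exact W.mul_mem _ _ (hQW D.epQ) (hQW (hσQ t D.tQ))
    · rw [mul_comm]
      exact NU.mul (hQW (hσQ t D.tQ)) D.epN
  have hq2W : q ^ 2 ∈ W.toSubring := Subring.pow_mem _ (hQ'W hqQ) 2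
  have h2W : (2 : K) ∈ W.toSubring := natCast_mem _ 2
  have hvW' : v * v ∈ W.toSubring := Subring.mul_mem _ (hQ'W hvQ) (hQ'W hvQ)
  have hepqN : NU W.toSubring (ep σ t / x * q) := by
    rw [hrel]
    refine NU.add hA (W.add_mem _ _ (W.mul_mem _ _ hvW' (hQ'W hAQ))
      (W.mul_mem _ _ h2W hq2W)) (W.mul_mem _ _ (hQ'W htxq) hq2W)
      (NU.add hA (W.mul_mem _ _ hvW' (hQ'W hAQ)) (W.mul_mem _ _ h2W hq2W)
        (NU.mul hvW' hAN) ?_) ?_
    · rw [mul_comm]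
      exact NU.mul hq2W h2N
    · rw [mul_comm]
      exact NU.mul hq2W htxqN
  set u := (σ t / t)⁻¹ * v⁻¹ with hu
  have hu0 : u ≠ 0 := mul_ne_zero (inv_ne_zero (div_ne_zero hst0 ht0)) (inv_ne_zero hv0)
  have huW : u⁻¹ ∈ W := by
    rw [hu, mul_inv, inv_inv, inv_inv, hst]
    exact W.mul_mem _ _ (W.add_mem _ _ W.one_mem (hQW (D.tau t D.tQ))) (hQ'W hvQ)
  have hq2N : NU W.toSubring (q ^ 2) := by
    have h5 : q ^ 2 = u⁻¹ * (q * ep σ (t * x) + -(ep σ t / x * q)) := by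
      rw [hep]
      field_simp
      ring
    rw [h5]
    refine NU.mul huW (NU.add hA (W.mul_mem _ _ (hQ'W hqQ) (hQ'W hepQ))
      (W.neg_mem _ (W.mul_mem _ _ (hQ'W hepx) (hQ'W hqQ)))
      (NU.mul (hQ'W hqQ) hepN) (NU.neg hepqN))
  have hqN : NU W.toSubring q := by
    rintro ⟨h5, h6⟩
    apply hq2N
    refine ⟨pow_ne_zero 2 h5, ?_⟩
    rw [← inv_pow]
    exact Subring.pow_mem _ h6 2
  have hepxN : NU W.toSubring (ep σ t / x) := by
    have h5 : ep σ t / x = ep σ (t * x) + -(u * q) := by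
      rw [hep]
      ring
    rw [h5]
    exact NU.add hA (hQ'W hepQ) (W.neg_mem _ (W.mul_mem _ _ (hQ'W huQ) (hQ'W hqQ)))
      hepN (NU.neg (NU.mul (hQ'W huQ) hqN))
  have hpN : ∀ y ∈ Q, NU W.toSubring y → NU W.toSubring ((σ y - y) / t / x ^ 2) := by
    intro y hy hyN
    have h5 : (σ y - y) / t / x ^ 2 =
        v * ((σ (y * x⁻¹) - y * x⁻¹) / (t * x)) + (y / x) * q := by
      rw [hform]
      field_simp
      ring
    have hyQ' : y * x⁻¹ ∈ Q' := by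
      rw [← div_eq_mul_inv]
      exact hdiv y hy hyN
    rw [h5]
    exact NU.add hA (W.mul_mem _ _ (hQ'W hvQ) (hQ'W (h4 _ hyQ').2))
      (W.mul_mem _ _ (hQ'W (hdiv y hy hyN)) (hQ'W hqQ))
      (NU.mul (hQ'W hvQ) (hall _ hyQ')) (NU.mul (hQ'W (hdiv y hy hyN)) hqN)
  -- the domination
  obtain ⟨N, hN⟩ := D.dom
  have hxm : (⟨x, hx.mem⟩ : Q) ∈ maximalIdeal Q := (hmax _).2 hxN
  have h5 := hN (Ideal.pow_mem_pow hxm (N + 2))
  have key : ∀ a ∈ Ideal.span {y : Q | ∃ x : Q, NU W.toSubring (x : K) ∧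
      (y : K) = (σ x - x) / t}, (a : K) / x ^ 2 ∈ Q' ∧ NU W.toSubring ((a : K) / x ^ 2) := by
    intro a ha
    induction ha using Submodule.span_induction with
    | mem a ha =>
      obtain ⟨y, hyN, hya⟩ := ha
      rw [hya]
      exact ⟨hdiv2 y y.2 hyN, hpN y y.2 hyN⟩
    | zero =>
      rw [ZeroMemClass.coe_zero, zero_div]
      exact ⟨Q'.zero_mem, NU.zero⟩
    | add a b _ _ ha hb =>
      rw [Subring.coe_add, add_div]
      exact ⟨Q'.add_mem ha.1 hb.1, NU.add hA (hQ'W ha.1) (hQ'W hb.1) ha.2 hb.2⟩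
    | smul r a _ ha =>
      rw [smul_eq_mul, Subring.coe_mul, mul_div_assoc]
      exact ⟨Q'.mul_mem (hQQ' r.2) ha.1, NU.mul (hQW r.2) ha.2⟩
  obtain ⟨u1, hu1, u2, hu2, h6⟩ := Submodule.mem_sup.1 h5
  obtain ⟨v1, hv1, rfl⟩ := Ideal.mem_span_singleton_mul.1 hu1
  have h7 : ((ep σ t * v1 : K)) / x ^ (N + 2) ∈ Q' ∧
      NU W.toSubring ((ep σ t * v1 : K) / x ^ (N + 2)) := by
    have h8 : (ep σ t * v1 : K) / x ^ (N + 2) = ((v1 : K) / x ^ (N + 1)) * (ep σ t / x) := by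
      rw [pow_succ x (N + 1)]
      field_simp
    rw [h8]
    exact ⟨Q'.mul_mem (hpow _ _ hv1) hepx, NU.mul (hQ'W (hpow _ _ hv1)) hepxN⟩
  have h8 : (u2 : K) / x ^ (N + 2) ∈ Q' ∧ NU W.toSubring ((u2 : K) / x ^ (N + 2)) := by
    refine Submodule.mul_induction_on hu2 ?_ ?_
    · intro a ha b hb
      have h9 : ((a * b : Q) : K) / x ^ (N + 2) = ((b : K) / x ^ N) * ((a : K) / x ^ 2) := by
        rw [Subring.coe_mul, pow_add]
        field_simp
      rw [h9]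
      exact ⟨Q'.mul_mem (hpow _ _ hb) (key a ha).1, NU.mul (hQ'W (hpow _ _ hb)) (key a ha).2⟩
    · intro a b ha hb
      rw [Subring.coe_add, add_div]
      exact ⟨Q'.add_mem ha.1 hb.1, NU.add hA (hQ'W ha.1) (hQ'W hb.1) ha.2 hb.2⟩
  have h9 : (1 : K) = (ep σ t * v1 : K) / x ^ (N + 2) + (u2 : K) / x ^ (N + 2) := by
    have h10 := congrArg (Subtype.val : Q → K) h6
    have h11 : (ep σ t * (v1 : K)) + (u2 : K) = x ^ (N + 2) := h10
    rw [← add_div, h11, div_self (pow_ne_zero _ hx0)]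
  refine not_NU_one (A := W.toSubring) ?_
  rw [h9]
  exact NU.add hA (hQ'W h7.1) (hQ'W h8.1) h7.2 h8.2

end

end Pool.Agent.Y223.INV
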